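import Mathlib

set_option autoImplicit false

open scoped CStarAlgebra ComplexOrder

namespace Pool.Agent.W665.HAP

/-- `τ` is a faithful tracial state on the unital C*-algebra `A`: a positive linear functional with
`τ 1 = 1`, `τ (a b) = τ (b a)`, and `τ (a* a) = 0` only for `a = 0`. -/
structure IsFaithfulTracialState {A : Type} [CStarAlgebra A] [PartialOrder A] [StarOrderedRing A]
    (τ : A →ₚ[ℂ] ℂ) : Prop where
  map_one : τ 1 = 1
  tracial : ∀ a b : A, τ (a * b) = τ (b * a)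
  faithful : ∀ a : A, τ (star a * a) = 0 → a = 0

section

variable {A : Type} [CStarAlgebra A] [PartialOrder A] [StarOrderedRing A]

/-- bounded linear operators on the GNS Hilbert space `L²(A, τ)` -/
abbrev L2Op (τ : A →ₚ[ℂ] ℂ) : Type := τ.GNS →L[ℂ] τ.GNS

/-- the vector of `L²(A, τ)` given by `a ∈ A` -/
noncomputable def toL2 (τ : A →ₚ[ℂ] ℂ) (a : A) : τ.GNS := (τ.toPreGNS a : τ.GNS)

/-- the operator `T` on `L²(A, τ)` extends the map `Φ : A → A` -/
def IsExtension (τ : A →ₚ[ℂ] ℂ) (Φ : A → A) (T : L2Op τ) : Prop :=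
  ∀ a : A, T (toL2 τ a) = toL2 τ (Φ a)

/-- `T` is a compact operator on `L²(A, τ)` -/
def IsCompactL2 (τ : A →ₚ[ℂ] ℂ) (T : L2Op τ) : Prop := IsCompactOperator T

/-- the map `Φ : A → A` extends to a compact operator on `L²(A, τ)` -/
def ExtendsToCompact (τ : A →ₚ[ℂ] ℂ) (Φ : A → A) : Prop :=
  ∃ T : L2Op τ, IsCompactL2 τ T ∧ IsExtension τ Φ T

/-- the norm `‖a‖_τ = τ(a* a)^{1/2}` -/
noncomputable def norm2 (τ : A →ₚ[ℂ] ℂ) (a : A) : ℝ := Real.sqrt (τ (star a * a)).re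

end

/-- The Haagerup property of the pair `(A, τ)`: there is a net `(Φ i)` (indexed by a nonempty
directed preorder) of completely positive contractive maps `A → A` such that `τ ∘ Φ i ≤ τ` on the
positive cone, each `Φ i` extends to a compact operator on the GNS space `L²(A, τ)`, and
`‖Φ i a - a‖_τ → 0` for every `a`. -/
def HaagerupProperty {A : Type} [CStarAlgebra A] [PartialOrder A] [StarOrderedRing A]
    (τ : A →ₚ[ℂ] ℂ) : Prop :=
  ∃ (ι : Type) (_ : Preorder ι) (_ : IsDirectedOrder ι) (_ : Nonempty ι) (Φ : ι → (A →CP A)),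
    (∀ i, ∀ a : A, ‖Φ i a‖ ≤ ‖a‖) ∧
    (∀ i, ∀ a : A, 0 ≤ a → τ (Φ i a) ≤ τ a) ∧
    (∀ i, ExtendsToCompact τ (Φ i)) ∧
    (∀ a : A, Filter.Tendsto (fun i => norm2 τ (Φ i a - a)) Filter.atTop (nhds 0))

end Pool.Agent.W665.HAP
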