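import Mathlib

set_option autoImplicit false

open scoped CStarAlgebra ComplexOrder

namespace Pool.Agent.W665.HAP

theorem exists_star_mul_self {C : Type} [NonUnitalCStarAlgebra C] [PartialOrder C]
    [StarOrderedRing C] {a : C} (h : 0 ≤ a) : ∃ b : C, a = star b * b :=
  CStarAlgebra.nonneg_iff_eq_star_mul_self.1 h

/-- if `a` is self-adjoint and not positive there is a non-zero positive `p` with
`p * a * p = - (p * p * p)` -/
theorem exists_neg {C : Type} [NonUnitalCStarAlgebra C] [PartialOrder C]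
    [StarOrderedRing C] {a : C} (ha : IsSelfAdjoint a) (h : ¬ 0 ≤ a) :
    ∃ b : C, star b * b ≠ 0 ∧
      (star b * b) * a * (star b * b) = - ((star b * b) * (star b * b) * (star b * b)) := by
  have h0 : a⁻ ≠ 0 := fun h1 => h (CStarAlgebra.nonneg_iff_isSelfAdjoint_and_negPart_eq_zero.2 ⟨ha, h1⟩)
  obtain ⟨b, hb⟩ := exists_star_mul_self (CFC.negPart_nonneg a)
  refine ⟨b, hb ▸ h0, ?_⟩
  rw [← hb]
  have h2 : a = a⁺ - a⁻ := (CFC.posPart_sub_negPart a ha).symm
  have h3 : a⁻ * a * a⁻ = a⁻ * (a⁺ - a⁻) * a⁻ := by rw [← h2]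
  rw [h3, mul_sub, CFC.negPart_mul_posPart, zero_sub, neg_mul]

/-- for a completely positive map, `∑ b_i* Φ(a_i* a_j) b_j ≥ 0` -/
theorem cp_sum_nonneg {B : Type} [CStarAlgebra B] [PartialOrder B] [StarOrderedRing B]
    (Φ : B →CP B) {n : Type} [Fintype n] (a b : n → B) :
    0 ≤ ∑ i, ∑ j, star (b i) * Φ (star (a i) * a j) * b j := by
  classical
  rcases isEmpty_or_nonempty n with hn | ⟨⟨i0⟩⟩
  · simp
  set C : CStarMatrix n n B := CStarMatrix.ofMatrix fun i j => if i = i0 then a j else 0 with hC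
  have hCa : ∀ i j, C i j = if i = i0 then a j else 0 := fun i j => rfl
  have h1 : 0 ≤ star C * C := star_mul_self_nonneg C
  have h2 := Φ.map_cstarMatrix_nonneg _ h1
  obtain ⟨D, hD⟩ := exists_star_mul_self h2
  have h3 : ∀ i j, (star C * C) i j = star (a i) * a j := by
    intro i j
    rw [CStarMatrix.mul_apply, Finset.sum_eq_single i0]
    · rw [CStarMatrix.star_apply, hCa, hCa, if_pos rfl, if_pos rfl]
    · intro k _ hk
      rw [hCa k j, if_neg hk, mul_zero]
    · simp
  have h4 : ∀ i j, Φ (star (a i) * a j) = ∑ k, star (D k i) * D k j := by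
    intro i j
    rw [← h3, ← CStarMatrix.map_apply (M := star C * C) (f := Φ), hD, CStarMatrix.mul_apply]
    simp [CStarMatrix.star_apply]
  have h5 : ∑ i, ∑ j, star (b i) * Φ (star (a i) * a j) * b j
      = ∑ k, star (∑ i, D k i * b i) * (∑ j, D k j * b j) := by
    simp only [h4, Finset.mul_sum, Finset.sum_mul, star_sum, star_mul]
    rw [Finset.sum_congr rfl (fun i _ => Finset.sum_comm), Finset.sum_comm]
    refine Finset.sum_congr rfl fun k _ => ?_
    rw [Finset.sum_comm]
    refine Finset.sum_congr rfl fun i _ => Finset.sum_congr rfl fun j _ => ?_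
    simp only [mul_assoc]
  rw [h5]
  exact Finset.sum_nonneg fun k _ => star_mul_self_nonneg _

/-- the same over a finset -/
theorem cp_sum_nonneg' {B : Type} [CStarAlgebra B] [PartialOrder B] [StarOrderedRing B]
    (Φ : B →CP B) {ι : Type} (s : Finset ι) (a b : ι → B) :
    0 ≤ ∑ i ∈ s, ∑ j ∈ s, star (b i) * Φ (star (a i) * a j) * b j := by
  have h := cp_sum_nonneg Φ (n := s) (fun i => a i) (fun i => b i)
  rw [← Finset.sum_coe_sort s]
  convert h using 2 with i
  exact (Finset.sum_coe_sort s (fun j => star (b i) * Φ (star (a i) * a j) * b j)).symm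

end Pool.Agent.W665.HAP
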