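import Mathlib

set_option autoImplicit false

namespace Pool.Agent.W665.HAP

open Finsupp

/-- the free group on two generators -/
abbrev F2 : Type := FreeGroup (Fin 2)

/-- the four letters as group elements -/
def gen (x : Fin 2 × Bool) : F2 := FreeGroup.mk [x]

/-- the inverse letter -/
def bar (x : Fin 2 × Bool) : Fin 2 × Bool := (x.1, !x.2)

theorem bar_bar (x : Fin 2 × Bool) : bar (bar x) = x := by simp [bar]

theorem gen_bar (x : Fin 2 × Bool) : gen (bar x) = (gen x)⁻¹ := by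
  simp [gen, bar, FreeGroup.inv_mk, FreeGroup.invRev]

theorem norm_gen (x : Fin 2 × Bool) : (gen x).norm ≤ 1 := FreeGroup.norm_mk_le

/-- the bilinear form attached to a function on the group -/
noncomputable def E (ψ : F2 → ℝ) : (F2 →₀ ℝ) →ₗ[ℝ] (F2 →₀ ℝ) →ₗ[ℝ] ℝ :=
  linearCombination ℝ (fun v => linearCombination ℝ (fun w => ψ (v⁻¹ * w)))

theorem E_single (ψ : F2 → ℝ) (v w : F2) (a b : ℝ) :
    E ψ (single v a) (single w b) = a * (b * ψ (v⁻¹ * w)) := by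
  simp [E]

theorem E_eq (ψ : F2 → ℝ) (p q : F2 →₀ ℝ) :
    E ψ p q = ∑ v ∈ p.support, ∑ w ∈ q.support, p v * q w * ψ (v⁻¹ * w) := by
  unfold E
  rw [linearCombination_apply, Finsupp.sum, LinearMap.sum_apply]
  refine Finset.sum_congr rfl fun v _ => ?_
  rw [LinearMap.smul_apply, linearCombination_apply, Finsupp.sum, smul_eq_mul, Finset.mul_sum]
  refine Finset.sum_congr rfl fun w _ => ?_
  rw [smul_eq_mul]; ring

theorem E_symm (ψ : F2 → ℝ) (hψ : ∀ g, ψ g⁻¹ = ψ g) (p q : F2 →₀ ℝ) : E ψ p q = E ψ q p := by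
  rw [E_eq, E_eq, Finset.sum_comm]
  refine Finset.sum_congr rfl fun v _ => Finset.sum_congr rfl fun w _ => ?_
  have : ψ (w⁻¹ * v) = ψ (v⁻¹ * w) := by rw [← hψ]; congr 1; group
  rw [this]; ring

/-- the Markov operator of the simple random walk -/
noncomputable def Mk : (F2 →₀ ℝ) →ₗ[ℝ] (F2 →₀ ℝ) :=
  (1 / 4 : ℝ) • ∑ x : Fin 2 × Bool, lmapDomain ℝ ℝ (fun g => gen x * g)

theorem Mk_single (v : F2) (a : ℝ) :
    Mk (single v a) = (1 / 4 : ℝ) • ∑ x : Fin 2 × Bool, single (gen x * v) a := by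
  simp only [Mk, LinearMap.smul_apply, LinearMap.sum_apply, lmapDomain_apply, mapDomain_single]

theorem sum_bar {A : Type} [AddCommMonoid A] (f : Fin 2 × Bool → A) : ∑ x, f (bar x) = ∑ x, f x :=
  Equiv.sum_comp (⟨bar, bar, bar_bar, bar_bar⟩ : (Fin 2 × Bool) ≃ (Fin 2 × Bool)) f

theorem E_Mk (ψ : F2 → ℝ) (p q : F2 →₀ ℝ) : E ψ (Mk p) q = E ψ p (Mk q) := by
  have h : (E ψ).comp Mk = (E ψ).compl₂ Mk := by
    refine Finsupp.lhom_ext fun v a => Finsupp.lhom_ext fun w b => ?_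
    rw [LinearMap.comp_apply, LinearMap.compl₂_apply, Mk_single, Mk_single]
    simp only [map_smul, map_sum, LinearMap.smul_apply, LinearMap.sum_apply, E_single]
    congr 1
    rw [← sum_bar]
    refine Finset.sum_congr rfl fun x _ => ?_
    rw [gen_bar]
    congr 3
    group
  have := LinearMap.congr_fun (LinearMap.congr_fun h p) q
  simpa using this

/-- the distribution of the walk at time `k` -/
noncomputable def xi (k : ℕ) : F2 →₀ ℝ := (Mk ^ k) (single 1 1)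

theorem xi_zero : xi 0 = single 1 1 := by simp [xi]

theorem xi_succ (k : ℕ) : xi (k + 1) = Mk (xi k) := by
  unfold xi
  rw [pow_succ', Module.End.mul_apply]

theorem E_Mk_pow (ψ : F2 → ℝ) (k : ℕ) : ∀ p q : F2 →₀ ℝ,
    E ψ ((Mk ^ k) p) q = E ψ p ((Mk ^ k) q) := by
  induction k with
  | zero => intro p q; simp
  | succ k ih =>
    intro p q
    rw [pow_succ', Module.End.mul_apply, E_Mk, ih, ← Module.End.mul_apply, ← pow_succ,
      ← pow_succ']

theorem E_xi_add (ψ : F2 → ℝ) (j k : ℕ) : E ψ (xi j) (xi k) = E ψ (xi 0) (xi (j + k)) := by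
  unfold xi
  rw [E_Mk_pow, ← Module.End.mul_apply, ← pow_add]
  simp

/-- the moments of the walk -/
noncomputable def mom (ψ : F2 → ℝ) (k : ℕ) : ℝ := E ψ (xi 0) (xi k)

theorem mom_zero (ψ : F2 → ℝ) : mom ψ 0 = ψ 1 := by
  unfold mom
  rw [xi_zero, E_single]; simp

theorem mom_one (ψ : F2 → ℝ) : mom ψ 1 = (1 / 4) * ∑ x : Fin 2 × Bool, ψ (gen x) := by
  unfold mom
  rw [show (1:ℕ) = 0 + 1 from rfl, xi_succ, xi_zero, Mk_single]
  simp only [map_smul, map_sum, E_single, smul_eq_mul]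
  simp

theorem mom_sq_le (ψ : F2 → ℝ) (hp : ∀ p, 0 ≤ E ψ p p) (k : ℕ) :
    mom ψ k ^ 2 ≤ mom ψ 0 * mom ψ (2 * k) := by
  have h := LinearMap.BilinForm.apply_mul_apply_le_of_forall_zero_le (E ψ) hp (xi 0) (xi k)
  have e : E ψ (xi k) (xi k) = mom ψ (2 * k) := by
    rw [E_xi_add, two_mul]; rfl
  have e' : E ψ (xi k) (xi 0) = mom ψ k := by
    rw [E_xi_add]; rfl
  rw [e, e'] at h
  rw [pow_two]
  exact h

theorem mom_nonneg_even (ψ : F2 → ℝ) (hp : ∀ p, 0 ≤ E ψ p p) (k : ℕ) : 0 ≤ mom ψ (2 * k) := by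
  have h := hp (xi k)
  rw [E_xi_add, ← two_mul] at h
  exact h

theorem mom_pow_le (ψ : F2 → ℝ) (hp : ∀ p, 0 ≤ E ψ p p) (r : ℕ) :
    mom ψ 0 * mom ψ 1 ^ (2 ^ (r + 1)) ≤ mom ψ 0 ^ (2 ^ (r + 1)) * mom ψ (2 ^ (r + 1)) := by
  have h0 : 0 ≤ mom ψ 0 := by simpa using mom_nonneg_even ψ hp 0
  induction r with
  | zero =>
    have h := mul_le_mul_of_nonneg_left (mom_sq_le ψ hp 1) h0
    simp only [zero_add, pow_one, mul_one] at h ⊢
    calc _ ≤ _ := h
      _ = _ := by ring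
  | succ r ih =>
    rcases h0.eq_or_lt with h1 | h1
    · have h2 := mom_sq_le ψ hp 1
      rw [← h1] at h2 ⊢
      rw [zero_mul, zero_pow (by positivity), zero_mul]
    · have hpos : 0 ≤ mom ψ 0 * mom ψ 1 ^ (2 ^ (r + 1)) := by
        refine mul_nonneg h0 ?_
        rw [pow_succ, pow_mul]; positivity
      have h3 := pow_le_pow_left₀ hpos ih 2
      have h4 := mom_sq_le ψ hp (2 ^ (r + 1))
      have e1 : 2 * 2 ^ (r + 1) = 2 ^ (r + 1 + 1) := by ring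
      rw [e1] at h4
      have h5 : (mom ψ 0 ^ (2 ^ (r + 1))) ^ 2 * mom ψ (2 ^ (r + 1)) ^ 2 ≤
          (mom ψ 0 ^ (2 ^ (r + 1))) ^ 2 * (mom ψ 0 * mom ψ (2 ^ (r + 1 + 1))) :=
        mul_le_mul_of_nonneg_left h4 (by positivity)
      have h6 : mom ψ 0 * (mom ψ 0 * mom ψ 1 ^ (2 ^ (r + 1 + 1))) ≤
          mom ψ 0 * (mom ψ 0 ^ (2 ^ (r + 1 + 1)) * mom ψ (2 ^ (r + 1 + 1))) := by
        calc _ = (mom ψ 0 * mom ψ 1 ^ (2 ^ (r + 1))) ^ 2 := by rw [← e1]; ring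
          _ ≤ _ := h3
          _ = (mom ψ 0 ^ (2 ^ (r + 1))) ^ 2 * mom ψ (2 ^ (r + 1)) ^ 2 := by ring
          _ ≤ _ := h5
          _ = _ := by rw [← e1]; ring
      exact le_of_mul_le_mul_left h6 h1

theorem psd_le (ψ : F2 → ℝ) (hp : ∀ p, 0 ≤ E ψ p p) (g : F2) : ψ g + ψ g⁻¹ ≤ 2 * ψ 1 := by
  have h := hp (single 1 1 - single g 1)
  simp only [map_sub, LinearMap.sub_apply, E_single] at h
  simp only [inv_one, one_mul, mul_one, inv_mul_cancel] at h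
  linarith

theorem mom_one_le (ψ : F2 → ℝ) (hp : ∀ p, 0 ≤ E ψ p p) : mom ψ 1 ≤ mom ψ 0 := by
  rw [mom_one, mom_zero]
  have h1 : ∑ x : Fin 2 × Bool, ψ (gen x) = ∑ x : Fin 2 × Bool, ψ (gen x)⁻¹ := by
    rw [← sum_bar (fun x => ψ (gen x))]
    exact Finset.sum_congr rfl fun x _ => by rw [gen_bar]
  have h2 : ∑ x : Fin 2 × Bool, (ψ (gen x) + ψ (gen x)⁻¹) ≤ ∑ x : Fin 2 × Bool, 2 * ψ 1 :=
    Finset.sum_le_sum fun x _ => psd_le ψ hp _
  rw [Finset.sum_add_distrib, ← h1] at h2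
  simp only [Finset.sum_const, Finset.card_univ, Fintype.card_prod, Fintype.card_fin,
    Fintype.card_bool, nsmul_eq_mul] at h2
  push_cast at h2
  linarith

end Pool.Agent.W665.HAP
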