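import Mathlib
import Pool.Agent.W665.HAP.Walk

set_option autoImplicit false

namespace Pool.Agent.W665.HAP

open Finsupp

theorem Mk_apply (p : F2 →₀ ℝ) (g : F2) :
    Mk p g = (1 / 4) * ∑ x : Fin 2 × Bool, p ((gen x)⁻¹ * g) := by
  have h : ∀ x : Fin 2 × Bool, mapDomain (fun g => gen x * g) p g = p ((gen x)⁻¹ * g) := by
    intro x
    have h1 := mapDomain_apply (f := fun g : F2 => gen x * g) (mul_right_injective (gen x)) p
      ((gen x)⁻¹ * g)
    simpa using h1
  simp only [Mk, LinearMap.smul_apply, LinearMap.sum_apply, lmapDomain_apply, Finsupp.smul_apply,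
    Finsupp.finsetSum_apply, h, smul_eq_mul]

theorem xi_nonneg (k : ℕ) : ∀ g, 0 ≤ xi k g := by
  induction k with
  | zero => intro g; rw [xi_zero, single_apply]; split_ifs <;> norm_num
  | succ k ih =>
    intro g
    rw [xi_succ, Mk_apply]
    exact mul_nonneg (by norm_num) (Finset.sum_nonneg fun x _ => ih _)

theorem xi_ball (k : ℕ) : ∀ g, xi k g ≠ 0 → g.norm ≤ k := by
  induction k with
  | zero =>
    intro g hg
    rw [xi_zero, single_apply] at hg
    by_cases h : 1 = g
    · rw [← h]; simp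
    · rw [if_neg h] at hg; exact absurd rfl hg
  | succ k ih =>
    intro g hg
    rw [xi_succ, Mk_apply] at hg
    obtain ⟨x, _, hx⟩ := Finset.exists_ne_zero_of_sum_ne_zero (right_ne_zero_of_mul hg)
    have h1 := ih _ hx
    have h2 : g = gen x * ((gen x)⁻¹ * g) := by group
    rw [h2]
    have h3 := FreeGroup.norm_mul_le (gen x) ((gen x)⁻¹ * g)
    have h4 := norm_gen x
    omega

/-- the Kesten weight -/
noncomputable def wt (g : F2) : ℝ := (1 / Real.sqrt 3) ^ g.norm

theorem wt_pos (g : F2) : 0 < wt g := by unfold wt; positivity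

theorem norm_gen_mul (x : Fin 2 × Bool) (g : F2) :
    (gen x * g).norm = if g.toWord.head? = some (bar x) then g.norm - 1 else g.norm + 1 := by
  unfold FreeGroup.norm
  have h1 : gen x * g = FreeGroup.mk (x :: g.toWord) := by
    conv_lhs => rw [← FreeGroup.mk_toWord (x := g)]
    unfold gen
    rw [FreeGroup.mul_mk]; rfl
  rw [h1, FreeGroup.toWord_mk]
  have h2 : FreeGroup.reduce (x :: g.toWord) = List.casesOn (FreeGroup.reduce g.toWord) [x]
      fun hd tl => if x.1 = hd.1 ∧ x.2 = !hd.2 then tl else x :: hd :: tl := by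
    exact FreeGroup.reduce.cons x
  rw [h2, FreeGroup.reduce_toWord]
  cases hw : g.toWord with
  | nil => simp
  | cons hd tl =>
    simp only [List.head?_cons, Option.some.injEq, List.length_cons, Nat.add_sub_cancel]
    have h3 : (x.1 = hd.1 ∧ x.2 = !hd.2) ↔ hd = bar x := by
      unfold bar
      constructor
      · rintro ⟨a, b⟩
        refine Prod.ext a.symm ?_
        simp [b]
      · intro h
        rw [h]
        simp
    by_cases h : hd = bar x
    · rw [if_pos (h3.2 h), if_pos h]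
    · rw [if_neg (fun h' => h (h3.1 h')), if_neg h]
      simp

theorem sqrt3 : Real.sqrt 3 * Real.sqrt 3 = 3 := Real.mul_self_sqrt (by norm_num)

theorem wt_avg (g : F2) : (1 / 4) * ∑ x : Fin 2 × Bool, wt (gen x * g) ≤ Real.sqrt 3 / 2 * wt g := by
  have h3 := sqrt3
  have hpos : 0 < Real.sqrt 3 := by positivity
  have hinv : 1 / Real.sqrt 3 = Real.sqrt 3 / 3 := by
    rw [div_eq_div_iff hpos.ne' (by norm_num)]; linarith
  cases hw : g.toWord with
  | nil =>
    have h0 : g.norm = 0 := by unfold FreeGroup.norm; rw [hw]; rfl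
    have h1 : ∀ x : Fin 2 × Bool, wt (gen x * g) = 1 / Real.sqrt 3 := by
      intro x
      unfold wt
      rw [norm_gen_mul, hw, h0]
      simp
    have h2 : wt g = 1 := by unfold wt; rw [h0]; simp
    rw [Finset.sum_congr rfl fun x _ => h1 x, h2]
    simp only [Finset.sum_const, Finset.card_univ, Fintype.card_prod, Fintype.card_fin,
      Fintype.card_bool, nsmul_eq_mul]
    rw [hinv]
    push_cast
    linarith
  | cons hd tl =>
    have h0 : g.norm = tl.length + 1 := by unfold FreeGroup.norm; rw [hw]; rfl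
    have h1 : ∀ x : Fin 2 × Bool, wt (gen x * g) =
        wt g * (1 / Real.sqrt 3) + (if bar x = hd then wt g * (Real.sqrt 3 - 1 / Real.sqrt 3) else 0) := by
      intro x
      unfold wt
      rw [norm_gen_mul, hw, List.head?_cons, h0]
      by_cases h : hd = bar x
      · rw [if_pos (congrArg some h), if_pos h.symm, Nat.add_sub_cancel, pow_succ]
        have : 1 / Real.sqrt 3 * Real.sqrt 3 = 1 := by rw [one_div, inv_mul_cancel₀ hpos.ne']
        calc _ = (1 / Real.sqrt 3) ^ tl.length * 1 := by ring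
          _ = (1 / Real.sqrt 3) ^ tl.length * (1 / Real.sqrt 3 * Real.sqrt 3) := by rw [this]
          _ = _ := by ring
      · rw [if_neg (fun h' => h (Option.some.inj h')), if_neg (fun h' => h h'.symm)]
        ring
    rw [Finset.sum_congr rfl fun x _ => h1 x, Finset.sum_add_distrib, sum_bar
      (fun y => if y = hd then wt g * (Real.sqrt 3 - 1 / Real.sqrt 3) else 0),
      Finset.sum_ite_eq' Finset.univ hd]
    simp only [Finset.sum_const, Finset.card_univ, Fintype.card_prod, Fintype.card_fin,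
      Fintype.card_bool, nsmul_eq_mul, Finset.mem_univ, if_true]
    rw [hinv]
    push_cast
    nlinarith [wt_pos g]

theorem wt_xi (k : ℕ) : linearCombination ℝ wt (xi k) ≤ (Real.sqrt 3 / 2) ^ k := by
  induction k with
  | zero =>
    rw [xi_zero, linearCombination_single]
    simp [wt]
  | succ k ih =>
    have h1 : (linearCombination ℝ wt).comp Mk
        = linearCombination ℝ (fun g => (1 / 4) * ∑ x : Fin 2 × Bool, wt (gen x * g)) := by
      refine Finsupp.lhom_ext fun v a => ?_
      rw [LinearMap.comp_apply, Mk_single]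
      simp only [map_smul, map_sum, linearCombination_single, smul_eq_mul, Finset.mul_sum]
      refine Finset.sum_congr rfl fun x _ => ?_
      ring
    rw [xi_succ, ← LinearMap.comp_apply, h1, linearCombination_apply, Finsupp.sum]
    calc ∑ a ∈ (xi k).support, xi k a • ((1 / 4) * ∑ x : Fin 2 × Bool, wt (gen x * a))
        ≤ ∑ a ∈ (xi k).support, (Real.sqrt 3 / 2) * (xi k a • wt a) := by
          refine Finset.sum_le_sum fun a _ => ?_
          rw [smul_eq_mul, smul_eq_mul]
          have := mul_le_mul_of_nonneg_left (wt_avg a) (xi_nonneg k a)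
          linarith
      _ = (Real.sqrt 3 / 2) * linearCombination ℝ wt (xi k) := by
          rw [linearCombination_apply, Finsupp.sum, Finset.mul_sum]
      _ ≤ (Real.sqrt 3 / 2) * (Real.sqrt 3 / 2) ^ k :=
          mul_le_mul_of_nonneg_left ih (by positivity)
      _ = _ := by ring

theorem xi_one_le (k : ℕ) : xi k 1 ≤ (Real.sqrt 3 / 2) ^ k := by
  refine le_trans ?_ (wt_xi k)
  rw [linearCombination_apply, Finsupp.sum]
  by_cases h : (1 : F2) ∈ (xi k).support
  · have h1 := Finset.single_le_sum (f := fun a => xi k a • wt a)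
      (fun a _ => mul_nonneg (xi_nonneg k a) (wt_pos a).le) h
    simpa [wt] using h1
  · rw [Finsupp.notMem_support_iff.1 h]
    exact Finset.sum_nonneg fun a _ => mul_nonneg (xi_nonneg k a) (wt_pos a).le

/-- the collision probability of the walk -/
theorem sum_sq_xi (m : ℕ) : ∑ v ∈ (xi m).support, xi m v ^ 2 ≤ (3 / 4) ^ m := by
  set δ : F2 → ℝ := fun g => if g = 1 then 1 else 0 with hδ
  have h1 : E δ (xi m) (xi m) = ∑ v ∈ (xi m).support, xi m v ^ 2 := by
    rw [E_eq]
    refine Finset.sum_congr rfl fun v hv => ?_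
    rw [Finset.sum_eq_single v]
    · simp [hδ]; ring
    · intro w _ hw
      have : ¬ (v⁻¹ * w = 1) := by rw [inv_mul_eq_one]; exact fun h => hw h.symm
      simp [hδ, this]
    · intro h; exact absurd hv h
  have h2 : E δ (xi m) (xi m) = xi (m + m) 1 := by
    rw [E_xi_add, E_eq, xi_zero, support_single _ one_ne_zero, Finset.sum_singleton]
    simp only [single_eq_same, one_mul, inv_one, hδ, mul_ite, mul_one, mul_zero,
      Finset.sum_ite_eq', Finsupp.mem_support_iff, ne_eq]
    by_cases h : xi (m + m) 1 = 0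
    · simp [h]
    · simp [h]
  rw [← h1, h2]
  refine (xi_one_le _).trans (le_of_eq ?_)
  rw [← two_mul, pow_mul, div_pow, Real.sq_sqrt (by norm_num)]
  norm_num

/-- splitting into classes -/
theorem E_class_le (ψ : F2 → ℝ) (hp : ∀ p, 0 ≤ E ψ p p) {K : Type} [Fintype K] [DecidableEq K]
    (q : F2 → K) (p : F2 →₀ ℝ) :
    E ψ p p ≤ Fintype.card K * ∑ h : K, E ψ (p.filter (fun v => q v = h)) (p.filter (fun v => q v = h)) := by
  set f : K → (F2 →₀ ℝ) := fun h => p.filter (fun v => q v = h) with hf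
  have hsum : ∑ h, f h = p := by
    ext v
    rw [Finsupp.finsetSum_apply, Finset.sum_eq_single (q v)]
    · simp [hf]
    · intro h _ hh
      rw [hf]
      exact Finsupp.filter_apply_neg _ _ (fun h' => hh h'.symm)
    · simp
  have h1 : 0 ≤ ∑ h, ∑ h', E ψ (f h - f h') (f h - f h') :=
    Finset.sum_nonneg fun _ _ => Finset.sum_nonneg fun _ _ => hp _
  have h2 : ∑ h, ∑ h', E ψ (f h - f h') (f h - f h')
      = 2 * (Fintype.card K * ∑ h, E ψ (f h) (f h)) - 2 * E ψ p p := by
    have e1 : ∀ h h', E ψ (f h - f h') (f h - f h') =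
        E ψ (f h) (f h) + E ψ (f h') (f h') - E ψ (f h) (f h') - E ψ (f h') (f h) := by
      intro h h'
      simp only [map_sub, LinearMap.sub_apply]
      ring
    have e2 : ∑ h, ∑ h', E ψ (f h) (f h') = E ψ p p := by
      rw [← hsum]
      simp only [map_sum, LinearMap.sum_apply]
      rw [Finset.sum_comm]
    have e3 : ∑ h, ∑ h', E ψ (f h') (f h) = E ψ p p := by rw [Finset.sum_comm]; exact e2
    simp only [e1, Finset.sum_sub_distrib, Finset.sum_add_distrib, e2, e3, Finset.sum_const,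
      Finset.card_univ, nsmul_eq_mul, ← Finset.mul_sum]
    ring
  rw [h2] at h1
  linarith

theorem part_bound (ψ : F2 → ℝ) (hp : ∀ p, 0 ≤ E ψ p p) {K : Type} [Fintype K] [DecidableEq K]
    (q : F2 → K) (C : ℝ) (m : ℕ) (hC : 0 ≤ C)
    (h : ∀ h : K, E ψ ((xi m).filter (fun v => q v = h)) ((xi m).filter (fun v => q v = h)) ≤
      C * ∑ v ∈ (xi m).support, ((xi m).filter (fun v => q v = h)) v ^ 2) :
    mom ψ (2 * m) ≤ Fintype.card K * C * (3 / 4) ^ m := by
  have e : mom ψ (2 * m) = E ψ (xi m) (xi m) := by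
    rw [E_xi_add, two_mul]; rfl
  rw [e]
  have h1 := E_class_le ψ hp q (xi m)
  have h2 : ∑ h : K, E ψ ((xi m).filter (fun v => q v = h)) ((xi m).filter (fun v => q v = h))
      ≤ C * ∑ v ∈ (xi m).support, xi m v ^ 2 := by
    calc _ ≤ ∑ h : K, C * ∑ v ∈ (xi m).support, ((xi m).filter (fun v => q v = h)) v ^ 2 :=
          Finset.sum_le_sum fun k _ => h k
      _ = C * ∑ v ∈ (xi m).support, ∑ h : K, ((xi m).filter (fun v => q v = h)) v ^ 2 := by
          rw [← Finset.mul_sum, Finset.sum_comm]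
      _ = C * ∑ v ∈ (xi m).support, xi m v ^ 2 := by
          congr 1
          refine Finset.sum_congr rfl fun v _ => ?_
          rw [Finset.sum_eq_single (q v)]
          · rw [Finsupp.filter_apply_pos (fun w => q w = q v) _ rfl]
          · intro k _ hk
            rw [Finsupp.filter_apply_neg (fun w => q w = k) _ (fun h' => hk h'.symm)]
            norm_num
          · simp
  have h3 := sum_sq_xi m
  calc E ψ (xi m) (xi m) ≤ _ := h1
    _ ≤ Fintype.card K * (C * ∑ v ∈ (xi m).support, xi m v ^ 2) :=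
        mul_le_mul_of_nonneg_left h2 (by positivity)
    _ ≤ Fintype.card K * (C * (3 / 4) ^ m) := by gcongr
    _ = _ := by ring

theorem decay (ψ : F2 → ℝ) (hp : ∀ p, 0 ≤ E ψ p p) (r : ℕ) (D : ℝ)
    (hD : D ≤ 0.01 * (1.08) ^ (2 ^ r)) (h : mom ψ (2 * 2 ^ r) ≤ D * (3 / 4) ^ (2 ^ r)) :
    mom ψ 1 ≤ 0.9 * mom ψ 0 + 0.01 := by
  by_contra hcon
  push Not at hcon
  have ha : 0 ≤ mom ψ 0 := by simpa using mom_nonneg_even ψ hp 0
  have hb := mom_one_le ψ hp
  set a := mom ψ 0 with ha'
  set b := mom ψ 1 with hb'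
  have h1 := mom_pow_le ψ hp r
  have h2 : mom ψ (2 ^ (r + 1)) ≤ 0.01 * (0.9) ^ (2 ^ (r + 1)) := by
    have e : (2 : ℕ) ^ (r + 1) = 2 * 2 ^ r := by ring
    rw [e]
    refine h.trans ?_
    calc D * (3 / 4) ^ (2 ^ r) ≤ (0.01 * (1.08) ^ (2 ^ r)) * (3 / 4) ^ (2 ^ r) := by gcongr
      _ = 0.01 * ((1.08) * (3 / 4)) ^ (2 ^ r) := by rw [mul_pow]; ring
      _ = 0.01 * (0.9) ^ (2 * 2 ^ r) := by rw [pow_mul]; norm_num
  rw [← ha', ← hb'] at h1
  rcases ha.eq_or_lt with h0 | h0
  · rw [← h0] at hcon hb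
    linarith
  · have hbp : 0 < 0.9 * a := by positivity
    have h3 : (0.9 * a) ^ (2 ^ (r + 1)) ≤ b ^ (2 ^ (r + 1)) := by
      refine pow_le_pow_left₀ hbp.le ?_ _
      linarith
    have h4 : a * (0.9 * a) ^ (2 ^ (r + 1)) ≤ 0.01 * (0.9 * a) ^ (2 ^ (r + 1)) := by
      calc a * (0.9 * a) ^ (2 ^ (r + 1)) ≤ a * b ^ (2 ^ (r + 1)) := by gcongr
        _ ≤ a ^ (2 ^ (r + 1)) * mom ψ (2 ^ (r + 1)) := h1
        _ ≤ a ^ (2 ^ (r + 1)) * (0.01 * (0.9) ^ (2 ^ (r + 1))) := by gcongr
        _ = _ := by rw [mul_pow]; ring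
    have h5 : a ≤ 0.01 := le_of_mul_le_mul_right h4 (by positivity)
    linarith

end Pool.Agent.W665.HAP
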