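import Mathlib
import Pool.Agent.W665.HAP.Defs
import Pool.Agent.W665.HAP.CP
import Pool.Agent.W665.HAP.Walk2

set_option autoImplicit false
set_option linter.unusedSectionVars false

open scoped CStarAlgebra ComplexOrder

namespace Pool.Agent.W665.HAP

variable {B : Type} [CStarAlgebra B] [PartialOrder B] [StarOrderedRing B]

/-- the data of the counterexample, seen in the small algebra -/
structure Cfg (σ : B →ₚ[ℂ] ℂ) where
  one : σ 1 = 1
  tr : ∀ a b, σ (a * b) = σ (b * a)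
  ρ : F2 →* B
  ρ_star : ∀ g, star (ρ g) = ρ g⁻¹
  z : ℕ → B
  z_star : ∀ n, star (z n) = z n
  z_idem : ∀ n, z n * z n = z n
  z_comm : ∀ n b, z n * b = b * z n
  z_orth : ∀ n k, n ≠ k → z n * z k = 0
  c : ℕ → ℝ
  c_pos : ∀ n, 0 < c n
  σ_z : ∀ n, σ (z n) = c n
  H : ℕ → Subgroup F2
  Hf : ∀ n, (H n).FiniteIndex
  Hn : ∀ n, (H n).Normal
  H_anti : Antitone H
  zρ : ∀ n g, g ∈ H n → z n * ρ g = z n
  σzρ : ∀ n g, g ∉ H n → σ (z n * ρ g) = 0
  r : ℕ → ℕ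
  girth : ∀ n g, g ∈ H n → g ≠ 1 → 2 * 2 ^ r n < g.norm
  rest : ∀ n g, g ≠ 1 → g.norm ≤ 2 * 2 ^ r (n + 1) →
    σ ((1 - ∑ k ∈ Finset.range (n + 1), z k) * ρ g) = 0
  growth : ∀ n, (H n).index / c n ≤ 0.01 * (1.08) ^ (2 ^ r (n + 1))
  growth' : ∀ n, ((H n).index : ℝ) ≤ 0.01 * (1.08) ^ (2 ^ r (n + 1))
  lim : ∀ x : B, ∀ ε : ℝ, 0 < ε → ∀ᶠ n in Filter.atTop,
    (σ (z n * (star x * x))).re / c n ≤ 2 * (σ (star x * x)).re + ε

theorem re_mono (σ : B →ₚ[ℂ] ℂ) {a b : B} (h : a ≤ b) : (σ a).re ≤ (σ b).re := by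
  have h1 : 0 ≤ σ (b - a) := map_nonneg σ (sub_nonneg.2 h)
  rw [map_sub] at h1
  have h2 := (Complex.le_def.1 h1).1
  simp only [Complex.zero_re, Complex.sub_re] at h2
  linarith


theorem re_nonneg (σ : B →ₚ[ℂ] ℂ) {a : B} (h : 0 ≤ a) : 0 ≤ (σ a).re :=
  (Complex.le_def.1 (map_nonneg σ h)).1

namespace Cfg

variable {σ : B →ₚ[ℂ] ℂ} (K : Cfg σ)

/-- the positive definite functions -/
noncomputable def psi (Φ : B →CP B) (N : ℕ) (z : B) (g : F2) : ℝ :=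
  (σ (K.z N * (Φ (z * K.ρ g) * K.ρ g⁻¹))).re / K.c N

theorem zN_nonneg (N : ℕ) {X : B} (hX : 0 ≤ X) : 0 ≤ K.z N * X := by
  have h : K.z N * X = star (K.z N) * X * K.z N := by
    rw [K.z_star, mul_assoc, ← K.z_comm, ← mul_assoc, K.z_idem]
  rw [h]
  exact star_left_conjugate_nonneg hX _

theorem zN_le (N : ℕ) {X : B} (hX : 0 ≤ X) : K.z N * X ≤ X := by
  have h : X - K.z N * X = star (1 - K.z N) * X * (1 - K.z N) := by
    rw [star_sub, star_one, K.z_star, sub_mul, one_mul, mul_sub, mul_one, sub_mul,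
      mul_assoc (K.z N) X (K.z N), ← K.z_comm N X, ← mul_assoc (K.z N) (K.z N) X, K.z_idem]
    abel
  rw [← sub_nonneg, h]
  exact star_left_conjugate_nonneg hX _

theorem psd (Φ : B →CP B) (N : ℕ) (z : B) (hz : star z = z) (hz2 : z * z = z)
    (hzc : ∀ b, z * b = b * z) (p : F2 →₀ ℝ) : 0 ≤ E (K.psi Φ N z) p p := by
  have h1 := cp_sum_nonneg' Φ p.support (fun v => z * K.ρ v)
    (fun v => ((p v : ℝ) : ℂ) • K.ρ v⁻¹)
  have h2 := re_nonneg σ (K.zN_nonneg N h1)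
  have h3 : E (K.psi Φ N z) p p = (σ (K.z N * ∑ i ∈ p.support, ∑ j ∈ p.support,
      star (((p i : ℝ) : ℂ) • K.ρ i⁻¹) * Φ (star (z * K.ρ i) * (z * K.ρ j)) *
        (((p j : ℝ) : ℂ) • K.ρ j⁻¹))).re / K.c N := by
    rw [E_eq, Finset.mul_sum, map_sum, Complex.re_sum, Finset.sum_div]
    refine Finset.sum_congr rfl fun v _ => ?_
    rw [Finset.mul_sum, map_sum, Complex.re_sum, Finset.sum_div]
    refine Finset.sum_congr rfl fun w _ => ?_
    have e1 : star (z * K.ρ v) * (z * K.ρ w) = z * K.ρ (v⁻¹ * w) := by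
      rw [star_mul, hz, K.ρ_star, map_mul, mul_assoc, ← mul_assoc z z, hz2, ← mul_assoc, ← hzc,
        mul_assoc]
    have e2 : star (((p v : ℝ) : ℂ) • K.ρ v⁻¹) = ((p v : ℝ) : ℂ) • K.ρ v := by
      rw [star_smul, K.ρ_star, inv_inv]
      simp
    rw [e1, e2]
    have e3 : K.z N * (((p v : ℝ) : ℂ) • K.ρ v * Φ (z * K.ρ (v⁻¹ * w)) * (((p w : ℝ) : ℂ) • K.ρ w⁻¹))
        = (((p v : ℝ) : ℂ) * ((p w : ℝ) : ℂ)) •
          (K.ρ v * (K.z N * (Φ (z * K.ρ (v⁻¹ * w)) * K.ρ w⁻¹))) := by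
      simp only [smul_mul_assoc, mul_smul_comm, smul_smul, mul_assoc]
      rw [← mul_assoc (K.z N) (K.ρ v), K.z_comm N (K.ρ v), mul_assoc]
      rw [mul_comm]
    rw [e3, map_smul, K.tr]
    have e4 : K.z N * (Φ (z * K.ρ (v⁻¹ * w)) * K.ρ w⁻¹) * K.ρ v
        = K.z N * (Φ (z * K.ρ (v⁻¹ * w)) * K.ρ (v⁻¹ * w)⁻¹) := by
      rw [mul_inv_rev, inv_inv, map_mul K.ρ w⁻¹ v, mul_assoc, mul_assoc]
    rw [e4, smul_eq_mul, ← Complex.ofReal_mul, Complex.re_ofReal_mul]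
    unfold psi
    ring
  rw [h3]
  exact div_nonneg h2 (K.c_pos N).le

/-- the vector attached to a finitely supported function -/
noncomputable def vec (p : F2 →₀ ℝ) : B := ∑ v ∈ p.support, ((p v : ℝ) : ℂ) • K.ρ v


theorem star_vec (p : F2 →₀ ℝ) : star (K.vec p) = ∑ v ∈ p.support, ((p v : ℝ) : ℂ) • K.ρ v⁻¹ := by
  unfold vec
  rw [star_sum]
  refine Finset.sum_congr rfl fun v _ => ?_
  rw [star_smul, K.ρ_star]
  simp

theorem star_vec_mul_vec (p : F2 →₀ ℝ) : star (K.vec p) * K.vec p =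
    ∑ v ∈ p.support, ∑ w ∈ p.support, ((p v * p w : ℝ) : ℂ) • K.ρ (v⁻¹ * w) := by
  rw [star_vec, vec, Finset.sum_mul]
  refine Finset.sum_congr rfl fun v _ => ?_
  rw [Finset.mul_sum]
  refine Finset.sum_congr rfl fun w _ => ?_
  rw [smul_mul_smul_comm, map_mul]
  push_cast
  rfl

theorem vec_mul_star_vec (p : F2 →₀ ℝ) : K.vec p * star (K.vec p) =
    ∑ v ∈ p.support, ∑ w ∈ p.support, ((p v * p w : ℝ) : ℂ) • K.ρ (v * w⁻¹) := by
  rw [star_vec, vec, Finset.sum_mul]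
  refine Finset.sum_congr rfl fun v _ => ?_
  rw [Finset.mul_sum]
  refine Finset.sum_congr rfl fun w _ => ?_
  rw [smul_mul_smul_comm, map_mul]
  push_cast
  rfl


theorem re_sum_smul (p : F2 →₀ ℝ) (X : F2 → F2 → B) :
    (σ (∑ v ∈ p.support, ∑ w ∈ p.support, ((p v * p w : ℝ) : ℂ) • X v w)).re
      = ∑ v ∈ p.support, ∑ w ∈ p.support, p v * p w * (σ (X v w)).re := by
  rw [map_sum, Complex.re_sum]
  refine Finset.sum_congr rfl fun v _ => ?_
  rw [map_sum, Complex.re_sum]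
  refine Finset.sum_congr rfl fun w _ => ?_
  rw [map_smul, smul_eq_mul, Complex.re_ofReal_mul]

/-- a double sum with vanishing off-diagonal terms -/
theorem diag_sum (p : F2 →₀ ℝ) (f : F2 → F2 → ℝ) (t : ℝ)
    (h1 : ∀ v ∈ p.support, f v v = t)
    (h2 : ∀ v ∈ p.support, ∀ w ∈ p.support, v ≠ w → f v w = 0) :
    ∑ v ∈ p.support, ∑ w ∈ p.support, p v * p w * f v w = t * ∑ v ∈ p.support, p v ^ 2 := by
  rw [Finset.mul_sum]
  refine Finset.sum_congr rfl fun v hv => ?_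
  rw [Finset.sum_eq_single v]
  · rw [h1 v hv]; ring
  · intro w hw hne
    rw [h2 v hv w hw (fun h => hne h.symm), mul_zero]
  · intro h; exact absurd hv h

theorem lt_class (Φ : B →CP B) (N : ℕ) (z : B) (hΦ : Φ z ≤ 1) (p : F2 →₀ ℝ)
    (hp1 : ∀ v ∈ p.support, ∀ w ∈ p.support, z * K.ρ (v⁻¹ * w) = z)
    (hp2 : ∀ v ∈ p.support, ∀ w ∈ p.support, v ≠ w → v * w⁻¹ ∉ K.H N) :
    E (K.psi Φ N z) p p ≤ ∑ v ∈ p.support, p v ^ 2 := by
  have hc := K.c_pos N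
  have h1 : E (K.psi Φ N z) p p = (σ (K.z N * (K.vec p * Φ z * star (K.vec p)))).re / K.c N := by
    have e1 : σ (K.z N * (K.vec p * Φ z * star (K.vec p)))
        = σ (K.z N * Φ z * (star (K.vec p) * K.vec p)) := by
      rw [← mul_assoc, ← mul_assoc, K.z_comm, mul_assoc (K.vec p), mul_assoc (K.vec p), K.tr,
        mul_assoc (K.z N * Φ z)]
    rw [e1, star_vec_mul_vec, E_eq, Finset.sum_comm]
    simp only [Finset.mul_sum, mul_smul_comm]
    rw [re_sum_smul, Finset.sum_div]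
    refine Finset.sum_congr rfl fun v hv => ?_
    rw [Finset.sum_div]
    refine Finset.sum_congr rfl fun w hw => ?_
    unfold psi
    rw [hp1 w hw v hv, ← mul_assoc, mul_inv_rev, inv_inv]
    ring
  rw [h1]
  have h2 : K.z N * (K.vec p * Φ z * star (K.vec p)) ≤ K.z N * (K.vec p * 1 * star (K.vec p)) := by
    rw [← sub_nonneg, ← mul_sub]
    exact K.zN_nonneg N (sub_nonneg.2 (star_right_conjugate_le_conjugate hΦ _))
  have h3 := re_mono σ h2
  rw [mul_one, vec_mul_star_vec] at h3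
  simp only [Finset.mul_sum, mul_smul_comm] at h3
  rw [re_sum_smul, diag_sum p (fun v w => (σ (K.z N * K.ρ (v * w⁻¹))).re) (K.c N)] at h3
  · rw [div_le_iff₀ hc]
    linarith
  · intro v _
    rw [mul_inv_cancel, map_one, mul_one, K.σ_z, Complex.ofReal_re]
  · intro v hv w hw hne
    rw [K.σzρ N _ (hp2 v hv w hw hne), Complex.zero_re]

theorem gt_class (Φ : B →CP B) (hσ : ∀ a, 0 ≤ a → σ (Φ a) ≤ σ a)
    (N : ℕ) (z : B) (hz : star z = z) (hz2 : z * z = z)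
    (hzc : ∀ b, z * b = b * z) (p : F2 →₀ ℝ)
    (hp1 : ∀ v ∈ p.support, ∀ w ∈ p.support, v⁻¹ * w ∈ K.H N)
    (hp2 : ∀ v ∈ p.support, ∀ w ∈ p.support, v ≠ w → σ (z * K.ρ (v⁻¹ * w)) = 0) :
    E (K.psi Φ N z) p p ≤ (1 / K.c N) * ∑ v ∈ p.support, p v ^ 2 := by
  have hc := K.c_pos N
  have h1 : E (K.psi Φ N z) p p = (σ (K.z N * Φ (z * (star (K.vec p) * K.vec p)))).re / K.c N := by
    rw [star_vec_mul_vec, E_eq]
    simp only [Finset.mul_sum, mul_smul_comm, map_sum, map_smul Φ]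
    simp only [← map_sum σ]
    rw [re_sum_smul, Finset.sum_div]
    refine Finset.sum_congr rfl fun v hv => ?_
    rw [Finset.sum_div]
    refine Finset.sum_congr rfl fun w hw => ?_
    unfold psi
    have e : K.z N * (Φ (z * K.ρ (v⁻¹ * w)) * K.ρ (v⁻¹ * w)⁻¹) = K.z N * Φ (z * K.ρ (v⁻¹ * w)) := by
      rw [← mul_assoc, K.z_comm, mul_assoc, K.zρ N _ ((K.H N).inv_mem (hp1 v hv w hw)), ← K.z_comm]
    rw [e]
    ring
  rw [h1]
  have h0 : 0 ≤ z * (star (K.vec p) * K.vec p) := by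
    have : z * (star (K.vec p) * K.vec p) = star (K.vec p * z) * (K.vec p * z) := by
      rw [star_mul, hz, ← hz2, mul_assoc, hzc (star (K.vec p) * K.vec p)]
      simp only [mul_assoc, hz2]
    rw [this]
    exact star_mul_self_nonneg _
  have h00 : 0 ≤ Φ (z * (star (K.vec p) * K.vec p)) := map_nonneg Φ h0
  have h2 := re_mono σ (K.zN_le N h00)
  have h3 := (Complex.le_def.1 (hσ _ h0)).1
  have h4 : (σ (z * (star (K.vec p) * K.vec p))).re = (σ z).re * ∑ v ∈ p.support, p v ^ 2 := by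
    rw [star_vec_mul_vec]
    simp only [Finset.mul_sum, mul_smul_comm]
    rw [re_sum_smul, diag_sum p (fun v w => (σ (z * K.ρ (v⁻¹ * w))).re) (σ z).re, Finset.mul_sum]
    · intro v _
      rw [inv_mul_cancel, map_one, mul_one]
    · intro v hv w hw hne
      rw [hp2 v hv w hw hne, Complex.zero_re]
  have h5 : (σ z).re ≤ 1 := by
    have h6 : (0 : B) ≤ 1 - z := by
      have : 1 - z = star (1 - z) * (1 - z) := by
        rw [star_sub, star_one, hz, mul_sub, mul_one, sub_mul, one_mul, hz2]; abel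
      rw [this]
      exact star_mul_self_nonneg _
    have h7 := re_mono σ (sub_nonneg.1 h6)
    rw [K.one] at h7
    simpa using h7
  have h8 : 0 ≤ ∑ v ∈ p.support, p v ^ 2 := Finset.sum_nonneg fun _ _ => sq_nonneg _
  have h9 : 1 / K.c N * (∑ v ∈ p.support, p v ^ 2) * K.c N = ∑ v ∈ p.support, p v ^ 2 := by
    field_simp
  rw [div_le_iff₀ hc, h9]
  calc _ ≤ _ := h2
    _ ≤ _ := h3
    _ = _ := h4
    _ ≤ _ := by nlinarith

end Cfg

end Pool.Agent.W665.HAP
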