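import Mathlib

set_option autoImplicit false

namespace Pool.Agent.W665.HAP

open Filter

/-- compact operators map orthonormal sequences to sequences with arbitrarily small members -/
theorem compact_orthonormal {V : Type} [NormedAddCommGroup V] [InnerProductSpace ℂ V]
    [CompleteSpace V] (T : V →L[ℂ] V) (hT : IsCompactOperator T) (e : ℕ → V)
    (he : Orthonormal ℂ e) (δ : ℝ) (hδ : 0 < δ) : ∃ᶠ n in atTop, ‖T (e n)‖ < δ := by
  rw [Filter.frequently_atTop]
  intro M
  by_contra hcon
  push Not at hcon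
  obtain ⟨S, hS, hS2⟩ := hT.image_closedBall_subset_compact (f := (T : V →ₗ[ℂ] V)) 1
  have h1 : ∀ n, T (e (M + n)) ∈ S := by
    intro n
    refine hS2 ⟨e (M + n), ?_, rfl⟩
    rw [mem_closedBall_zero_iff, he.1]
  obtain ⟨y, _, φ, hφ, hy⟩ := hS.tendsto_subseq h1
  have h2 : Tendsto (fun n => inner ℂ (T (e (M + φ n))) y) atTop (nhds (inner ℂ y y)) :=
    hy.inner tendsto_const_nhds
  have h3 : Tendsto (fun n => inner ℂ (T (e (M + φ n))) y) atTop (nhds 0) := by
    have e1 : ∀ n, inner ℂ (T (e (M + φ n))) y = inner ℂ (e (M + φ n)) (ContinuousLinearMap.adjoint T y) :=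
      fun n => (ContinuousLinearMap.adjoint_inner_right T _ _).symm
    simp only [e1]
    have h4 : Summable fun n => ‖inner ℂ (e n) (ContinuousLinearMap.adjoint T y)‖ ^ 2 :=
      Orthonormal.inner_products_summable (ContinuousLinearMap.adjoint T y) he
    have h5 := h4.tendsto_atTop_zero
    have h6 : Tendsto (fun n => M + φ n) atTop atTop :=
      tendsto_atTop_mono (fun n => Nat.le_add_left _ _) hφ.tendsto_atTop
    have h7 := h5.comp h6
    rw [tendsto_zero_iff_norm_tendsto_zero]
    have h8 := h7.sqrt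
    simpa using h8
  have h4 := tendsto_nhds_unique h2 h3
  have h5 : y = 0 := inner_self_eq_zero.1 h4
  rw [h5] at hy
  have h6 := (tendsto_zero_iff_norm_tendsto_zero.1 hy)
  have h7 : δ ≤ 0 := ge_of_tendsto' h6 fun n => hcon (M + φ n) (Nat.le_add_right _ _)
  linarith

end Pool.Agent.W665.HAP
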