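import Mathlib
import Pool.Agent.W665.HAP.Abs
import Pool.Agent.W665.HAP.Cpt

set_option autoImplicit false
set_option linter.unusedSectionVars false

open scoped CStarAlgebra ComplexOrder

namespace Pool.Agent.W665.HAP

open Filter

variable {B : Type} [CStarAlgebra B] [PartialOrder B] [StarOrderedRing B]

namespace Cfg

variable {σ : B →ₚ[ℂ] ℂ} (K : Cfg σ)

/-- partial sums of the central projections -/
noncomputable def zs (n : ℕ) : B := ∑ k ∈ Finset.range n, K.z k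

theorem zs_star (n : ℕ) : star (K.zs n) = K.zs n := by
  unfold zs; rw [star_sum]; exact Finset.sum_congr rfl fun k _ => K.z_star k

theorem zs_comm (n : ℕ) (b : B) : K.zs n * b = b * K.zs n := by
  unfold zs; rw [Finset.sum_mul, Finset.mul_sum]; exact Finset.sum_congr rfl fun k _ => K.z_comm k b

theorem z_mul_zs (n k : ℕ) (h : k < n) : K.z k * K.zs n = K.z k := by
  unfold zs
  rw [Finset.mul_sum, Finset.sum_eq_single k, K.z_idem]
  · intro j _ hj; exact K.z_orth k j (fun h => hj h.symm)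
  · intro h'; exact absurd (Finset.mem_range.2 h) h'

theorem zs_idem (n : ℕ) : K.zs n * K.zs n = K.zs n := by
  conv_lhs => rw [zs]
  rw [Finset.sum_mul]
  unfold zs
  exact Finset.sum_congr rfl fun k hk => K.z_mul_zs n k (Finset.mem_range.1 hk)

/-- a self-adjoint central idempotent -/
def IsCP (z : B) : Prop := star z = z ∧ z * z = z ∧ ∀ b, z * b = b * z

theorem isCP_zs (n : ℕ) : IsCP (K.zs n) := ⟨K.zs_star n, K.zs_idem n, K.zs_comm n⟩

theorem isCP_z (n : ℕ) : IsCP (K.z n) := ⟨K.z_star n, K.z_idem n, K.z_comm n⟩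

theorem isCP_compl {z : B} (h : IsCP z) : IsCP (1 - z) := by
  obtain ⟨h1, h2, h3⟩ := h
  refine ⟨by rw [star_sub, star_one, h1], ?_, fun b => by rw [sub_mul, mul_sub, one_mul, mul_one, h3]⟩
  rw [mul_sub, mul_one, sub_mul, one_mul, h2]; abel

theorem IsCP.nonneg {z : B} (h : IsCP z) : 0 ≤ z := by
  have : z = star z * z := by rw [h.1, h.2.1]
  rw [this]; exact star_mul_self_nonneg _

theorem IsCP.le_one {z : B} (h : IsCP z) : z ≤ 1 := sub_nonneg.1 (IsCP.nonneg (isCP_compl h))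

theorem IsCP.norm_le {z : B} (h : IsCP z) : ‖z‖ ≤ 1 := by
  have h1 : ‖z‖ * ‖z‖ = ‖z‖ := by
    rw [← CStarRing.norm_star_mul_self, h.1, h.2.1]
  rcases (norm_nonneg z).eq_or_lt with h0 | h0
  · rw [← h0]; norm_num
  · nlinarith

theorem phi_le_one {Φ : B →CP B} (hΦ : ∀ a, ‖Φ a‖ ≤ ‖a‖) {z : B} (h : IsCP z) : Φ z ≤ 1 := by
  have h0 : 0 ≤ Φ z := map_nonneg Φ h.nonneg
  exact (CStarAlgebra.norm_le_one_iff_of_nonneg (Φ z) h0).1 ((hΦ z).trans h.norm_le)

theorem filter_support (p : F2 →₀ ℝ) (P : F2 → Prop) [DecidablePred P] :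
    ∑ v ∈ (p.filter P).support, (p.filter P) v ^ 2 = ∑ v ∈ p.support, (p.filter P) v ^ 2 := by
  refine Finset.sum_subset (fun v hv => ?_) (fun v _ hv => ?_)
  · rw [Finsupp.support_filter] at hv
    exact (Finset.mem_filter.1 hv).1
  · rw [Finsupp.notMem_support_iff.1 hv]; norm_num

theorem mem_filter_xi {m : ℕ} {P : F2 → Prop} [DecidablePred P] {v : F2}
    (hv : v ∈ ((xi m).filter P).support) : v.norm ≤ m ∧ P v := by
  rw [Finsupp.support_filter] at hv
  obtain ⟨h1, h2⟩ := Finset.mem_filter.1 hv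
  exact ⟨xi_ball m v (Finsupp.mem_support_iff.1 h1), h2⟩

theorem lt_part (Φ : B →CP B) (hΦ : ∀ a, ‖Φ a‖ ≤ ‖a‖) (n : ℕ) :
    mom (K.psi Φ (n + 1) (K.zs (n + 1))) 1 ≤
      0.9 * mom (K.psi Φ (n + 1) (K.zs (n + 1))) 0 + 0.01 := by
  classical
  have := K.Hf n
  have := K.Hn n
  let _ : Fintype (F2 ⧸ K.H n) := Subgroup.fintypeQuotientOfFiniteIndex
  have hz := K.isCP_zs (n + 1)
  have hpsd := K.psd Φ (n + 1) _ hz.1 hz.2.1 hz.2.2
  refine decay _ hpsd (K.r (n + 1)) ((K.H n).index) (K.growth' n) ?_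
  have h1 := part_bound _ hpsd (fun v : F2 => (v : F2 ⧸ K.H n)) 1 (2 ^ K.r (n + 1)) zero_le_one
    (fun h => ?_)
  · rw [mul_one] at h1
    rw [Subgroup.index_eq_card, Nat.card_eq_fintype_card]
    exact h1
  · rw [one_mul, ← filter_support]
    refine K.lt_class Φ (n + 1) _ (phi_le_one hΦ hz) _ ?_ ?_
    · intro v hv w hw
      obtain ⟨_, h2⟩ := mem_filter_xi hv
      obtain ⟨_, h4⟩ := mem_filter_xi hw
      have h5 : v⁻¹ * w ∈ K.H n := QuotientGroup.eq.1 (h2.trans h4.symm)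
      unfold zs
      rw [Finset.sum_mul]
      refine Finset.sum_congr rfl fun k hk => K.zρ k _ ?_
      exact K.H_anti (Nat.lt_succ_iff.1 (Finset.mem_range.1 hk)) h5
    · intro v hv w hw hne hmem
      obtain ⟨h2, _⟩ := mem_filter_xi hv
      obtain ⟨h3, _⟩ := mem_filter_xi hw
      have h6 := K.girth (n + 1) _ hmem (fun h => hne (mul_inv_eq_one.1 h))
      have h7 := FreeGroup.norm_mul_le v w⁻¹
      rw [FreeGroup.norm_inv_eq] at h7
      omega

theorem gt_part (Φ : B →CP B) (hσ : ∀ a, 0 ≤ a → σ (Φ a) ≤ σ a) (n : ℕ) :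
    mom (K.psi Φ n (1 - K.zs (n + 1))) 1 ≤ 0.9 * mom (K.psi Φ n (1 - K.zs (n + 1))) 0 + 0.01 := by
  classical
  have := K.Hf n
  have := K.Hn n
  let _ : Fintype (F2 ⧸ K.H n) := Subgroup.fintypeQuotientOfFiniteIndex
  have hz := isCP_compl (K.isCP_zs (n + 1))
  have hpsd := K.psd Φ n _ hz.1 hz.2.1 hz.2.2
  refine decay _ hpsd (K.r (n + 1)) ((K.H n).index / K.c n) (K.growth n) ?_
  have h1 := part_bound _ hpsd (fun v : F2 => (v : F2 ⧸ K.H n)) (1 / K.c n) (2 ^ K.r (n + 1))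
    (by have := K.c_pos n; positivity) (fun h => ?_)
  · rw [Subgroup.index_eq_card, Nat.card_eq_fintype_card]
    rw [mul_one_div] at h1
    exact h1
  · rw [← filter_support]
    refine K.gt_class Φ hσ n _ hz.1 hz.2.1 hz.2.2 _ ?_ ?_
    · intro v hv w hw
      obtain ⟨_, h2⟩ := mem_filter_xi hv
      obtain ⟨_, h4⟩ := mem_filter_xi hw
      exact QuotientGroup.eq.1 (h2.trans h4.symm)
    · intro v hv w hw hne
      obtain ⟨h2, _⟩ := mem_filter_xi hv
      obtain ⟨h3, _⟩ := mem_filter_xi hw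
      refine K.rest n _ (fun h => hne (inv_mul_eq_one.1 h)) ?_
      have h7 := FreeGroup.norm_mul_le v⁻¹ w
      rw [FreeGroup.norm_inv_eq] at h7
      omega

theorem psi_add (Φ : B →CP B) (N : ℕ) (z z' : B) (g : F2) :
    K.psi Φ N (z + z') g = K.psi Φ N z g + K.psi Φ N z' g := by
  unfold psi
  rw [add_mul, map_add, add_mul, mul_add, map_add, Complex.add_re, add_div]

theorem psi_mid_le (Φ : B →CP B) (T : σ.GNS →L[ℂ] σ.GNS)
    (hT : ∀ a : B, T (σ.toPreGNS a : σ.GNS) = (σ.toPreGNS (Φ a) : σ.GNS)) (n : ℕ) :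
    K.psi Φ n (K.z n) 1 ≤
      ‖T ((((1 / Real.sqrt (K.c n) : ℝ) : ℂ)) • (σ.toPreGNS (K.z n) : σ.GNS))‖ := by
  have hc := K.c_pos n
  have hs : 0 < Real.sqrt (K.c n) := Real.sqrt_pos.2 hc
  have h1 : K.psi Φ n (K.z n) 1 = (σ (star (K.z n) * Φ (K.z n))).re / K.c n := by
    unfold psi
    rw [map_one, mul_one, inv_one, map_one, mul_one, K.z_star]
  have h2 : (σ (star (K.z n) * Φ (K.z n))).re ≤
      ‖(σ.toPreGNS (K.z n) : σ.GNS)‖ * ‖T (σ.toPreGNS (K.z n) : σ.GNS)‖ := by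
    have h3 : σ (star (K.z n) * Φ (K.z n)) =
        inner ℂ (σ.toPreGNS (K.z n) : σ.GNS) (T (σ.toPreGNS (K.z n) : σ.GNS)) := by
      rw [hT, UniformSpace.Completion.inner_coe]
      rfl
    rw [h3]
    exact (Complex.re_le_norm _).trans (norm_inner_le_norm _ _)
  have h4 : ‖(σ.toPreGNS (K.z n) : σ.GNS)‖ = Real.sqrt (K.c n) := by
    rw [UniformSpace.Completion.norm_coe, PositiveLinearMap.preGNS_norm_def]
    simp [K.z_star, K.z_idem, K.σ_z]
  rw [h1, map_smul, norm_smul, div_le_iff₀ hc]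
  rw [h4] at h2
  refine h2.trans (le_of_eq ?_)
  rw [Complex.norm_real, Real.norm_of_nonneg (by positivity)]
  have h5 : Real.sqrt (K.c n) * Real.sqrt (K.c n) = K.c n := Real.mul_self_sqrt hc.le
  set t := ‖T (σ.toPreGNS (K.z n) : σ.GNS)‖
  calc Real.sqrt (K.c n) * t = (1 / Real.sqrt (K.c n)) * t * (Real.sqrt (K.c n) * Real.sqrt (K.c n)) := by
        field_simp
    _ = _ := by rw [h5]

theorem orthonormal_z : Orthonormal ℂ
    (fun n => (((1 / Real.sqrt (K.c n) : ℝ) : ℂ)) • (σ.toPreGNS (K.z n) : σ.GNS)) := by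
  rw [orthonormal_iff_ite]
  intro n k
  rw [inner_smul_left, inner_smul_right, UniformSpace.Completion.inner_coe,
    PositiveLinearMap.preGNS_inner_def]
  simp only [PositiveLinearMap.ofPreGNS_toPreGNS, K.z_star, Complex.conj_ofReal]
  by_cases h : n = k
  · subst h
    rw [if_pos rfl, K.z_idem, K.σ_z]
    have hc := K.c_pos n
    have h5 : Real.sqrt (K.c n) * Real.sqrt (K.c n) = K.c n := Real.mul_self_sqrt hc.le
    have h6 : Real.sqrt (K.c n) ≠ 0 := (Real.sqrt_pos.2 hc).ne'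
    rw [← Complex.ofReal_mul, ← Complex.ofReal_mul, ← Complex.ofReal_one]
    congr 1
    field_simp
    nlinarith [h5]
  · rw [if_neg h, K.z_orth n k h, map_zero, mul_zero, mul_zero]

/-- lower bound for the total -/
theorem psi_one_ge (Φ : B →CP B) (g : F2)
    (hg : Real.sqrt (σ (star (Φ (K.ρ g) - K.ρ g) * (Φ (K.ρ g) - K.ρ g))).re ≤ 0.01) :
    ∀ᶠ n in atTop, 0.98 ≤ K.psi Φ n 1 g := by
  set y : B := Φ (K.ρ g) - K.ρ g with hy
  have h0 : 0 ≤ (σ (star y * y)).re := re_nonneg σ (star_mul_self_nonneg y)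
  have h1 : (σ (star y * y)).re ≤ 0.0001 := by
    have h2 := Real.sq_sqrt h0
    have h3 := Real.sqrt_nonneg (σ (star y * y)).re
    rw [← h2]
    nlinarith
  filter_upwards [K.lim y 0.0002 (by norm_num)] with n hn
  have hc := K.c_pos n
  have h4 : (σ (K.z n * (star y * y))).re ≤ 0.0004 * K.c n := by
    rw [div_le_iff₀ hc] at hn
    nlinarith
  -- Cauchy-Schwarz
  have h5 : ‖σ (star (K.z n * K.ρ g) * (K.z n * y))‖ ≤ 0.02 * K.c n := by
    have e1 : σ (star (K.z n * K.ρ g) * (K.z n * y)) =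
        inner ℂ (σ.toPreGNS (K.z n * K.ρ g)) (σ.toPreGNS (K.z n * y)) := rfl
    rw [e1]
    refine (norm_inner_le_norm _ _).trans ?_
    rw [PositiveLinearMap.preGNS_norm_def, PositiveLinearMap.preGNS_norm_def]
    simp only [PositiveLinearMap.ofPreGNS_toPreGNS]
    have e2 : star (K.z n * K.ρ g) * (K.z n * K.ρ g) = K.z n := by
      rw [star_mul, K.z_star, K.ρ_star, mul_assoc, ← mul_assoc (K.z n) (K.z n), K.z_idem,
        ← mul_assoc, ← K.z_comm, mul_assoc, ← map_mul, inv_mul_cancel, map_one, mul_one]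
    have e3 : star (K.z n * y) * (K.z n * y) = K.z n * (star y * y) := by
      rw [star_mul, K.z_star, mul_assoc, ← mul_assoc (K.z n) (K.z n), K.z_idem,
        ← mul_assoc, ← K.z_comm, mul_assoc]
    rw [e2, e3, K.σ_z, Complex.ofReal_re]
    have h6 : Real.sqrt (σ (K.z n * (star y * y))).re ≤ 0.02 * Real.sqrt (K.c n) := by
      refine (Real.sqrt_le_sqrt h4).trans (le_of_eq ?_)
      rw [show (0.0004 : ℝ) = 0.02 ^ 2 by norm_num, Real.sqrt_mul (by norm_num),
        Real.sqrt_sq (by norm_num)]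
    have h7 := Real.mul_self_sqrt hc.le
    have h8 := Real.sqrt_nonneg (K.c n)
    nlinarith
  have h9 : K.psi Φ n 1 g = 1 + (σ (star (K.z n * K.ρ g) * (K.z n * y))).re / K.c n := by
    unfold psi
    have e4 : Φ (1 * K.ρ g) = K.ρ g + y := by rw [one_mul, hy]; abel
    have e5 : σ (K.z n * ((K.ρ g + y) * K.ρ g⁻¹))
        = σ (K.z n) + σ (star (K.z n * K.ρ g) * (K.z n * y)) := by
      rw [add_mul, ← map_mul, mul_inv_cancel, map_one, mul_add, mul_one, map_add]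
      congr 1
      have r1 : star (K.z n * K.ρ g) * (K.z n * y) = K.ρ g⁻¹ * (K.z n * y) := by
        rw [star_mul, K.z_star, K.ρ_star, mul_assoc, ← mul_assoc (K.z n) (K.z n), K.z_idem]
      rw [r1, ← mul_assoc, K.tr]
    rw [e4, e5, Complex.add_re, K.σ_z, Complex.ofReal_re, add_div, div_self hc.ne']
  rw [h9]
  have h10 := (Complex.abs_re_le_norm _).trans h5
  have h11 := (abs_le.1 h10).1
  have h12 : -0.02 ≤ (σ (star (K.z n * K.ρ g) * (K.z n * y))).re / K.c n := by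
    rw [le_div_iff₀ hc]
    linarith
  linarith

theorem psi_one_one_le (Φ : B →CP B) (hΦ : ∀ a, ‖Φ a‖ ≤ ‖a‖) (n : ℕ) : K.psi Φ n 1 1 ≤ 1 := by
  have hc := K.c_pos n
  unfold psi
  rw [inv_one, map_one K.ρ, mul_one, mul_one, div_le_iff₀ hc, one_mul]
  have h1 : IsCP (1 : B) := ⟨star_one _, mul_one _, fun b => by rw [one_mul, mul_one]⟩
  have h2 : K.z n * Φ 1 ≤ K.z n * 1 := by
    rw [← sub_nonneg, ← mul_sub]
    exact K.zN_nonneg n (sub_nonneg.2 (phi_le_one hΦ h1))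
  have h3 := re_mono σ h2
  rw [mul_one, K.σ_z, Complex.ofReal_re] at h3
  exact h3

include K in
theorem not_haagerup : ¬ HaagerupProperty σ := by
  rintro ⟨ι, _, _, _, Φ, h1, h2, h3, h4⟩
  have h5 : ∀ᶠ i in (atTop : Filter ι), ∀ x : Fin 2 × Bool,
      Real.sqrt (σ (star (Φ i (K.ρ (gen x)) - K.ρ (gen x)) * (Φ i (K.ρ (gen x)) - K.ρ (gen x)))).re
        ≤ 0.01 := by
    rw [Filter.eventually_all]
    intro x
    have := (h4 (K.ρ (gen x))).eventually (gt_mem_nhds (show (0:ℝ) < 0.01 by norm_num))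
    filter_upwards [this] with i hi using hi.le
  obtain ⟨i, hi⟩ := h5.exists
  obtain ⟨T, hT, hT2⟩ := h3 i
  have h6 : ∀ᶠ n in atTop, ∀ x : Fin 2 × Bool, 0.98 ≤ K.psi (Φ i) n 1 (gen x) := by
    rw [Filter.eventually_all]
    intro x
    exact K.psi_one_ge (Φ i) (gen x) (hi x)
  have h7 := compact_orthonormal T hT _ K.orthonormal_z 0.5 (by norm_num)
  obtain ⟨n, hn1, hn2, hn3⟩ := (h7.and_eventually (h6.and (eventually_ge_atTop 1))).exists
  obtain ⟨n, rfl⟩ : ∃ k, n = k + 1 := ⟨n - 1, by omega⟩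
  have hmid := (K.psi_mid_le (Φ i) T hT2 (n + 1)).trans hn1.le
  have ha := K.lt_part (Φ i) (h1 i) n
  have hb := K.gt_part (Φ i) (h2 i) (n + 1)
  have hzz := K.isCP_z (n + 1)
  have hcc := mom_one_le _ (K.psd (Φ i) (n + 1) _ hzz.1 hzz.2.1 hzz.2.2)
  rw [mom_one, mom_zero] at ha hb hcc
  have hsum : ∀ g, K.psi (Φ i) (n + 1) 1 g = K.psi (Φ i) (n + 1) (K.zs (n + 1)) g
      + K.psi (Φ i) (n + 1) (K.z (n + 1)) g + K.psi (Φ i) (n + 1) (1 - K.zs (n + 1 + 1)) g := by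
    intro g
    rw [← psi_add, ← psi_add]
    congr 1
    have : K.zs (n + 1 + 1) = K.zs (n + 1) + K.z (n + 1) := Finset.sum_range_succ _ _
    rw [this]; abel
  have h8 : (4 : ℝ) * 0.98 ≤ ∑ x : Fin 2 × Bool, K.psi (Φ i) (n + 1) 1 (gen x) := by
    have := Finset.sum_le_sum fun (x : Fin 2 × Bool) (_ : x ∈ Finset.univ) => hn2 x
    simp only [Finset.sum_const, Finset.card_univ, Fintype.card_prod, Fintype.card_fin,
      Fintype.card_bool, nsmul_eq_mul] at this
    push_cast at this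
    linarith
  simp only [hsum, Finset.sum_add_distrib] at h8
  have h9 := K.psi_one_one_le (Φ i) (h1 i) (n + 1)
  rw [hsum] at h9
  linarith

end Cfg

end Pool.Agent.W665.HAP
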