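import Mathlib
import Pool.Agent.H71R3.Free

set_option autoImplicit false
set_option linter.unusedSectionVars false

namespace Pool.Agent.W665.HAP

open Finsupp hiding some
open Pool.Agent.H71R3.Tree

section

variable {β : Type} [DecidableEq β]

/-- the standard form on finitely supported functions -/
noncomputable def ipf (Y : Type) [DecidableEq Y] : (Y →₀ ℝ) →ₗ[ℝ] (Y →₀ ℝ) →ₗ[ℝ] ℝ :=
  linearCombination ℝ (fun v => linearCombination ℝ (fun w => if v = w then (1 : ℝ) else 0))

theorem ipf_single {Y : Type} [DecidableEq Y] (v w : Y) (a b : ℝ) :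
    ipf Y (single v a) (single w b) = if v = w then a * b else 0 := by
  simp [ipf]

theorem ipf_eq {Y : Type} [DecidableEq Y] (p q : Y →₀ ℝ) :
    ipf Y p q = ∑ w ∈ q.support, p w * q w := by
  unfold ipf
  rw [linearCombination_apply, Finsupp.sum, LinearMap.sum_apply]
  have h : ∀ v ∈ p.support, (p v • linearCombination ℝ (fun w => if v = w then (1 : ℝ) else 0)) q
      = p v * q v := by
    intro v _
    rw [LinearMap.smul_apply, linearCombination_apply, Finsupp.sum, smul_eq_mul]
    congr 1
    by_cases hv : v ∈ q.support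
    · rw [Finset.sum_eq_single v]
      · simp
      · intro w _ hw
        rw [if_neg (fun h => hw h.symm), smul_zero]
      · intro h; exact absurd hv h
    · rw [notMem_support_iff.1 hv]
      refine Finset.sum_eq_zero fun w hw => ?_
      rw [if_neg (fun h : v = w => hv (by rw [h]; exact hw)), smul_zero]
  rw [Finset.sum_congr rfl h]
  rw [Finset.sum_subset (Finset.subset_union_left (s₂ := q.support)),
    Finset.sum_subset (Finset.subset_union_right (s₁ := p.support) (s₂ := q.support))]
  · intro w _ hw
    rw [notMem_support_iff.1 hw, mul_zero]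
  · intro w _ hw
    rw [notMem_support_iff.1 hw, zero_mul]

/-- the root vector -/
noncomputable def f0 (κ : ℝ) : Option (List β) →₀ ℝ :=
  single (some []) (Real.sqrt (1 - κ ^ 2)) + single none κ

/-- the isometry attached to a letter -/
noncomputable def Va (κ : ℝ) (a : β) : (Option (List β) →₀ ℝ) →ₗ[ℝ] (Option (List β) →₀ ℝ) :=
  linearCombination ℝ (fun y => match y with
    | none => f0 κ
    | some w => single (some (a :: w)) 1)

theorem Va_none (κ : ℝ) (a : β) (t : ℝ) : Va κ a (single none t) = t • f0 κ := by
  simp [Va]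

theorem Va_some (κ : ℝ) (a : β) (w : List β) (t : ℝ) :
    Va κ a (single (some w) t) = single (some (a :: w)) t := by
  simp [Va]

theorem ipf_f0 (κ : ℝ) (hκ : κ ^ 2 ≤ 1) :
    ipf (Option (List β)) (f0 κ) (f0 κ) = 1 := by
  unfold f0
  simp only [map_add, LinearMap.add_apply, ipf_single]
  simp only [if_true, reduceCtorEq, if_false]
  rw [Real.mul_self_sqrt (by linarith)]
  ring

theorem ipf_f0_cons (κ : ℝ) (b : β) (w : List β) (t : ℝ) :
    ipf (Option (List β)) (f0 κ) (single (some (b :: w)) t) = 0 := by
  unfold f0
  simp [ipf_single]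

theorem ipf_cons_f0 (κ : ℝ) (b : β) (w : List β) (t : ℝ) :
    ipf (Option (List β)) (single (some (b :: w)) t) (f0 κ) = 0 := by
  unfold f0
  simp [ipf_single]

theorem ipf_Va_same (κ : ℝ) (hκ : κ ^ 2 ≤ 1) (a : β) (p q : Option (List β) →₀ ℝ) :
    ipf _ (Va κ a p) (Va κ a q) = ipf _ p q := by
  have h : ((ipf (Option (List β))).comp (Va κ a)).compl₂ (Va κ a) = ipf (Option (List β)) := by
    refine Finsupp.lhom_ext fun v s => Finsupp.lhom_ext fun w t => ?_
    rw [LinearMap.compl₂_apply, LinearMap.comp_apply]
    cases v with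
    | none =>
      cases w with
      | none =>
        rw [Va_none, Va_none, map_smul, map_smul, LinearMap.smul_apply, ipf_f0 κ hκ, ipf_single]
        simp
        ring
      | some w =>
        rw [Va_none, Va_some, map_smul, LinearMap.smul_apply, ipf_f0_cons, ipf_single]
        simp
    | some v =>
      cases w with
      | none =>
        rw [Va_none, Va_some, map_smul, ipf_cons_f0, ipf_single]
        simp
      | some w =>
        rw [Va_some, Va_some, ipf_single, ipf_single]
        simp
  have := LinearMap.congr_fun (LinearMap.congr_fun h p) q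
  simpa using this

theorem ipf_Va_ne (κ : ℝ) (hκ : κ ^ 2 ≤ 1) (a b : β) (hab : a ≠ b) (p q : Option (List β) →₀ ℝ) :
    ipf _ (Va κ a p) (Va κ b q) = p none * q none := by
  have h : ((ipf (Option (List β))).comp (Va κ a)).compl₂ (Va κ b) =
      (LinearMap.mul ℝ ℝ).compl₁₂ (Finsupp.lapply none) (Finsupp.lapply none) := by
    refine Finsupp.lhom_ext fun v s => Finsupp.lhom_ext fun w t => ?_
    rw [LinearMap.compl₂_apply, LinearMap.comp_apply, LinearMap.compl₁₂_apply, lapply_apply,
      lapply_apply]
    cases v with
    | none =>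
      cases w with
      | none =>
        rw [Va_none, Va_none, map_smul, map_smul, LinearMap.smul_apply, ipf_f0 κ hκ]
        simp
        ring
      | some w =>
        rw [Va_none, Va_some, map_smul, LinearMap.smul_apply, ipf_f0_cons]
        simp
    | some v =>
      cases w with
      | none =>
        rw [Va_none, Va_some, map_smul, ipf_cons_f0]
        simp
      | some w =>
        rw [Va_some, Va_some, ipf_single]
        simp [hab]
  have := LinearMap.congr_fun (LinearMap.congr_fun h p) q
  simpa using this

theorem ipf_f0_Va (κ : ℝ) (hκ : κ ^ 2 ≤ 1) (b : β) (q : Option (List β) →₀ ℝ) :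
    ipf _ (f0 κ) (Va κ b q) = q none := by
  have h : (ipf (Option (List β)) (f0 κ)).comp (Va κ b) = Finsupp.lapply none := by
    refine Finsupp.lhom_ext fun w t => ?_
    rw [LinearMap.comp_apply, lapply_apply]
    cases w with
    | none =>
      rw [Va_none, map_smul, ipf_f0 κ hκ]; simp
    | some w =>
      rw [Va_some, ipf_f0_cons]; simp
  have := LinearMap.congr_fun h q
  simpa using this

theorem ipf_Va_f0 (κ : ℝ) (hκ : κ ^ 2 ≤ 1) (b : β) (q : Option (List β) →₀ ℝ) :
    ipf _ (Va κ b q) (f0 κ) = q none := by
  have h : ((ipf (Option (List β))).flip (f0 κ)).comp (Va κ b) = Finsupp.lapply none := by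
    refine Finsupp.lhom_ext fun w t => ?_
    rw [LinearMap.comp_apply, lapply_apply, LinearMap.flip_apply]
    cases w with
    | none =>
      rw [Va_none, map_smul, LinearMap.smul_apply, ipf_f0 κ hκ]; simp
    | some w =>
      rw [Va_some, ipf_cons_f0]; simp
  have := LinearMap.congr_fun h q
  simpa using this

theorem Va_apply_none (κ : ℝ) (a : β) (p : Option (List β) →₀ ℝ) :
    (Va κ a p) none = κ * p none := by
  have h : (Finsupp.lapply none).comp (Va κ a) = κ • (Finsupp.lapply none) := by
    refine Finsupp.lhom_ext fun v s => ?_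
    rw [LinearMap.comp_apply, LinearMap.smul_apply, lapply_apply, lapply_apply]
    cases v with
    | none => rw [Va_none]; simp [f0]; ring
    | some v => rw [Va_some]; simp
  have := LinearMap.congr_fun h p
  simpa using this

/-- the vectors of the Haagerup kernel -/
noncomputable def xiv (κ : ℝ) : List β → (Option (List β) →₀ ℝ)
  | [] => f0 κ
  | a :: u => Va κ a (xiv κ u)

theorem xiv_none (κ : ℝ) (u : List β) : (xiv κ u) none = κ ^ (u.length + 1) := by
  induction u with
  | nil => simp [xiv, f0]
  | cons a u ih =>
    rw [xiv, Va_apply_none, ih, List.length_cons]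
    ring

theorem ipf_xiv (κ : ℝ) (hκ : κ ^ 2 ≤ 1) (u : List β) : ∀ v : List β,
    ipf _ (xiv κ u) (xiv κ v) = κ ^ (Pool.Agent.H71R3.Tree.dl u v) := by
  induction u with
  | nil =>
    intro v
    cases v with
    | nil => rw [dl_nil_left]; simpa [xiv] using ipf_f0 κ hκ
    | cons b v =>
      rw [dl_nil_left, xiv, xiv, ipf_f0_Va κ hκ, xiv_none, List.length_cons]
  | cons a u ih =>
    intro v
    cases v with
    | nil => rw [dl_nil_right, xiv, xiv, ipf_Va_f0 κ hκ, xiv_none, List.length_cons]
    | cons b v =>
      by_cases h : a = b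
      · subst h
        rw [dl_cons_same, xiv, xiv, ipf_Va_same κ hκ, ih]
      · rw [dl_cons_ne _ _ _ _ h, xiv, xiv, ipf_Va_ne κ hκ a b h, xiv_none, xiv_none]
        ring

end

end Pool.Agent.W665.HAP
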