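import Mathlib

set_option autoImplicit false
set_option linter.unusedSectionVars false

open scoped InnerProductSpace ComplexOrder ComplexConjugate

namespace Pool.Agent.W665.HAP

/-- square summable functions on `X` -/
abbrev HS (X : Type) : Type := lp (fun _ : X => ℂ) 2

section basic

variable {X : Type}

theorem two_pos' : (0 : ℝ) < (2 : ENNReal).toReal := by norm_num

theorem summ (f : HS X) : Summable fun x => ‖f x‖ ^ 2 := by
  have h := (lp.memℓp f).summable two_pos'
  simpa using h

theorem norm_sq_HS (f : HS X) : ‖f‖ ^ 2 = ∑' x, ‖f x‖ ^ 2 := by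
  have h := lp.norm_rpow_eq_tsum two_pos' f
  simpa using h

/-- the operator `f ↦ f ∘ e` -/
noncomputable def permOp (e : X ≃ X) : HS X →L[ℂ] HS X :=
  LinearIsometry.toContinuousLinearMap
    { toFun := fun f => ⟨fun h => f (e h), by
        have h1 := (lp.memℓp f).summable (by norm_num)
        refine memℓp_gen ?_
        exact (e.summable_iff (f := fun h => ‖f h‖ ^ (2 : ENNReal).toReal)).2 h1⟩
      map_add' := fun f g => by ext h; rfl
      map_smul' := fun c f => by ext h; rfl
      norm_map' := fun f => by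
        have h1 : (0 : ℝ) < (2 : ENNReal).toReal := by norm_num
        rw [lp.norm_eq_tsum_rpow h1, lp.norm_eq_tsum_rpow h1]
        congr 1
        exact e.tsum_eq (fun h => ‖f h‖ ^ (2 : ENNReal).toReal) }

theorem permOp_apply (e : X ≃ X) (f : HS X) (x : X) : (permOp e f) x = f (e x) := rfl

theorem permOp_mul (e e' : X ≃ X) : permOp e * permOp e' = permOp (e.trans e') := by
  ext f h
  rfl

theorem permOp_refl : permOp (Equiv.refl X) = 1 := by
  ext f h
  rfl

theorem star_permOp (e : X ≃ X) : star (permOp e) = permOp e.symm := by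
  rw [ContinuousLinearMap.star_eq_adjoint]
  symm
  rw [ContinuousLinearMap.eq_adjoint_iff]
  intro x y
  have h1 := lp.hasSum_inner (𝕜 := ℂ) (permOp e.symm x) y
  have h2 := lp.hasSum_inner (𝕜 := ℂ) x (permOp e y)
  have h3 := (e.symm.hasSum_iff (f := fun i => ⟪x i, (permOp e y) i⟫_ℂ)
    (a := ⟪x, permOp e y⟫_ℂ)).2 h2
  refine h1.unique ?_
  refine h3.congr_fun ?_
  intro i
  show ⟪(permOp e.symm x) i, y i⟫_ℂ = ⟪x (e.symm i), (permOp e y) (e.symm i)⟫_ℂ
  rw [permOp_apply, permOp_apply, e.apply_symm_apply]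

/-- multiplication by a function bounded by one -/
noncomputable def diagOp (d : X → ℂ) (hd : ∀ x, ‖d x‖ ≤ 1) : HS X →L[ℂ] HS X :=
  LinearMap.mkContinuous
    { toFun := fun f => ⟨fun x => d x * f x, by
        refine memℓp_gen ?_
        refine Summable.of_nonneg_of_le (fun x => by positivity) (fun x => ?_)
          ((lp.memℓp f).summable two_pos')
        refine Real.rpow_le_rpow (norm_nonneg _) ?_ (by norm_num)
        rw [norm_mul]
        exact mul_le_of_le_one_left (norm_nonneg _) (hd x)⟩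
      map_add' := fun f g => by ext x; exact mul_add _ _ _
      map_smul' := fun c f => by ext x; exact mul_left_comm _ _ _ } 1 (fun f => by
        rw [one_mul, ← sq_le_sq₀ (norm_nonneg _) (norm_nonneg _), norm_sq_HS, norm_sq_HS]
        refine Summable.tsum_le_tsum (fun x => ?_) (summ _) (summ f)
        refine pow_le_pow_left₀ (norm_nonneg _) ?_ 2
        show ‖d x * f x‖ ≤ ‖f x‖
        rw [norm_mul]
        exact mul_le_of_le_one_left (norm_nonneg _) (hd x))

theorem diagOp_apply (d : X → ℂ) (hd : ∀ x, ‖d x‖ ≤ 1) (f : HS X) (x : X) :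
    (diagOp d hd f) x = d x * f x := rfl

theorem norm_diagOp_le (d : X → ℂ) (hd : ∀ x, ‖d x‖ ≤ 1) : ‖diagOp d hd‖ ≤ 1 :=
  LinearMap.mkContinuous_norm_le _ zero_le_one _

theorem star_diagOp (d : X → ℂ) (hd : ∀ x, ‖d x‖ ≤ 1) (hr : ∀ x, conj (d x) = d x) :
    star (diagOp d hd) = diagOp d hd := by
  rw [ContinuousLinearMap.star_eq_adjoint]
  symm
  rw [ContinuousLinearMap.eq_adjoint_iff]
  intro f g
  have h1 := lp.hasSum_inner (𝕜 := ℂ) (diagOp d hd f) g
  have h2 := lp.hasSum_inner (𝕜 := ℂ) f (diagOp d hd g)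
  refine h1.unique (h2.congr_fun ?_)
  intro x
  rw [diagOp_apply, diagOp_apply]
  simp only [RCLike.inner_apply, map_mul, hr]
  ring

variable [DecidableEq X]

/-- the standard basis -/
noncomputable def dl (x : X) : HS X := lp.single 2 x (1 : ℂ)

theorem dl_apply (x y : X) : (dl x : HS X) y = if y = x then 1 else 0 := by
  unfold dl
  rw [lp.single_apply]
  by_cases h : y = x
  · subst h; simp
  · simp [h]

theorem inner_dl (x : X) (f : HS X) : ⟪dl x, f⟫_ℂ = f x := by
  unfold dl
  rw [lp.inner_single_left]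
  simp

theorem norm_dl (x : X) : ‖(dl x : HS X)‖ = 1 := by
  unfold dl
  rw [lp.norm_single (by norm_num)]
  simp

theorem ext_dl {V : Type} [NormedAddCommGroup V] [NormedSpace ℂ V] {S T : HS X →L[ℂ] V}
    (h : ∀ x, S (dl x) = T (dl x)) : S = T := by
  ext f
  have h1 := lp.hasSum_single (p := 2) (by norm_num) f
  have h2 := h1.mapL S
  have h3 := h1.mapL T
  refine h2.unique (h3.congr_fun ?_)
  intro x
  have e : lp.single 2 x (f x) = (f x) • (dl x : HS X) := by
    unfold dl
    rw [← lp.single_smul]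
    simp
  rw [e, map_smul, map_smul, h]

/-- matrix coefficients -/
noncomputable def cf (T : HS X →L[ℂ] HS X) (x y : X) : ℂ := T (dl y) x

theorem ext_cf {S T : HS X →L[ℂ] HS X} (h : ∀ x y, cf S x y = cf T x y) : S = T := by
  refine ext_dl fun y => ?_
  ext x
  exact h x y

theorem cf_eq (T : HS X →L[ℂ] HS X) (x y : X) : cf T x y = ⟪dl x, T (dl y)⟫_ℂ :=
  (inner_dl x _).symm

theorem cf_star (T : HS X →L[ℂ] HS X) (x y : X) : cf (star T) x y = conj (cf T y x) := by
  rw [cf_eq, cf_eq, ContinuousLinearMap.star_eq_adjoint, ContinuousLinearMap.adjoint_inner_right,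
    inner_conj_symm]

theorem permOp_dl (e : X ≃ X) (y : X) : permOp e (dl y) = dl (e.symm y) := by
  ext x
  rw [permOp_apply, dl_apply, dl_apply]
  by_cases h : e x = y
  · rw [if_pos h, if_pos (by rw [← h, e.symm_apply_apply])]
  · rw [if_neg h, if_neg (fun h' => h (by rw [h', e.apply_symm_apply]))]

theorem diagOp_dl (d : X → ℂ) (hd : ∀ x, ‖d x‖ ≤ 1) (y : X) :
    diagOp d hd (dl y) = d y • (dl y : HS X) := by
  ext x
  rw [diagOp_apply, dl_apply]
  show _ = d y * (dl y : HS X) x
  rw [dl_apply]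
  by_cases h : x = y
  · subst h; rfl
  · simp [h]

end basic

end Pool.Agent.W665.HAP
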