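import Mathlib
import Pool.Agent.W665.HAP.Ops

set_option autoImplicit false
set_option linter.unusedSectionVars false

open scoped InnerProductSpace ComplexOrder ComplexConjugate

namespace Pool.Agent.W665.HAP

section amp

variable {Y : Type} {V : Type} [NormedAddCommGroup V] [InnerProductSpace ℂ V] [CompleteSpace V]

/-- `ℓ²(Y; V)` -/
abbrev HV (Y V : Type) [NormedAddCommGroup V] [InnerProductSpace ℂ V] : Type := lp (fun _ : Y => V) 2

theorem norm_sq_HV (f : HV Y V) : ‖f‖ ^ 2 = ∑' x, ‖f x‖ ^ 2 := by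
  have h := lp.norm_rpow_eq_tsum two_pos' f
  simpa using h

theorem summV (f : HV Y V) : Summable fun x => ‖f x‖ ^ 2 := by
  have h := (lp.memℓp f).summable two_pos'
  simpa using h

theorem memV (f : Y → V) (h : Summable fun x => ‖f x‖ ^ 2) : Memℓp f 2 := by
  refine memℓp_gen ?_
  simpa using h

/-- the amplification `1 ⊗ T` -/
noncomputable def amp (T : V →L[ℂ] V) : HV Y V →L[ℂ] HV Y V :=
  LinearMap.mkContinuous
    { toFun := fun f => ⟨fun k => T (f k), by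
        refine memV _ (Summable.of_nonneg_of_le (fun x => by positivity) (fun x => ?_)
          ((summV f).mul_left (‖T‖ ^ 2)))
        rw [← mul_pow]
        exact pow_le_pow_left₀ (norm_nonneg _) (T.le_opNorm _) 2⟩
      map_add' := fun f g => by ext x; exact map_add T _ _
      map_smul' := fun c f => by ext x; exact map_smul T _ _ } ‖T‖ (fun f => by
        rw [← sq_le_sq₀ (norm_nonneg _) (by positivity), mul_pow, norm_sq_HV, norm_sq_HV,
          ← tsum_mul_left]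
        refine Summable.tsum_le_tsum (fun x => ?_) (summV _) ((summV f).mul_left _)
        rw [← mul_pow]
        exact pow_le_pow_left₀ (norm_nonneg _) (T.le_opNorm _) 2)

theorem amp_apply (T : V →L[ℂ] V) (f : HV Y V) (k : Y) : (amp T f) k = T (f k) := rfl

theorem norm_amp_le (T : V →L[ℂ] V) : ‖(amp T : HV Y V →L[ℂ] HV Y V)‖ ≤ ‖T‖ :=
  LinearMap.mkContinuous_norm_le _ (norm_nonneg _) _

theorem amp_add (S T : V →L[ℂ] V) : (amp (S + T) : HV Y V →L[ℂ] HV Y V) = amp S + amp T := by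
  ext f k; rfl

theorem amp_smul (c : ℂ) (T : V →L[ℂ] V) : (amp (c • T) : HV Y V →L[ℂ] HV Y V) = c • amp T := by
  ext f k; rfl

theorem amp_mul (S T : V →L[ℂ] V) : (amp (S * T) : HV Y V →L[ℂ] HV Y V) = amp S * amp T := by
  ext f k; rfl

theorem amp_star (T : V →L[ℂ] V) :
    (amp (star T) : HV Y V →L[ℂ] HV Y V) = star (amp T) := by
  rw [ContinuousLinearMap.star_eq_adjoint, ContinuousLinearMap.star_eq_adjoint,
    ContinuousLinearMap.eq_adjoint_iff]
  intro f g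
  have h1 := lp.hasSum_inner (𝕜 := ℂ) (amp (ContinuousLinearMap.adjoint T) f) g
  have h2 := lp.hasSum_inner (𝕜 := ℂ) f (amp T g)
  refine h1.unique (h2.congr_fun ?_)
  intro x
  rw [amp_apply, amp_apply, ContinuousLinearMap.adjoint_inner_left]

theorem amp_single [DecidableEq Y] (T : V →L[ℂ] V) (k : Y) (v : V) :
    amp T (lp.single 2 k v : HV Y V) = lp.single 2 k (T v) := by
  ext j
  rw [amp_apply, lp.single_apply, lp.single_apply]
  by_cases h : j = k
  · subst h; simp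
  · simp [h]

end amp

section schur

variable {X Y : Type} [DecidableEq X] [DecidableEq Y]

/-- the vector `∑ ξ_x(k) δ_x ⊗ e_k` -/
noncomputable def vv (ξ : X → (Y →₀ ℂ)) (x : X) : HV Y (HS X) :=
  ∑ k ∈ (ξ x).support, lp.single 2 k (ξ x k • (dl x : HS X))

/-- the kernel `⟨ξ_x, ξ_y⟩` -/
noncomputable def ker (ξ : X → (Y →₀ ℂ)) (x y : X) : ℂ :=
  ∑ k ∈ (ξ y).support, conj (ξ x k) * ξ y k

theorem vv_apply (ξ : X → (Y →₀ ℂ)) (x : X) (k : Y) : (vv ξ x) k = ξ x k • (dl x : HS X) := by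
  unfold vv
  rw [lp.coeFn_sum, Finset.sum_apply, Finset.sum_eq_single k]
  · rw [lp.single_apply_self]
  · intro j _ hj
    rw [lp.single_apply_ne _ _ _ (fun h => hj h.symm)]
  · intro h
    rw [Finsupp.notMem_support_iff.1 h, zero_smul, lp.single_apply_self]

theorem inner_amp_vv (ξ : X → (Y →₀ ℂ)) (T : HS X →L[ℂ] HS X) (x y : X) :
    ⟪vv ξ x, amp T (vv ξ y)⟫_ℂ = ker ξ x y * cf T x y := by
  conv_lhs => rw [vv.eq_def ξ y]
  rw [map_sum, inner_sum, ker, Finset.sum_mul]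
  refine Finset.sum_congr rfl fun k _ => ?_
  rw [amp_single, lp.inner_single_right, vv_apply, map_smul, inner_smul_left, inner_smul_right,
    cf_eq]
  ring

theorem inner_vv (ξ : X → (Y →₀ ℂ)) (x y : X) :
    ⟪vv ξ x, vv ξ y⟫_ℂ = if x = y then ker ξ x y else 0 := by
  have h := inner_amp_vv ξ 1 x y
  have h1 : amp (1 : HS X →L[ℂ] HS X) (vv ξ y) = vv ξ y := by
    ext k; rfl
  rw [h1] at h
  rw [h, cf]
  show ker ξ x y * (dl y : HS X) x = _
  rw [dl_apply]
  by_cases hxy : x = y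
  · rw [if_pos hxy, if_pos hxy, mul_one]
  · rw [if_neg hxy, if_neg hxy, mul_zero]

theorem vv_orthonormal (ξ : X → (Y →₀ ℂ)) (h : ∀ x, ker ξ x x = 1) : Orthonormal ℂ (vv ξ) := by
  rw [orthonormal_iff_ite]
  intro x y
  rw [inner_vv]
  by_cases hxy : x = y
  · subst hxy; rw [if_pos rfl, if_pos rfl, h]
  · rw [if_neg hxy, if_neg hxy]

/-- the isometry `δ_x ↦ δ_x ⊗ ξ_x` -/
noncomputable def isoV (ξ : X → (Y →₀ ℂ)) (h : ∀ x, ker ξ x x = 1) : HS X →L[ℂ] HV Y (HS X) :=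
  ((vv_orthonormal ξ h).orthogonalFamily.linearIsometry).toContinuousLinearMap

theorem isoV_dl (ξ : X → (Y →₀ ℂ)) (h : ∀ x, ker ξ x x = 1) (x : X) :
    isoV ξ h (dl x) = vv ξ x := by
  have h1 := (vv_orthonormal ξ h).orthogonalFamily.linearIsometry_apply_single (i := x) (1 : ℂ)
  rw [LinearIsometry.toSpanSingleton_apply, one_smul] at h1
  exact h1

theorem norm_isoV_le (ξ : X → (Y →₀ ℂ)) (h : ∀ x, ker ξ x x = 1) : ‖isoV ξ h‖ ≤ 1 :=
  LinearIsometry.norm_toContinuousLinearMap_le _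

/-- the cut-off map -/
noncomputable def WW (ξ : X → (Y →₀ ℂ)) (h : ∀ x, ker ξ x x = 1) (d : X → ℂ)
    (hd : ∀ x, ‖d x‖ ≤ 1) : HS X →L[ℂ] HV Y (HS X) := isoV ξ h ∘L diagOp d hd

/-- the Schur multiplier -/
noncomputable def Sch (ξ : X → (Y →₀ ℂ)) (h : ∀ x, ker ξ x x = 1) (d : X → ℂ)
    (hd : ∀ x, ‖d x‖ ≤ 1) (T : HS X →L[ℂ] HS X) : HS X →L[ℂ] HS X :=
  ContinuousLinearMap.adjoint (WW ξ h d hd) ∘L amp T ∘L WW ξ h d hd

variable (ξ : X → (Y →₀ ℂ)) (h : ∀ x, ker ξ x x = 1) (d : X → ℂ) (hd : ∀ x, ‖d x‖ ≤ 1)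

theorem norm_WW_le : ‖WW ξ h d hd‖ ≤ 1 := by
  refine (ContinuousLinearMap.opNorm_comp_le _ _).trans ?_
  have h1 := norm_isoV_le ξ h
  have h2 := norm_diagOp_le d hd
  calc _ ≤ (1 : ℝ) * 1 := mul_le_mul h1 h2 (norm_nonneg _) zero_le_one
    _ = 1 := one_mul 1

theorem norm_Sch_le (T : HS X →L[ℂ] HS X) : ‖Sch ξ h d hd T‖ ≤ ‖T‖ := by
  have h1 := norm_WW_le ξ h d hd
  have h2 : ‖ContinuousLinearMap.adjoint (WW ξ h d hd)‖ ≤ 1 := by
    rw [LinearIsometryEquiv.norm_map]; exact h1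
  have h3 := norm_amp_le (Y := Y) T
  calc ‖Sch ξ h d hd T‖ ≤ ‖ContinuousLinearMap.adjoint (WW ξ h d hd)‖ *
        ‖(amp T : HV Y (HS X) →L[ℂ] HV Y (HS X)) ∘L WW ξ h d hd‖ :=
        ContinuousLinearMap.opNorm_comp_le _ _
    _ ≤ 1 * (‖T‖ * 1) := by
        refine mul_le_mul h2 ?_ (norm_nonneg _) zero_le_one
        refine (ContinuousLinearMap.opNorm_comp_le _ _).trans ?_
        exact mul_le_mul h3 h1 (norm_nonneg _) (norm_nonneg _)
    _ = ‖T‖ := by ring

theorem Sch_add (S T : HS X →L[ℂ] HS X) :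
    Sch ξ h d hd (S + T) = Sch ξ h d hd S + Sch ξ h d hd T := by
  unfold Sch
  rw [amp_add]
  ext f x
  simp

theorem Sch_smul (c : ℂ) (T : HS X →L[ℂ] HS X) : Sch ξ h d hd (c • T) = c • Sch ξ h d hd T := by
  unfold Sch
  rw [amp_smul]
  ext f x
  simp

theorem Sch_star (T : HS X →L[ℂ] HS X) : Sch ξ h d hd (star T) = star (Sch ξ h d hd T) := by
  unfold Sch
  rw [amp_star, ContinuousLinearMap.star_eq_adjoint, ContinuousLinearMap.star_eq_adjoint,
    ContinuousLinearMap.adjoint_comp, ContinuousLinearMap.adjoint_comp,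
    ContinuousLinearMap.adjoint_adjoint]
  rfl

theorem WW_dl (y : X) : WW ξ h d hd (dl y) = d y • vv ξ y := by
  unfold WW
  rw [ContinuousLinearMap.comp_apply, diagOp_dl, map_smul, isoV_dl]

theorem cf_Sch (T : HS X →L[ℂ] HS X) (x y : X) :
    cf (Sch ξ h d hd T) x y = conj (d x) * d y * ker ξ x y * cf T x y := by
  rw [cf_eq]
  unfold Sch
  rw [ContinuousLinearMap.comp_apply, ContinuousLinearMap.adjoint_inner_right,
    ContinuousLinearMap.comp_apply, WW_dl, WW_dl, map_smul, inner_smul_left, inner_smul_right,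
    inner_amp_vv]
  ring

/-- the form of the Schur multiplier on `S* T` -/
theorem inner_Sch (S T : HS X →L[ℂ] HS X) (u v : HS X) :
    ⟪u, Sch ξ h d hd (star S * T) v⟫_ℂ =
      ⟪amp S (WW ξ h d hd u), amp T (WW ξ h d hd v)⟫_ℂ := by
  unfold Sch
  rw [ContinuousLinearMap.comp_apply, ContinuousLinearMap.adjoint_inner_right,
    ContinuousLinearMap.comp_apply, amp_mul, amp_star, ContinuousLinearMap.star_eq_adjoint]
  show ⟪WW ξ h d hd u, (ContinuousLinearMap.adjoint (amp S)) (amp T (WW ξ h d hd v))⟫_ℂ = _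
  rw [ContinuousLinearMap.adjoint_inner_right]

end schur

end Pool.Agent.W665.HAP
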