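import Mathlib
import Pool.Agent.W665.HAP.Ops

set_option autoImplicit false
set_option linter.unusedSectionVars false

open scoped InnerProductSpace ComplexOrder ComplexConjugate
open Filter

namespace Pool.Agent.W665.HAP

variable {X : Type} [DecidableEq X]

/-- a finite rank approximation of a diagonal operator -/
noncomputable def finD (m : X → ℂ) (s : Finset X) : HS X →L[ℂ] HS X :=
  ∑ x ∈ s, m x • (innerSL ℂ (dl x : HS X)).smulRight (dl x : HS X)

theorem finD_apply (m : X → ℂ) (s : Finset X) (f : HS X) (y : X) :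
    (finD m s f) y = if y ∈ s then m y * f y else 0 := by
  unfold finD
  rw [sum_apply, lp.coeFn_sum, Finset.sum_apply]
  have h : ∀ x ∈ s, ((m x • (innerSL ℂ (dl x : HS X)).smulRight (dl x : HS X)) f) y
      = if x = y then m y * f y else 0 := by
    intro x _
    show m x * (⟪(dl x : HS X), f⟫_ℂ * (dl x : HS X) y) = _
    rw [inner_dl, dl_apply]
    by_cases hxy : x = y
    · subst hxy; simp
    · rw [if_neg (fun h' => hxy h'.symm), if_neg hxy, mul_zero, mul_zero]
  rw [Finset.sum_congr rfl h, Finset.sum_ite_eq']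

theorem finD_compact (m : X → ℂ) (s : Finset X) : IsCompactOperator (finD m s) := by
  have h : finD m s ∈ compactOperator (RingHom.id ℂ) (HS X) (HS X) := by
    unfold finD
    refine Submodule.sum_mem _ fun x _ => Submodule.smul_mem _ _ ?_
    show IsCompactOperator ((innerSL ℂ (dl x : HS X)).smulRight (dl x : HS X))
    have h1 : IsCompactOperator (innerSL ℂ (dl x : HS X)) :=
      isCompactOperator_of_locallyCompactSpace_dom _
    exact h1.clm_comp (ContinuousLinearMap.toSpanSingleton ℂ (dl x : HS X))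
  exact h

theorem diag_compact (m : X → ℂ) (hm : ∀ x, ‖m x‖ ≤ 1) (hdec : Tendsto m cofinite (nhds 0)) :
    IsCompactOperator (diagOp m hm) := by
  have h : Tendsto (fun s : Finset X => finD m s) atTop (nhds (diagOp m hm)) := by
    rw [Metric.tendsto_atTop]
    intro ε hε
    have h1 : ∀ᶠ x in cofinite, ‖m x‖ < ε / 2 := by
      have := (tendsto_zero_iff_norm_tendsto_zero.1 hdec).eventually
        (gt_mem_nhds (show (0 : ℝ) < ε / 2 by positivity))
      exact this
    have h2 : {x | ¬ ‖m x‖ < ε / 2}.Finite := h1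
    refine ⟨h2.toFinset, fun s hs => ?_⟩
    rw [dist_eq_norm]
    refine lt_of_le_of_lt (ContinuousLinearMap.opNorm_le_bound _ (show 0 ≤ ε / 2 by positivity) ?_)
      (half_lt_self hε)
    intro f
    rw [← sq_le_sq₀ (norm_nonneg _) (by positivity), mul_pow, norm_sq_HS, norm_sq_HS,
      ← tsum_mul_left]
    refine Summable.tsum_le_tsum (fun x => ?_) (summ _) ((summ f).mul_left _)
    rw [← mul_pow]
    refine pow_le_pow_left₀ (norm_nonneg _) ?_ 2
    show ‖(finD m s f) x - (diagOp m hm f) x‖ ≤ _
    rw [finD_apply, diagOp_apply]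
    by_cases hx : x ∈ s
    · rw [if_pos hx, sub_self, norm_zero]; positivity
    · rw [if_neg hx, zero_sub, norm_neg, norm_mul]
      refine mul_le_mul_of_nonneg_right ?_ (norm_nonneg _)
      by_contra hcon
      push Not at hcon
      exact hx (hs (h2.mem_toFinset.2 (not_lt.2 hcon.le)))
  exact isCompactOperator_of_tendsto h (Eventually.of_forall fun s => finD_compact m s)

/-- pointwise convergence of multipliers -/
theorem diag_tendsto (m : ℕ → X → ℂ) (hm : ∀ N x, ‖m N x‖ ≤ 1)
    (hlim : ∀ x, Tendsto (fun N => m N x) atTop (nhds 1)) (f : HS X) :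
    Tendsto (fun N => ‖diagOp (m N) (hm N) f - f‖) atTop (nhds 0) := by
  have h1 : ∀ N, ‖diagOp (m N) (hm N) f - f‖ ^ 2 = ∑' x, ‖m N x - 1‖ ^ 2 * ‖f x‖ ^ 2 := by
    intro N
    rw [norm_sq_HS]
    refine tsum_congr fun x => ?_
    rw [← mul_pow, ← norm_mul]
    congr 2
    show (diagOp (m N) (hm N) f) x - f x = _
    rw [diagOp_apply]; ring
  have h2 : Tendsto (fun N => ∑' x, ‖m N x - 1‖ ^ 2 * ‖f x‖ ^ 2) atTop
      (nhds (∑' x : X, (0 : ℝ))) := by
    refine tendsto_tsum_of_dominated_convergence (bound := fun x => 4 * ‖f x‖ ^ 2)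
      ((summ f).mul_left 4) (fun x => ?_) (Eventually.of_forall fun N x => ?_)
    · have h3 := ((hlim x).sub_const 1).norm.pow 2
      rw [sub_self, norm_zero] at h3
      have h4 := h3.mul_const (‖f x‖ ^ 2)
      simpa using h4
    · rw [Real.norm_of_nonneg (by positivity)]
      refine mul_le_mul_of_nonneg_right ?_ (by positivity)
      have h5 : ‖m N x - 1‖ ≤ 2 := by
        refine (norm_sub_le _ _).trans ?_
        rw [norm_one]
        linarith [hm N x]
      nlinarith [norm_nonneg (m N x - 1)]
  rw [tsum_zero] at h2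
  have h6 : Tendsto (fun N => Real.sqrt (‖diagOp (m N) (hm N) f - f‖ ^ 2)) atTop (nhds 0) := by
    simp only [h1]
    have := h2.sqrt
    simpa using this
  simpa [Real.sqrt_sq (norm_nonneg _)] using h6

end Pool.Agent.W665.HAP
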