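import Mathlib
import Pool.Agent.W665.HAP.Defs
import Pool.Agent.W665.HAP.Walk
import Pool.Agent.W665.HAP.Ops

set_option autoImplicit false
set_option linter.unusedSectionVars false

open scoped InnerProductSpace ComplexOrder ComplexConjugate CStarAlgebra

namespace Pool.Agent.W665.HAP

/-- the disjoint union of the quotients -/
abbrev XX (H : Option ℕ → Subgroup F2) : Type := (i : Option ℕ) × (F2 ⧸ H i)

noncomputable instance decXX (H : Option ℕ → Subgroup F2) : DecidableEq (XX H) := Classical.decEq _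

variable (H : Option ℕ → Subgroup F2) [hN : ∀ i, (H i).Normal]

/-- left translation of points -/
def lE (g : F2) : XX H ≃ XX H :=
  Equiv.sigmaCongrRight fun i => Equiv.mulLeft ((g : F2) : F2 ⧸ H i)

/-- right translation of points -/
def rE (g : F2) : XX H ≃ XX H :=
  Equiv.sigmaCongrRight fun i => Equiv.mulRight ((g : F2) : F2 ⧸ H i)

theorem lE_mk (g : F2) (i : Option ℕ) (x : F2 ⧸ H i) : lE H g ⟨i, x⟩ = ⟨i, (g : F2 ⧸ H i) * x⟩ := rfl

theorem rE_mk (g : F2) (i : Option ℕ) (x : F2 ⧸ H i) : rE H g ⟨i, x⟩ = ⟨i, x * (g : F2 ⧸ H i)⟩ := rfl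

theorem lE_symm (g : F2) : (lE H g).symm = lE H g⁻¹ := by
  ext x : 1
  rw [Equiv.symm_apply_eq]
  obtain ⟨i, x⟩ := x
  rw [lE_mk, lE_mk]
  simp

theorem rE_symm (g : F2) : (rE H g).symm = rE H g⁻¹ := by
  ext x : 1
  rw [Equiv.symm_apply_eq]
  obtain ⟨i, x⟩ := x
  rw [rE_mk, rE_mk]
  simp

/-- left translation operators -/
noncomputable def Lop (g : F2) : HS (XX H) →L[ℂ] HS (XX H) := permOp (lE H g⁻¹)

/-- right translation operators -/
noncomputable def Rop (g : F2) : HS (XX H) →L[ℂ] HS (XX H) := permOp (rE H g)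

/-- the indicator of a block -/
noncomputable def ind (i : Option ℕ) (x : XX H) : ℂ := if x.1 = i then 1 else 0

theorem ind_le (i : Option ℕ) (x : XX H) : ‖ind H i x‖ ≤ 1 := by
  unfold ind; split_ifs <;> simp

/-- the projection onto a block -/
noncomputable def Zop (i : Option ℕ) : HS (XX H) →L[ℂ] HS (XX H) := diagOp (ind H i) (ind_le H i)

theorem Lop_star (g : F2) : star (Lop H g) = Lop H g⁻¹ := by
  unfold Lop; rw [star_permOp, lE_symm, inv_inv]

theorem Rop_star (g : F2) : star (Rop H g) = Rop H g⁻¹ := by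
  unfold Rop; rw [star_permOp, rE_symm]

theorem Rop_mul (g h : F2) : Rop H (g * h) = Rop H g * Rop H h := by
  unfold Rop
  rw [permOp_mul]
  congr 1
  ext x : 1
  obtain ⟨i, x⟩ := x
  show rE H (g * h) ⟨i, x⟩ = rE H h (rE H g ⟨i, x⟩)
  rw [rE_mk, rE_mk, rE_mk, QuotientGroup.mk_mul, mul_assoc]

theorem Rop_one : Rop H 1 = 1 := by
  ext f x
  obtain ⟨i, x⟩ := x
  show f (rE H 1 ⟨i, x⟩) = f ⟨i, x⟩
  rw [rE_mk]
  simp

theorem Zop_star (i : Option ℕ) : star (Zop H i) = Zop H i := by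
  unfold Zop
  refine star_diagOp _ _ fun x => ?_
  unfold ind; split_ifs <;> simp

theorem Zop_apply (i : Option ℕ) (f : HS (XX H)) (x : XX H) :
    (Zop H i f) x = if x.1 = i then f x else 0 := by
  unfold Zop
  rw [diagOp_apply, ind]
  split_ifs <;> simp

theorem Zop_mul_self (i : Option ℕ) : Zop H i * Zop H i = Zop H i := by
  ext f x
  show (Zop H i (Zop H i f)) x = _
  rw [Zop_apply, Zop_apply]
  split_ifs <;> rfl

theorem Zop_mul_ne (i j : Option ℕ) (h : i ≠ j) : Zop H i * Zop H j = 0 := by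
  ext f x
  show (Zop H i (Zop H j f)) x = 0
  rw [Zop_apply, Zop_apply]
  by_cases h1 : x.1 = i
  · rw [if_pos h1, if_neg (fun h2 => h (h1.symm.trans h2))]
  · rw [if_neg h1]

theorem Lop_Rop (g h : F2) : Lop H g * Rop H h = Rop H h * Lop H g := by
  unfold Lop Rop
  rw [permOp_mul, permOp_mul]
  congr 1
  ext x : 1
  obtain ⟨i, x⟩ := x
  show rE H h (lE H g⁻¹ ⟨i, x⟩) = lE H g⁻¹ (rE H h ⟨i, x⟩)
  rw [rE_mk, lE_mk, lE_mk, rE_mk, mul_assoc]

theorem Zop_Rop (i : Option ℕ) (h : F2) : Zop H i * Rop H h = Rop H h * Zop H i := by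
  ext f x
  show (Zop H i (Rop H h f)) x = (Zop H i f) (rE H h x)
  rw [Zop_apply, Zop_apply]
  rfl

theorem Zop_Lop (i : Option ℕ) (h : F2) : Zop H i * Lop H h = Lop H h * Zop H i := by
  ext f x
  show (Zop H i (Lop H h f)) x = (Zop H i f) (lE H h⁻¹ x)
  rw [Zop_apply, Zop_apply]
  rfl

/-- the big algebra -/
noncomputable def AS : StarSubalgebra ℂ (HS (XX H) →L[ℂ] HS (XX H)) :=
  StarSubalgebra.centralizer ℂ (Set.range (Lop H) ∪ Set.range (Zop H))

theorem mem_AS (T : HS (XX H) →L[ℂ] HS (XX H)) :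
    T ∈ AS H ↔ (∀ g, Lop H g * T = T * Lop H g) ∧ ∀ i, Zop H i * T = T * Zop H i := by
  unfold AS
  rw [StarSubalgebra.mem_centralizer_iff]
  constructor
  · intro h
    exact ⟨fun g => (h _ (Or.inl ⟨g, rfl⟩)).1, fun i => (h _ (Or.inr ⟨i, rfl⟩)).1⟩
  · rintro ⟨h1, h2⟩ _ (⟨g, rfl⟩ | ⟨i, rfl⟩)
    · exact ⟨h1 g, by rw [Lop_star]; exact h1 _⟩
    · exact ⟨h2 i, by rw [Zop_star]; exact h2 i⟩

theorem Lop_dl (g : F2) (y : XX H) : Lop H g (dl y) = dl (lE H g y) := by
  unfold Lop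
  rw [permOp_dl, lE_symm, inv_inv]

theorem Rop_dl (g : F2) (y : XX H) : Rop H g (dl y) = dl (rE H g⁻¹ y) := by
  unfold Rop
  rw [permOp_dl, rE_symm]

theorem Zop_dl (i : Option ℕ) (y : XX H) : Zop H i (dl y) = ind H i y • (dl y : HS (XX H)) := by
  unfold Zop
  rw [diagOp_dl]

theorem mem_AS_cf (T : HS (XX H) →L[ℂ] HS (XX H)) :
    T ∈ AS H ↔ (∀ g x y, cf T (lE H g x) (lE H g y) = cf T x y) ∧
      ∀ x y : XX H, x.1 ≠ y.1 → cf T x y = 0 := by
  rw [mem_AS]
  constructor
  · rintro ⟨h1, h2⟩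
    refine ⟨fun g x y => ?_, fun x y hxy => ?_⟩
    · unfold cf
      rw [← Lop_dl]
      have e : T (Lop H g (dl y)) = Lop H g (T (dl y)) := by
        have := congrArg (fun S : HS (XX H) →L[ℂ] HS (XX H) => S (dl y)) (h1 g)
        exact this.symm
      rw [e]
      show (T (dl y)) (lE H g⁻¹ (lE H g x)) = _
      rw [← lE_symm, Equiv.symm_apply_apply]
    · have e : T (Zop H y.1 (dl y)) = Zop H y.1 (T (dl y)) := by
        have := congrArg (fun S : HS (XX H) →L[ℂ] HS (XX H) => S (dl y)) (h2 y.1)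
        exact this.symm
      have e2 : ind H y.1 y = 1 := by unfold ind; rw [if_pos rfl]
      rw [Zop_dl, e2, one_smul] at e
      unfold cf
      rw [e, Zop_apply, if_neg hxy]
  · rintro ⟨h1, h2⟩
    refine ⟨fun g => ?_, fun i => ?_⟩
    · refine ext_cf fun x y => ?_
      show (Lop H g (T (dl y))) x = (T (Lop H g (dl y))) x
      rw [Lop_dl]
      have h3 := h1 g (lE H g⁻¹ x) y
      rw [← lE_symm, Equiv.apply_symm_apply, lE_symm] at h3
      exact h3.symm
    · refine ext_cf fun x y => ?_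
      show (Zop H i (T (dl y))) x = (T (Zop H i (dl y))) x
      rw [Zop_dl, map_smul, Zop_apply]
      show _ = ind H i y * cf T x y
      by_cases hxy : x.1 = y.1
      · unfold ind
        rw [hxy]
        split_ifs
        · rw [one_mul]; rfl
        · rw [zero_mul]
      · rw [h2 x y hxy, mul_zero]
        split_ifs
        · exact h2 x y hxy
        · rfl

theorem Rop_mem (g : F2) : Rop H g ∈ AS H :=
  (mem_AS H _).2 ⟨fun h => Lop_Rop H h g, fun i => Zop_Rop H i g⟩

theorem Zop_mem (i : Option ℕ) : Zop H i ∈ AS H := by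
  refine (mem_AS H _).2 ⟨fun h => (Zop_Lop H i h).symm, fun j => ?_⟩
  by_cases h : i = j
  · subst h; rfl
  · rw [Zop_mul_ne H i j h, Zop_mul_ne H j i (fun h' => h h'.symm)]

instance isClosed_AS : IsClosed ((AS H : StarSubalgebra ℂ (HS (XX H) →L[ℂ] HS (XX H))) :
    Set (HS (XX H) →L[ℂ] HS (XX H))) := by
  unfold AS
  rw [StarSubalgebra.coe_centralizer]
  exact Set.isClosed_centralizer _

/-- the big algebra as a type -/
def AA : Type := (AS H : StarSubalgebra ℂ (HS (XX H) →L[ℂ] HS (XX H)))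

noncomputable instance : CStarAlgebra (AA H) :=
  inferInstanceAs (CStarAlgebra (AS H : StarSubalgebra ℂ (HS (XX H) →L[ℂ] HS (XX H))))

noncomputable instance : PartialOrder (AA H) := CStarAlgebra.spectralOrder _

instance : StarOrderedRing (AA H) := CStarAlgebra.spectralOrderedRing _

/-- the inclusion into the operators -/
noncomputable def op : AA H →⋆ₐ[ℂ] (HS (XX H) →L[ℂ] HS (XX H)) := (AS H).subtype

variable {H}

theorem op_injective : Function.Injective (op H) := Subtype.val_injective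

theorem op_mem (T : AA H) : op H T ∈ AS H := T.2

theorem norm_op (T : AA H) : ‖op H T‖ = ‖T‖ := rfl

/-- make an element of the algebra -/
noncomputable def mkA (T : HS (XX H) →L[ℂ] HS (XX H)) (hT : T ∈ AS H) : AA H := ⟨T, hT⟩

theorem op_mkA (T : HS (XX H) →L[ℂ] HS (XX H)) (hT : T ∈ AS H) : op H (mkA T hT) = T := rfl

end Pool.Agent.W665.HAP
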