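import Mathlib
import Pool.Agent.W665.HAP.Model

set_option autoImplicit false
set_option linter.unusedSectionVars false

open scoped InnerProductSpace ComplexOrder ComplexConjugate CStarAlgebra
open Filter

namespace Pool.Agent.W665.HAP

variable (H : Option ℕ → Subgroup F2) [hN : ∀ i, (H i).Normal]

/-- the weights -/
noncomputable def wc (i : Option ℕ) : ℝ := match i with
  | none => 1 / 2
  | some n => (1 / 2) * (1 / 2) ^ (n + 1)

theorem wc_pos (i : Option ℕ) : 0 < wc i := by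
  unfold wc
  cases i <;> positivity

theorem wc_hasSum : HasSum wc 1 := by
  have h1 : HasSum (fun n : ℕ => wc (some n)) (1 / 2) := by
    have h2 : HasSum (fun n : ℕ => ((1 / 2 : ℝ) * (1 / 2)) * (1 / 2) ^ n) ((1 / 2 * (1 / 2)) * 2) :=
      hasSum_geometric_two.mul_left _
    have h3 : (fun n : ℕ => wc (some n)) = fun n : ℕ => ((1 / 2 : ℝ) * (1 / 2)) * (1 / 2) ^ n := by
      funext n
      show (1 / 2 : ℝ) * (1 / 2) ^ (n + 1) = _
      ring
    rw [h3]
    convert h2 using 1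
    norm_num
  set f : Option ℕ → ℝ := fun i => match i with
    | none => 0
    | some n => wc (some n) with hf
  have h4 : HasSum f (1 / 2) := by
    refine (Function.Injective.hasSum_iff (Option.some_injective ℕ) ?_).1 h1
    intro x hx
    cases x with
    | none => rfl
    | some n => exact absurd ⟨n, rfl⟩ hx
  have h5 : HasSum (fun i : Option ℕ => if i = none then (1 / 2 : ℝ) else 0) (1 / 2) :=
    hasSum_ite_eq none (1 / 2)
  have h6 := h5.add h4
  have h7 : (fun i : Option ℕ => (if i = none then (1 / 2 : ℝ) else 0) + f i) = wc := by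
    funext i
    cases i with
    | none => simp [hf, wc]
    | some n => simp [hf]
  rw [h7] at h6
  convert h6 using 1
  norm_num

/-- the base point of a block -/
def bp (i : Option ℕ) : XX H := ⟨i, 1⟩

theorem bp_inj : Function.Injective (bp H) := fun _ _ h => congrArg Sigma.fst h

open Classical in
/-- the vector implementing the trace -/
noncomputable def Omfun (x : XX H) : ℂ := if x = bp H x.1 then ((Real.sqrt (wc x.1) : ℝ) : ℂ) else 0

theorem Omfun_bp (i : Option ℕ) : Omfun H (bp H i) = ((Real.sqrt (wc i) : ℝ) : ℂ) := by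
  unfold Omfun
  rw [if_pos (show bp H i = bp H (bp H i).1 from rfl)]
  rfl

theorem Omfun_ne (x : XX H) (h : x ≠ bp H x.1) : Omfun H x = 0 := by
  unfold Omfun
  rw [if_neg h]

theorem norm_Omfun (i : Option ℕ) : ‖Omfun H (bp H i)‖ ^ 2 = wc i := by
  rw [Omfun_bp, Complex.norm_real, Real.norm_of_nonneg (Real.sqrt_nonneg _),
    Real.sq_sqrt (wc_pos i).le]

theorem Omfun_hasSum : HasSum (fun x => ‖Omfun H x‖ ^ 2) 1 := by
  have h1 : HasSum ((fun x => ‖Omfun H x‖ ^ 2) ∘ bp H) 1 := by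
    have : ((fun x => ‖Omfun H x‖ ^ 2) ∘ bp H) = wc := by
      funext i
      exact norm_Omfun H i
    rw [this]
    exact wc_hasSum
  refine (Function.Injective.hasSum_iff (bp_inj H) ?_).1 h1
  intro x hx
  have : x ≠ bp H x.1 := fun h => hx ⟨x.1, h.symm⟩
  rw [Omfun_ne H x this]
  simp

/-- the vector implementing the trace -/
noncomputable def Om : HS (XX H) := ⟨Omfun H, by
  refine memℓp_gen ?_
  simpa using (Omfun_hasSum H).summable⟩

theorem Om_apply (x : XX H) : (Om H) x = Omfun H x := rfl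

theorem norm_Om : ‖Om H‖ = 1 := by
  have h : ‖Om H‖ ^ 2 = 1 := by
    rw [norm_sq_HS]
    exact (Omfun_hasSum H).tsum_eq
  nlinarith [norm_nonneg (Om H)]

theorem Zop_Om (i : Option ℕ) : Zop H i (Om H) = ((Real.sqrt (wc i) : ℝ) : ℂ) • (dl (bp H i) : HS (XX H)) := by
  ext x
  rw [Zop_apply, Om_apply]
  show _ = ((Real.sqrt (wc i) : ℝ) : ℂ) * (dl (bp H i) : HS (XX H)) x
  rw [dl_apply]
  by_cases h1 : x = bp H i
  · subst h1
    rw [if_pos (show (bp H i).1 = i from rfl), if_pos rfl, mul_one, Omfun_bp]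
  · rw [if_neg h1, mul_zero]
    by_cases h2 : x.1 = i
    · rw [if_pos h2]
      subst h2
      exact Omfun_ne H x h1
    · rw [if_neg h2]

variable {H}

/-- the coordinates of `T Ω` -/
theorem op_Om_apply (T : HS (XX H) →L[ℂ] HS (XX H)) (hT : T ∈ AS H) (x : XX H) :
    (T (Om H)) x = ((Real.sqrt (wc x.1) : ℝ) : ℂ) * cf T x (bp H x.1) := by
  have h1 := ((mem_AS H T).1 hT).2 x.1
  have h2 : (Zop H x.1 (T (Om H))) x = (T (Zop H x.1 (Om H))) x := by
    have := congrArg (fun S : HS (XX H) →L[ℂ] HS (XX H) => (S (Om H)) x) h1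
    exact this
  rw [Zop_apply, if_pos rfl, Zop_Om, map_smul] at h2
  exact h2

/-- transitivity of left translations on a block -/
theorem exists_lE (x : XX H) : ∃ g : F2, lE H g (bp H x.1) = x := by
  obtain ⟨i, x⟩ := x
  obtain ⟨g, rfl⟩ := QuotientGroup.mk_surjective x
  refine ⟨g, ?_⟩
  show lE H g ⟨i, 1⟩ = _
  rw [lE_mk, mul_one]

theorem eq_zero_of_Om (T : HS (XX H) →L[ℂ] HS (XX H)) (hT : T ∈ AS H) (h : T (Om H) = 0) :
    T = 0 := by
  obtain ⟨h1, h2⟩ := (mem_AS_cf H T).1 hT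
  have h3 : ∀ x : XX H, cf T x (bp H x.1) = 0 := by
    intro x
    have h4 := op_Om_apply T hT x
    rw [h] at h4
    have h5 : ((Real.sqrt (wc x.1) : ℝ) : ℂ) ≠ 0 := by
      rw [Ne, Complex.ofReal_eq_zero]
      exact (Real.sqrt_pos.2 (wc_pos _)).ne'
    have h6 : (0 : ℂ) = ((Real.sqrt (wc x.1) : ℝ) : ℂ) * cf T x (bp H x.1) := h4
    exact (mul_eq_zero.1 h6.symm).resolve_left h5
  refine ext_cf fun x y => ?_
  show cf T x y = 0
  by_cases hxy : x.1 = y.1
  · obtain ⟨g, hg⟩ := exists_lE y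
    have h7 := h1 g (lE H g⁻¹ x) (bp H y.1)
    rw [hg, ← lE_symm, Equiv.apply_symm_apply] at h7
    rw [h7]
    have h8 := h3 ((lE H g).symm x)
    have h9 : ((lE H g).symm x).1 = y.1 := by
      rw [lE_symm]
      obtain ⟨i, x⟩ := x
      exact hxy
    rw [h9] at h8
    exact h8
  · exact h2 x y hxy

/-- inversion on the blocks -/
def iE (H : Option ℕ → Subgroup F2) [∀ i, (H i).Normal] : XX H ≃ XX H :=
  Equiv.sigmaCongrRight fun i => Equiv.inv (F2 ⧸ H i)

theorem iE_mk (i : Option ℕ) (x : F2 ⧸ H i) : iE H ⟨i, x⟩ = ⟨i, x⁻¹⟩ := rfl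

theorem star_Om_apply (T : HS (XX H) →L[ℂ] HS (XX H)) (hT : T ∈ AS H) (x : XX H) :
    ((star T) (Om H)) x = conj ((T (Om H)) (iE H x)) := by
  obtain ⟨i, x⟩ := x
  rw [op_Om_apply _ (star_mem hT), op_Om_apply _ hT, cf_star, map_mul, Complex.conj_ofReal, iE_mk]
  congr 2
  obtain ⟨g, rfl⟩ := QuotientGroup.mk_surjective x
  have h := ((mem_AS_cf H T).1 hT).1 g⁻¹ (bp H i) ⟨i, (g : F2 ⧸ H i)⟩
  have e1 : lE H g⁻¹ (bp H i) = ⟨i, (g : F2 ⧸ H i)⁻¹⟩ := by
    show lE H g⁻¹ ⟨i, 1⟩ = _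
    rw [lE_mk, mul_one]; rfl
  have e2 : lE H g⁻¹ ⟨i, (g : F2 ⧸ H i)⟩ = bp H i := by
    rw [lE_mk]
    show (⟨i, ((g⁻¹ : F2) : F2 ⧸ H i) * (g : F2 ⧸ H i)⟩ : XX H) = ⟨i, 1⟩
    rw [← QuotientGroup.mk_mul, inv_mul_cancel]; rfl
  rw [e1, e2] at h
  exact h.symm

theorem trace_eq (S T : HS (XX H) →L[ℂ] HS (XX H)) (hS : S ∈ AS H) :
    ⟪Om H, S (T (Om H))⟫_ℂ = ∑' x, (S (Om H)) (iE H x) * (T (Om H)) x := by
  have h1 : ⟪Om H, S (T (Om H))⟫_ℂ = ⟪(star S) (Om H), T (Om H)⟫_ℂ := by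
    rw [ContinuousLinearMap.star_eq_adjoint, ContinuousLinearMap.adjoint_inner_left]
  rw [h1, lp.inner_eq_tsum]
  refine tsum_congr fun x => ?_
  rw [star_Om_apply S hS]
  simp [mul_comm]

theorem trace_comm (S T : HS (XX H) →L[ℂ] HS (XX H)) (hS : S ∈ AS H) (hT : T ∈ AS H) :
    ⟪Om H, S (T (Om H))⟫_ℂ = ⟪Om H, T (S (Om H))⟫_ℂ := by
  rw [trace_eq S T hS, trace_eq T S hT, ← (iE H).tsum_eq]
  refine tsum_congr fun x => ?_
  have : iE H (iE H x) = x := by
    obtain ⟨i, x⟩ := x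
    rw [iE_mk, iE_mk, inv_inv]
  rw [this, mul_comm]

variable (H)

/-- the trace -/
noncomputable def tau : AA H →ₚ[ℂ] ℂ :=
  PositiveLinearMap.mk₀
    { toFun := fun T => ⟪Om H, op H T (Om H)⟫_ℂ
      map_add' := fun S T => by
        rw [map_add, add_apply, inner_add_right]
      map_smul' := fun c T => by
        rw [map_smul, smul_apply, inner_smul_right]; rfl } (fun T hT => by
    obtain ⟨S, rfl⟩ := CStarAlgebra.nonneg_iff_eq_star_mul_self.1 hT
    show (0 : ℂ) ≤ ⟪Om H, op H (star S * S) (Om H)⟫_ℂ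
    rw [map_mul, map_star, ContinuousLinearMap.star_eq_adjoint]
    show (0 : ℂ) ≤ ⟪Om H, (ContinuousLinearMap.adjoint (op H S)) (op H S (Om H))⟫_ℂ
    rw [ContinuousLinearMap.adjoint_inner_right, inner_self_eq_norm_sq_to_K]
    have h := sq_nonneg ‖op H S (Om H)‖
    rw [← RCLike.ofReal_pow]
    exact RCLike.ofReal_nonneg.2 h)

theorem tau_apply (T : AA H) : tau H T = ⟪Om H, op H T (Om H)⟫_ℂ := rfl

theorem tau_star_mul (S T : AA H) : tau H (star S * T) = ⟪op H S (Om H), op H T (Om H)⟫_ℂ := by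
  rw [tau_apply, map_mul, map_star, ContinuousLinearMap.star_eq_adjoint]
  show ⟪Om H, (ContinuousLinearMap.adjoint (op H S)) (op H T (Om H))⟫_ℂ = _
  rw [ContinuousLinearMap.adjoint_inner_right]

theorem tau_isFaithfulTracialState : IsFaithfulTracialState (tau H) where
  map_one := by
    rw [tau_apply, map_one]
    show ⟪Om H, Om H⟫_ℂ = 1
    rw [inner_self_eq_norm_sq_to_K, norm_Om]
    simp
  tracial := fun S T => by
    rw [tau_apply, tau_apply, map_mul, map_mul]
    exact trace_comm _ _ (op_mem S) (op_mem T)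
  faithful := fun T hT => by
    rw [tau_star_mul, inner_self_eq_zero] at hT
    apply op_injective
    rw [eq_zero_of_Om _ (op_mem T) hT, map_zero]

end Pool.Agent.W665.HAP
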