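import Mathlib
import Pool.Agent.W665.HAP.Trace
import Pool.Agent.W665.HAP.Amp
import Pool.Agent.W665.HAP.CP
import Pool.Agent.W665.HAP.DiagCpt

set_option autoImplicit false
set_option linter.unusedSectionVars false

open scoped InnerProductSpace ComplexOrder ComplexConjugate CStarAlgebra
open Filter

namespace Pool.Agent.W665.HAP

variable (H : Option ℕ → Subgroup F2) [hN : ∀ i, (H i).Normal]

/-- multiplier data -/
structure Mult where
  Y : Type
  dec : DecidableEq Y
  ξ : XX H → (Y →₀ ℂ)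
  one : ∀ x, ker ξ x x = 1
  inv : ∀ g x y, x.1 = y.1 → ker ξ (lE H g x) (lE H g y) = ker ξ x y
  k : XX H → ℝ
  hk : ∀ x, ker ξ x (bp H x.1) = k x
  k_le : ∀ x, |k x| ≤ 1
  J : Finset (Option ℕ)

variable {H}

namespace Mult

variable (D : Mult H)

instance : DecidableEq D.Y := D.dec

/-- the indicator of the cut-off -/
noncomputable def d (x : XX H) : ℂ := if x.1 ∈ D.J then 1 else 0

theorem d_le (x : XX H) : ‖D.d x‖ ≤ 1 := by unfold d; split_ifs <;> simp

theorem d_conj (x : XX H) : conj (D.d x) = D.d x := by unfold d; split_ifs <;> simp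

theorem d_congr {x y : XX H} (h : x.1 = y.1) : D.d x = D.d y := by unfold d; rw [h]

theorem d_sq (x : XX H) : D.d x * D.d x = D.d x := by unfold d; split_ifs <;> simp

/-- the multiplier -/
noncomputable def m (x : XX H) : ℂ := D.d x * (D.k x : ℝ)

theorem m_le (x : XX H) : ‖D.m x‖ ≤ 1 := by
  unfold m
  rw [norm_mul, Complex.norm_real, Real.norm_eq_abs]
  calc _ ≤ (1 : ℝ) * 1 := mul_le_mul (D.d_le x) (D.k_le x) (abs_nonneg _) zero_le_one
    _ = 1 := one_mul 1

/-- the Schur multiplier -/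
noncomputable def S (T : HS (XX H) →L[ℂ] HS (XX H)) : HS (XX H) →L[ℂ] HS (XX H) :=
  Sch D.ξ D.one D.d D.d_le T

theorem S_mem (T : HS (XX H) →L[ℂ] HS (XX H)) (hT : T ∈ AS H) : D.S T ∈ AS H := by
  obtain ⟨h1, h2⟩ := (mem_AS_cf H T).1 hT
  rw [mem_AS_cf]
  unfold S
  refine ⟨fun g x y => ?_, fun x y hxy => ?_⟩
  · rw [cf_Sch, cf_Sch, h1 g x y]
    have e1 : D.d (lE H g x) = D.d x := D.d_congr (by obtain ⟨i, x⟩ := x; rfl)
    have e2 : D.d (lE H g y) = D.d y := D.d_congr (by obtain ⟨i, y⟩ := y; rfl)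
    rw [e1, e2]
    by_cases hxy : x.1 = y.1
    · rw [D.inv g x y hxy]
    · rw [h2 x y hxy, mul_zero, mul_zero]
  · rw [cf_Sch, h2 x y hxy, mul_zero]

theorem S_Om (T : HS (XX H) →L[ℂ] HS (XX H)) (hT : T ∈ AS H) :
    D.S T (Om H) = diagOp D.m D.m_le (T (Om H)) := by
  ext x
  rw [diagOp_apply, op_Om_apply _ (D.S_mem T hT), op_Om_apply _ hT]
  unfold S
  rw [cf_Sch, D.hk, D.d_conj, D.d_congr (show (bp H x.1).1 = x.1 from rfl), D.d_sq]
  unfold m
  ring

/-- the map on the big algebra -/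
noncomputable def lin : AA H →ₗ[ℂ] AA H where
  toFun T := mkA (D.S (op H T)) (D.S_mem _ (op_mem T))
  map_add' S T := by
    apply op_injective
    refine Eq.trans ?_ (map_add (op H) _ _).symm
    show D.S (op H (S + T)) = D.S (op H S) + D.S (op H T)
    rw [map_add]
    exact Sch_add _ _ _ _ _ _
  map_smul' c T := by
    apply op_injective
    refine Eq.trans ?_ (map_smul (op H) c _).symm
    show D.S (op H (c • T)) = c • D.S (op H T)
    rw [map_smul]
    exact Sch_smul _ _ _ _ _ _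

theorem op_lin (T : AA H) : op H (D.lin T) = D.S (op H T) := rfl

theorem lin_star (T : AA H) : D.lin (star T) = star (D.lin T) := by
  apply op_injective
  rw [op_lin, map_star, map_star, op_lin]
  exact Sch_star _ _ _ _ _

/-- the action of matrices on vectors -/
noncomputable def act {n : ℕ} (P : CStarMatrix (Fin n) (Fin n) (AA H)) (η : Fin n → HS (XX H))
    (i : Fin n) : HS (XX H) := ∑ j, op H (P i j) (η j)

theorem act_mul {n : ℕ} (P Q : CStarMatrix (Fin n) (Fin n) (AA H)) (η : Fin n → HS (XX H)) :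
    act (P * Q) η = act P (act Q η) := by
  funext i
  unfold act
  simp only [CStarMatrix.mul_apply, map_sum, map_mul, sum_apply]
  rw [Finset.sum_comm]
  rfl

theorem act_neg {n : ℕ} (P : CStarMatrix (Fin n) (Fin n) (AA H)) (η : Fin n → HS (XX H)) (i : Fin n) :
    act (-P) η i = - act P η i := by
  unfold act
  simp [CStarMatrix.neg_apply]

theorem inner_act_star {n : ℕ} (P : CStarMatrix (Fin n) (Fin n) (AA H)) (η ζ : Fin n → HS (XX H)) :
    ∑ i, ⟪η i, act (star P) ζ i⟫_ℂ = ∑ i, ⟪act P η i, ζ i⟫_ℂ := by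
  unfold act
  simp only [inner_sum, sum_inner, CStarMatrix.star_apply, map_star,
    ContinuousLinearMap.star_eq_adjoint, ContinuousLinearMap.adjoint_inner_right]
  rw [Finset.sum_comm]

theorem form_nonneg {n : ℕ} (C : CStarMatrix (Fin n) (Fin n) (AA H)) (ζ : Fin n → HS (XX H)) :
    0 ≤ (∑ i, ⟪ζ i, act ((star C * C).map D.lin) ζ i⟫_ℂ).re := by
  have h1 : ∑ i, ⟪ζ i, act ((star C * C).map D.lin) ζ i⟫_ℂ =
      ∑ l, ⟪∑ j, amp (op H (C l j)) (WW D.ξ D.one D.d D.d_le (ζ j)),
        ∑ j, amp (op H (C l j)) (WW D.ξ D.one D.d D.d_le (ζ j))⟫_ℂ := by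
    have e : ∀ i j, ⟪ζ i, op H (((star C * C).map D.lin) i j) (ζ j)⟫_ℂ =
        ∑ l, ⟪amp (op H (C l i)) (WW D.ξ D.one D.d D.d_le (ζ i)),
          amp (op H (C l j)) (WW D.ξ D.one D.d D.d_le (ζ j))⟫_ℂ := by
      intro i j
      rw [CStarMatrix.map_apply, CStarMatrix.mul_apply, map_sum, map_sum, sum_apply,
        inner_sum]
      refine Finset.sum_congr rfl fun l _ => ?_
      rw [CStarMatrix.star_apply, op_lin, map_mul, map_star]
      exact inner_Sch _ _ _ _ _ _ _ _
    unfold act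
    simp only [inner_sum, sum_inner, e]
    rw [Finset.sum_congr rfl fun i _ => Finset.sum_comm, Finset.sum_comm]
    refine Finset.sum_congr rfl fun l _ => Finset.sum_comm
  rw [h1, Complex.re_sum]
  refine Finset.sum_nonneg fun l _ => ?_
  exact inner_self_nonneg (𝕜 := ℂ)

theorem form_neg_aux {n : ℕ} (N b p : CStarMatrix (Fin n) (Fin n) (AA H)) (hps : star p = p)
    (hp : p = star b * b) (hb : p * N * p = - (p * p * p)) (η : Fin n → HS (XX H)) :
    ∑ i, ⟪act p η i, act N (act p η) i⟫_ℂ = - ∑ i, ⟪act (b * p) η i, act (b * p) η i⟫_ℂ := by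
  have e : p * p * p = star (b * p) * (b * p) := by
    rw [star_mul, hps, mul_assoc p (star b), ← mul_assoc (star b) b p, ← hp, mul_assoc]
  have e1 : ∑ i, ⟪act p η i, act N (act p η) i⟫_ℂ = ∑ i, ⟪η i, act (p * N * p) η i⟫_ℂ := by
    rw [← inner_act_star, hps, ← act_mul, ← act_mul, mul_assoc]
  have e2 : ∑ i, ⟪act (b * p) η i, act (b * p) η i⟫_ℂ = ∑ i, ⟪η i, act (p * p * p) η i⟫_ℂ := by
    rw [e, act_mul (star (b * p)) (b * p), inner_act_star]
  rw [e1, e2, hb, ← Finset.sum_neg_distrib]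
  refine Finset.sum_congr rfl fun i _ => ?_
  rw [act_neg, inner_neg_right]

theorem eq_zero_of_act {n : ℕ} (P : CStarMatrix (Fin n) (Fin n) (AA H))
    (h : ∀ η : Fin n → HS (XX H), ∀ i, act P η i = 0) : P = 0 := by
  refine CStarMatrix.ext fun i j => ?_
  apply op_injective
  refine ContinuousLinearMap.ext fun u => ?_
  have h3 := h (Pi.single j u) i
  unfold act at h3
  rw [Finset.sum_eq_single j] at h3
  · rw [Pi.single_eq_same] at h3
    rw [h3, CStarMatrix.zero_apply, map_zero]; rfl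
  · intro k _ hk
    rw [Pi.single_eq_of_ne hk, map_zero]
  · intro h; exact absurd (Finset.mem_univ j) h

theorem nonneg_of_form {n : ℕ} (N : CStarMatrix (Fin n) (Fin n) (AA H)) (hsa : IsSelfAdjoint N)
    (hform : ∀ ζ : Fin n → HS (XX H), 0 ≤ (∑ i, ⟪ζ i, act N ζ i⟫_ℂ).re) : 0 ≤ N := by
  by_contra hcon
  obtain ⟨b, hb0, hb⟩ := exists_neg hsa hcon
  obtain ⟨p, hp⟩ : ∃ p, p = star b * b := ⟨_, rfl⟩
  rw [← hp] at hb0 hb
  have hps : star p = p := by rw [hp, star_mul, star_star]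
  have h1 : ∀ η : Fin n → HS (XX H), ∀ i, act (b * p) η i = 0 := by
    intro η
    have h2 := hform (act p η)
    rw [form_neg_aux N b p hps hp hb, Complex.neg_re, Complex.re_sum] at h2
    have h4 : ∀ i ∈ Finset.univ, 0 ≤ (⟪act (b * p) η i, act (b * p) η i⟫_ℂ).re :=
      fun i _ => inner_self_nonneg (𝕜 := ℂ)
    have h5 : ∑ i, (⟪act (b * p) η i, act (b * p) η i⟫_ℂ).re = 0 :=
      le_antisymm (by linarith) (Finset.sum_nonneg h4)
    intro i
    have h6 := (Finset.sum_eq_zero_iff_of_nonneg h4).1 h5 i (Finset.mem_univ i)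
    have h7 : ‖act (b * p) η i‖ ^ 2 = 0 := by
      rw [← h6]
      exact (inner_self_eq_norm_sq (𝕜 := ℂ) (act (b * p) η i)).symm
    exact norm_eq_zero.1 (pow_eq_zero_iff (two_ne_zero) |>.1 h7)
  have h2 : b * p = 0 := eq_zero_of_act _ h1
  have h3 : star p * p = 0 := by
    rw [hps]
    conv_lhs => rw [hp]
    rw [mul_assoc, ← hp, h2, mul_zero]
  exact hb0 (CStarRing.star_mul_self_eq_zero_iff p |>.1 h3)

theorem map_nonneg' (n : ℕ) (M : CStarMatrix (Fin n) (Fin n) (AA H)) (hM : 0 ≤ M) :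
    0 ≤ M.map D.lin := by
  obtain ⟨C, rfl⟩ := exists_star_mul_self hM
  refine nonneg_of_form _ ?_ (D.form_nonneg C)
  show star ((star C * C).map D.lin) = (star C * C).map D.lin
  refine CStarMatrix.ext fun i j => ?_
  rw [CStarMatrix.star_apply, CStarMatrix.map_apply, CStarMatrix.map_apply,
    ← D.lin_star, ← CStarMatrix.star_apply]
  congr 2
  rw [star_mul, star_star]

/-- complete positivity -/
noncomputable def cp : AA H →CP AA H :=
  { D.lin with map_cstarMatrix_nonneg' := D.map_nonneg' }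

theorem cp_apply (T : AA H) : D.cp T = D.lin T := rfl

end Mult

end Pool.Agent.W665.HAP
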