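import Mathlib
import Pool.Agent.W665.HAP.Pos

set_option autoImplicit false
set_option linter.unusedSectionVars false

open scoped InnerProductSpace ComplexOrder ComplexConjugate CStarAlgebra
open Filter

namespace Pool.Agent.W665.HAP

variable {H : Option ℕ → Subgroup F2} [hN : ∀ i, (H i).Normal]

namespace Mult

variable (D : Mult H)

theorem norm_cp_le (a : AA H) : ‖D.cp a‖ ≤ ‖a‖ := by
  rw [← norm_op, ← norm_op]
  exact norm_Sch_le _ _ _ _ _

theorem k_bp (i : Option ℕ) : D.k (bp H i) = 1 := by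
  have h1 := D.hk (bp H i)
  have h2 := D.one (bp H i)
  have h3 : ((D.k (bp H i) : ℝ) : ℂ) = 1 := by
    rw [← h1]; exact h2
  exact_mod_cast h3

theorem m_conj (x : XX H) : conj (D.m x) = D.m x := by
  unfold m
  rw [map_mul, D.d_conj, Complex.conj_ofReal]

theorem m_Om : diagOp D.m D.m_le (Om H) = diagOp D.d D.d_le (Om H) := by
  ext x
  rw [diagOp_apply, diagOp_apply, Om_apply]
  by_cases h : x = bp H x.1
  · have h1 : D.k x = 1 := by rw [h]; exact D.k_bp _
    unfold m
    rw [h1]; simp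
  · rw [Omfun_ne H x h, mul_zero, mul_zero]

theorem P_comm (T : HS (XX H) →L[ℂ] HS (XX H)) (hT : T ∈ AS H) :
    diagOp D.d D.d_le * T = T * diagOp D.d D.d_le := by
  refine ext_cf fun x y => ?_
  show (diagOp D.d D.d_le (T (dl y))) x = (T (diagOp D.d D.d_le (dl y))) x
  rw [diagOp_apply, diagOp_dl, map_smul]
  show D.d x * cf T x y = D.d y * cf T x y
  by_cases hxy : x.1 = y.1
  · rw [D.d_congr hxy]
  · rw [((mem_AS_cf H T).1 hT).2 x y hxy, mul_zero, mul_zero]

theorem P_sq : diagOp D.d D.d_le * diagOp D.d D.d_le = diagOp D.d D.d_le := by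
  ext f x
  show D.d x * (D.d x * f x) = D.d x * f x
  rw [← mul_assoc, D.d_sq]

theorem P_star : star (diagOp D.d D.d_le) = diagOp D.d D.d_le := star_diagOp _ _ D.d_conj

theorem tau_cp_le (a : AA H) (ha : 0 ≤ a) : tau H (D.cp a) ≤ tau H a := by
  obtain ⟨s, rfl⟩ := CStarAlgebra.nonneg_iff_eq_star_mul_self.1 ha
  set P := diagOp D.d D.d_le with hP
  set f : HS (XX H) := op H s (Om H) with hf
  have h1 : tau H (D.cp (star s * s)) = ((‖P f‖ ^ 2 : ℝ) : ℂ) := by
    rw [tau_apply, cp_apply, op_lin, D.S_Om _ (op_mem _)]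
    have e1 : ⟪Om H, diagOp D.m D.m_le (op H (star s * s) (Om H))⟫_ℂ
        = ⟪P (Om H), op H (star s * s) (Om H)⟫_ℂ := by
      conv_lhs => rw [← star_diagOp D.m D.m_le D.m_conj]
      rw [ContinuousLinearMap.star_eq_adjoint, ContinuousLinearMap.adjoint_inner_right, D.m_Om]
    rw [e1, map_mul, map_star, ContinuousLinearMap.star_eq_adjoint]
    show ⟪P (Om H), (ContinuousLinearMap.adjoint (op H s)) (op H s (Om H))⟫_ℂ = _
    rw [ContinuousLinearMap.adjoint_inner_right, ← hf]
    have e2 : op H s (P (Om H)) = P f := by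
      have := congrArg (fun S : HS (XX H) →L[ℂ] HS (XX H) => S (Om H)) (D.P_comm _ (op_mem s))
      exact this.symm
    rw [e2]
    have e3 : ⟪P f, f⟫_ℂ = ⟪P f, P f⟫_ℂ := by
      have h2 : P f = P (P f) := by
        have := congrArg (fun S : HS (XX H) →L[ℂ] HS (XX H) => S f) D.P_sq
        exact this.symm
      conv_lhs => rw [h2]
      have h3 : ⟪P (P f), f⟫_ℂ = ⟪(star P) (P f), f⟫_ℂ := by rw [hP, D.P_star]
      rw [h3, ContinuousLinearMap.star_eq_adjoint, ContinuousLinearMap.adjoint_inner_left]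
    rw [e3, inner_self_eq_norm_sq_to_K]
    push_cast
    rfl
  have h2 : tau H (star s * s) = ((‖f‖ ^ 2 : ℝ) : ℂ) := by
    rw [tau_star_mul, inner_self_eq_norm_sq_to_K]
    push_cast
    rfl
  rw [h1, h2]
  rw [Complex.real_le_real]
  refine pow_le_pow_left₀ (norm_nonneg _) ?_ 2
  have h3 := (diagOp D.d D.d_le).le_opNorm f
  have h4 := norm_diagOp_le D.d D.d_le
  calc ‖P f‖ ≤ ‖diagOp D.d D.d_le‖ * ‖f‖ := h3
    _ ≤ 1 * ‖f‖ := mul_le_mul_of_nonneg_right h4 (norm_nonneg _)
    _ = ‖f‖ := one_mul _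

end Mult

/-- the trace norm is the vector norm -/
theorem norm_preGNS (a : (tau H).PreGNS) : ‖a‖ = ‖op H ((tau H).ofPreGNS a) (Om H)‖ := by
  rw [PositiveLinearMap.preGNS_norm_def, tau_star_mul]
  have h := inner_self_eq_norm_sq (𝕜 := ℂ) (op H ((tau H).ofPreGNS a) (Om H))
  rw [show (⟪op H ((tau H).ofPreGNS a) (Om H), op H ((tau H).ofPreGNS a) (Om H)⟫_ℂ).re =
    ‖op H ((tau H).ofPreGNS a) (Om H)‖ ^ 2 from h]
  exact Real.sqrt_sq (norm_nonneg _)

/-- the embedding of the pre-GNS space -/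
noncomputable def U0 : (tau H).PreGNS →L[ℂ] HS (XX H) :=
  LinearMap.mkContinuous
    { toFun := fun a => op H ((tau H).ofPreGNS a) (Om H)
      map_add' := fun a b => by rw [map_add, map_add, add_apply]
      map_smul' := fun c a => by rw [map_smul, map_smul]; rfl } 1 (fun a => by
        rw [one_mul, norm_preGNS]; exact le_rfl)

/-- the embedding of the GNS space -/
noncomputable def UU : (tau H).GNS →L[ℂ] HS (XX H) := (U0 (H := H)).fromCompletion

theorem UU_coe (a : AA H) : UU (((tau H).toPreGNS a : (tau H).GNS)) = op H a (Om H) := by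
  unfold UU
  rw [ContinuousLinearMap.fromCompletion_apply_coe]
  rfl

theorem norm_UU (z : (tau H).GNS) : ‖UU z‖ = ‖z‖ := by
  induction z using UniformSpace.Completion.induction_on with
  | hp => exact isClosed_eq (by fun_prop) (by fun_prop)
  | ih a =>
    have h := UU_coe ((tau H).ofPreGNS a)
    have h1 : (tau H).toPreGNS ((tau H).ofPreGNS a) = a := rfl
    rw [h1] at h
    rw [h, UniformSpace.Completion.norm_coe, norm_preGNS]

namespace Mult

variable (D : Mult H)

/-- the induced map on the pre-GNS space -/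
noncomputable def T0 : (tau H).PreGNS →L[ℂ] (tau H).PreGNS :=
  LinearMap.mkContinuous
    ((tau H).toPreGNS.toLinearMap ∘ₗ D.lin ∘ₗ (tau H).ofPreGNS.toLinearMap) 1 (fun a => by
        rw [one_mul, norm_preGNS, norm_preGNS]
        show ‖op H (D.lin ((tau H).ofPreGNS a)) (Om H)‖ ≤ _
        rw [op_lin, D.S_Om _ (op_mem _)]
        have h3 := (diagOp D.m D.m_le).le_opNorm (op H ((tau H).ofPreGNS a) (Om H))
        have h4 := norm_diagOp_le D.m D.m_le
        refine h3.trans ?_
        calc _ ≤ 1 * ‖op H ((tau H).ofPreGNS a) (Om H)‖ :=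
              mul_le_mul_of_nonneg_right h4 (norm_nonneg _)
          _ = _ := one_mul _)

theorem T0_apply (a : AA H) : D.T0 ((tau H).toPreGNS a) = (tau H).toPreGNS (D.cp a) := rfl

/-- the extension to the GNS space -/
noncomputable def TT : (tau H).GNS →L[ℂ] (tau H).GNS := D.T0.completion

theorem TT_coe (a : AA H) : D.TT ((tau H).toPreGNS a : (tau H).GNS)
    = ((tau H).toPreGNS (D.cp a) : (tau H).GNS) := by
  unfold TT
  rw [ContinuousLinearMap.completion_apply_coe, T0_apply]

theorem UU_TT (z : (tau H).GNS) : UU (D.TT z) = diagOp D.m D.m_le (UU z) := by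
  induction z using UniformSpace.Completion.induction_on with
  | hp => exact isClosed_eq (by fun_prop) (by fun_prop)
  | ih a =>
    have h1 : (tau H).toPreGNS ((tau H).ofPreGNS a) = a := rfl
    have h2 := D.TT_coe ((tau H).ofPreGNS a)
    rw [h1] at h2
    have h3 := UU_coe ((tau H).ofPreGNS a)
    rw [h1] at h3
    rw [h2, UU_coe, h3, cp_apply, op_lin, D.S_Om _ (op_mem _)]

theorem TT_compact (hdec : Tendsto D.m cofinite (nhds 0)) : IsCompactOperator D.TT := by
  have h1 : IsCompactOperator (diagOp D.m D.m_le ∘ (UU (H := H))) :=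
    (diag_compact D.m D.m_le hdec).comp_clm UU
  obtain ⟨K, hK, hKn⟩ := h1
  have hiso : Isometry (UU (H := H)) := by
    refine AddMonoidHomClass.isometry_of_norm _ norm_UU
  refine ⟨UU ⁻¹' K, hiso.isClosedEmbedding.isCompact_preimage hK, ?_⟩
  have h2 : (D.TT ⁻¹' (UU ⁻¹' K)) = ((diagOp D.m D.m_le ∘ (UU (H := H))) ⁻¹' K) := by
    ext z
    show UU (D.TT z) ∈ K ↔ diagOp D.m D.m_le (UU z) ∈ K
    rw [UU_TT]
  rw [h2]
  exact hKn

end Mult

/-- the Haagerup property of the big algebra, from a sequence of multipliers -/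
theorem haagerup_of_mult (D : ℕ → Mult H) (hdec : ∀ N, Tendsto (D N).m cofinite (nhds 0))
    (hlim : ∀ x, Tendsto (fun N => (D N).m x) atTop (nhds 1)) : HaagerupProperty (tau H) := by
  refine ⟨ℕ, inferInstance, inferInstance, inferInstance, fun N => (D N).cp,
    fun N a => (D N).norm_cp_le a, fun N a ha => (D N).tau_cp_le a ha,
    fun N => ⟨(D N).TT, (D N).TT_compact (hdec N), (D N).TT_coe⟩, fun a => ?_⟩
  have h := diag_tendsto (fun N => (D N).m) (fun N => (D N).m_le) hlim (op H a (Om H))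
  refine h.congr fun N => ?_
  show _ = Real.sqrt (tau H (star ((D N).cp a - a) * ((D N).cp a - a))).re
  rw [tau_star_mul, map_sub]
  have e : (op H ((D N).cp a) - op H a) (Om H) = diagOp (D N).m (D N).m_le (op H a (Om H)) - op H a (Om H) := by
    show op H ((D N).cp a) (Om H) - op H a (Om H) = _
    rw [Mult.cp_apply, Mult.op_lin, (D N).S_Om _ (op_mem _)]
  rw [e]
  have h2 := inner_self_eq_norm_sq (𝕜 := ℂ) (diagOp (D N).m (D N).m_le (op H a (Om H)) - op H a (Om H))
  rw [show (⟪diagOp (D N).m (D N).m_le (op H a (Om H)) - op H a (Om H),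
    diagOp (D N).m (D N).m_le (op H a (Om H)) - op H a (Om H)⟫_ℂ).re = _ from h2]
  exact (Real.sqrt_sq (norm_nonneg _)).symm

end Pool.Agent.W665.HAP
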