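import Mathlib
import Pool.Agent.W665.HAP.Pos2
import Pool.Agent.W665.HAP.Kern

set_option autoImplicit false
set_option linter.unusedSectionVars false

open scoped InnerProductSpace ComplexOrder ComplexConjugate CStarAlgebra
open Filter

namespace Pool.Agent.W665.HAP

/-- the family of subgroups: the trivial one and the finite index ones -/
def HH (H' : ℕ → Subgroup F2) : Option ℕ → Subgroup F2
  | none => ⊥
  | some n => H' n

instance HH_normal (H' : ℕ → Subgroup F2) [h : ∀ n, (H' n).Normal] : ∀ i, (HH H' i).Normal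
  | none => (inferInstance : (⊥ : Subgroup F2).Normal)
  | some n => h n

variable (H' : ℕ → Subgroup F2) [hN : ∀ n, (H' n).Normal]

/-- the group element of a point of the infinite block -/
noncomputable def el : XX (HH H') → F2
  | ⟨none, x⟩ => (QuotientGroup.quotientBot (G := F2)) x
  | ⟨some _, _⟩ => 1

theorem el_bp (i : Option ℕ) : el H' (bp (HH H') i) = 1 := by
  cases i with
  | none => exact map_one (QuotientGroup.quotientBot (G := F2))
  | some n => rfl

theorem el_lE (g : F2) (x y : XX (HH H')) (hxy : x.1 = y.1) :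
    (el H' (lE (HH H') g x))⁻¹ * el H' (lE (HH H') g y) = (el H' x)⁻¹ * el H' y := by
  obtain ⟨i, x⟩ := x
  obtain ⟨j, y⟩ := y
  obtain rfl : i = j := hxy
  cases i with
  | none =>
    have h : ∀ z : F2 ⧸ (⊥ : Subgroup F2), el H' (lE (HH H') g ⟨none, z⟩) = g * el H' ⟨none, z⟩ := by
      intro z
      show (QuotientGroup.quotientBot (G := F2)) ((g : F2 ⧸ (⊥ : Subgroup F2)) * z)
        = g * (QuotientGroup.quotientBot (G := F2)) z
      rw [map_mul]
      rfl
    have e := h x
    have e' := h y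
    rw [e, e']
    group
  | some n => rfl

theorem finite_ball (L : ℕ) : Set.Finite {g : F2 | g.norm ≤ L} := by
  have h1 := List.finite_length_le (Fin 2 × Bool) L
  exact Set.Finite.preimage (f := FreeGroup.toWord) FreeGroup.toWord_injective.injOn h1

section data

variable (κ : ℝ) (hκ0 : 0 ≤ κ) (hκ1 : κ < 1)

/-- the vectors -/
noncomputable def xivc (x : XX (HH H')) : Option (List (Fin 2 × Bool)) →₀ ℂ :=
  (xiv κ (el H' x).toWord).mapRange (fun r : ℝ => (r : ℂ)) Complex.ofReal_zero

include hκ0 hκ1 in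
theorem ker_xivc (x y : XX (HH H')) :
    ker (xivc H' κ) x y = ((κ ^ ((el H' x)⁻¹ * el H' y).norm : ℝ) : ℂ) := by
  have hκ : κ ^ 2 ≤ 1 := by nlinarith
  rw [Pool.Agent.H71R3.Tree.norm_inv_mul, ← ipf_xiv κ hκ, ipf_eq]
  unfold ker xivc
  rw [Finsupp.support_mapRange_of_injective _ _ Complex.ofReal_injective, Complex.ofReal_sum]
  refine Finset.sum_congr rfl fun k _ => ?_
  rw [Finsupp.mapRange_apply, Finsupp.mapRange_apply, Complex.conj_ofReal]
  push_cast
  rfl

/-- the multiplier data -/
noncomputable def DD (N : ℕ) : Mult (HH H') where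
  Y := Option (List (Fin 2 × Bool))
  dec := inferInstance
  ξ := xivc H' κ
  one := fun x => by
    rw [ker_xivc H' κ hκ0 hκ1, inv_mul_cancel]; simp
  inv := fun g x y hxy => by
    rw [ker_xivc H' κ hκ0 hκ1, ker_xivc H' κ hκ0 hκ1, el_lE H' g x y hxy]
  k := fun x => κ ^ (el H' x).norm
  hk := fun x => by
    rw [ker_xivc H' κ hκ0 hκ1, el_bp, mul_one, FreeGroup.norm_inv_eq]
  k_le := fun x => by
    rw [abs_of_nonneg (by positivity)]
    exact pow_le_one₀ hκ0 hκ1.le
  J := insert none ((Finset.range N).image some)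

theorem DD_m (N : ℕ) (x : XX (HH H')) : (DD H' κ hκ0 hκ1 N).m x =
    (if x.1 ∈ insert none ((Finset.range N).image some) then (1 : ℂ) else 0) *
      ((κ ^ (el H' x).norm : ℝ) : ℂ) := rfl

theorem DD_decay (hf : ∀ n, (H' n).FiniteIndex) (N : ℕ) :
    Tendsto (DD H' κ hκ0 hκ1 N).m cofinite (nhds 0) := by
  rw [tendsto_zero_iff_norm_tendsto_zero]
  rw [Metric.tendsto_nhds]
  intro ε hε
  obtain ⟨L, hL⟩ := exists_pow_lt_of_lt_one hε hκ1
  show {x | ¬ dist ‖(DD H' κ hκ0 hκ1 N).m x‖ 0 < ε}.Finite
  have hfin : Set.Finite (⋃ i ∈ insert none ((Finset.range N).image some),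
      (Sigma.mk i '' {z : F2 ⧸ HH H' i | i = none → (el H' ⟨i, z⟩).norm ≤ L} : Set (XX (HH H')))) := by
    refine Set.Finite.biUnion (Finset.finite_toSet _) fun i _ => Set.Finite.image _ ?_
    cases i with
    | none =>
      have h1 := Set.Finite.preimage (f := (QuotientGroup.quotientBot (G := F2)))
        (QuotientGroup.quotientBot (G := F2)).injective.injOn (finite_ball L)
      refine h1.subset fun z hz => ?_
      exact hz rfl
    | some n =>
      have : Finite (F2 ⧸ HH H' (some n)) := by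
        have := hf n
        exact (Subgroup.finite_quotient_of_finiteIndex : Finite (F2 ⧸ H' n))
      exact Set.toFinite _
  refine hfin.subset fun x hx => ?_
  obtain ⟨i, z⟩ := x
  simp only [Set.mem_ofPred_eq, dist_zero_right, norm_norm, not_lt] at hx
  rw [DD_m] at hx
  by_cases hi : i ∈ insert none ((Finset.range N).image some)
  · refine Set.mem_biUnion hi ⟨z, fun hn => ?_, rfl⟩
    by_contra hcon
    push Not at hcon
    have h2 : ‖(if i ∈ insert none ((Finset.range N).image some) then (1 : ℂ) else 0) *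
        ((κ ^ (el H' ⟨i, z⟩).norm : ℝ) : ℂ)‖ ≤ κ ^ L := by
      rw [if_pos hi, one_mul, Complex.norm_real, Real.norm_of_nonneg (by positivity)]
      exact pow_le_pow_of_le_one hκ0 hκ1.le hcon.le
    have h3 := hx.trans h2
    linarith
  · have h4 : ¬ ((⟨i, z⟩ : XX (HH H')).1 ∈ insert none ((Finset.range N).image some)) := hi
    rw [if_neg h4, zero_mul, norm_zero] at hx
    linarith

end data

theorem haagerup_big (hf : ∀ n, (H' n).FiniteIndex) : HaagerupProperty (tau (HH H')) := by
  have hk0 : ∀ N : ℕ, (0 : ℝ) ≤ 1 - 1 / ((N : ℝ) + 1) := fun N => by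
    rw [sub_nonneg, div_le_one (by positivity)]
    have : (0 : ℝ) ≤ N := Nat.cast_nonneg N
    linarith
  have hk1 : ∀ N : ℕ, 1 - 1 / ((N : ℝ) + 1) < 1 := fun N => by
    have : (0 : ℝ) < 1 / ((N : ℝ) + 1) := by positivity
    linarith
  refine haagerup_of_mult (fun N => DD H' (1 - 1 / ((N : ℝ) + 1)) (hk0 N) (hk1 N) N)
    (fun N => DD_decay H' _ _ _ hf N) fun x => ?_
  have h1 : Tendsto (fun N : ℕ => (((1 - 1 / ((N : ℝ) + 1)) ^ (el H' x).norm : ℝ) : ℂ)) atTop
      (nhds 1) := by
    have h2 : Tendsto (fun N : ℕ => 1 - 1 / ((N : ℝ) + 1)) atTop (nhds (1 - 0)) :=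
      tendsto_const_nhds.sub tendsto_one_div_add_atTop_nhds_zero_nat
    have h3 := h2.pow (el H' x).norm
    rw [sub_zero, one_pow] at h3
    have h4 := (Complex.continuous_ofReal.tendsto 1).comp h3
    rw [Complex.ofReal_one] at h4
    exact h4
  refine h1.congr' ?_
  have h5 : ∀ᶠ N : ℕ in atTop, x.1 ∈ insert none ((Finset.range N).image some) := by
    obtain ⟨i, z⟩ := x
    cases i with
    | none => exact Eventually.of_forall fun N => Finset.mem_insert_self _ _
    | some n =>
      filter_upwards [eventually_gt_atTop n] with N hN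
      exact Finset.mem_insert_of_mem (Finset.mem_image_of_mem _ (Finset.mem_range.2 hN))
  filter_upwards [h5] with N hN
  rw [DD_m, if_pos hN, one_mul]

end Pool.Agent.W665.HAP
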