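import Mathlib
import Pool.Agent.W665.HAP.Trace
import Pool.Agent.Helper436.SM.RF1

set_option autoImplicit false

open Filter

namespace Pool.Agent.W665.HAP

theorem sep_finset (S : Finset F2) : ∃ H : Subgroup F2, H.Normal ∧ H.FiniteIndex ∧
    ∀ g ∈ S, g ≠ 1 → g ∉ H := by
  induction S using Finset.induction_on with
  | empty => exact ⟨⊤, inferInstance, inferInstance, by simp⟩
  | insert a S _ ih =>
    obtain ⟨H, h1, h2, h3⟩ := ih
    by_cases ha : a = 1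
    · refine ⟨H, h1, h2, fun g hg hg1 => ?_⟩
      rcases Finset.mem_insert.1 hg with h | h
      · exact absurd (h.trans ha) hg1
      · exact h3 g h hg1
    · obtain ⟨m, e, he⟩ := Pool.Agent.Helper436.SM.free_rf a ha
      refine ⟨H ⊓ (FreeGroup.lift e).ker, inferInstance, inferInstance, fun g hg hg1 hmem => ?_⟩
      rcases Finset.mem_insert.1 hg with h | h
      · rw [h] at hmem
        exact he hmem.2
      · exact h3 g h hg1 hmem.1

theorem sep (L : ℕ) : ∃ H : Subgroup F2, H.Normal ∧ H.FiniteIndex ∧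
    ∀ g ∈ H, g ≠ 1 → L < g.norm := by
  have hb : Set.Finite {g : F2 | g.norm ≤ L} :=
    Set.Finite.preimage (f := FreeGroup.toWord) FreeGroup.toWord_injective.injOn
      (List.finite_length_le (Fin 2 × Bool) L)
  obtain ⟨H, h1, h2, h3⟩ := sep_finset hb.toFinset
  refine ⟨H, h1, h2, fun g hg hg1 => ?_⟩
  by_contra hcon
  push Not at hcon
  exact h3 g (hb.mem_toFinset.2 hcon) hg1 hg

/-- states of the recursion -/
def St : Type := {p : Subgroup F2 × ℕ // p.1.Normal ∧ p.1.FiniteIndex ∧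
  ∀ g ∈ p.1, g ≠ 1 → 2 * 2 ^ p.2 < g.norm}

theorem step (n : ℕ) (s : St) : ∃ s' : St, s'.1.1 ≤ s.1.1 ∧ n + 1 ≤ s'.1.2 ∧
    ((s.1.1).index : ℝ) / wc (some n) ≤ 0.01 * (1.08) ^ (2 ^ s'.1.2) := by
  obtain ⟨⟨H, r⟩, h1, h2, h3⟩ := s
  have hlim : Tendsto (fun k : ℕ => (0.01 : ℝ) * (1.08) ^ (2 ^ k)) atTop atTop := by
    refine Tendsto.const_mul_atTop (by norm_num) ?_
    exact (tendsto_pow_atTop_atTop_of_one_lt (by norm_num : (1 : ℝ) < 1.08)).comp
      (tendsto_pow_atTop_atTop_of_one_lt (by norm_num))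
  obtain ⟨k, hk, hk2⟩ := ((hlim.eventually_ge_atTop ((H.index : ℝ) / wc (some n))).and
    (eventually_ge_atTop (n + 1))).exists
  obtain ⟨N, hN1, hN2, hN3⟩ := sep (2 * 2 ^ k)
  exact ⟨⟨⟨H ⊓ N, k⟩, inferInstance, inferInstance, fun g hg hg1 => hN3 g hg.2 hg1⟩,
    inf_le_left, hk2, hk⟩

theorem exists_seq : ∃ (H : ℕ → Subgroup F2) (r : ℕ → ℕ), (∀ n, (H n).Normal) ∧
    (∀ n, (H n).FiniteIndex) ∧ Antitone H ∧
    (∀ n, ∀ g ∈ H n, g ≠ 1 → 2 * 2 ^ r n < g.norm) ∧ (∀ n, n ≤ r n) ∧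
    ∀ n, ((H n).index : ℝ) / wc (some n) ≤ 0.01 * (1.08) ^ (2 ^ r (n + 1)) := by
  choose f hf1 hf3 hf2 using step
  obtain ⟨N, hN1, hN2, hN3⟩ := sep (2 * 2 ^ 0)
  let s0 : St := ⟨⟨N, 0⟩, hN1, hN2, hN3⟩
  let s : ℕ → St := fun n => Nat.rec s0 (fun k t => f k t) n
  have hs : ∀ n, s (n + 1) = f n (s n) := fun n => rfl
  refine ⟨fun n => (s n).1.1, fun n => (s n).1.2, fun n => (s n).2.1, fun n => (s n).2.2.1,
    antitone_nat_of_succ_le fun n => ?_, fun n => (s n).2.2.2, fun n => ?_,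
    fun n => ?_⟩
  · show (s (n + 1)).1.1 ≤ (s n).1.1
    rw [hs]
    exact hf1 n (s n)
  · cases n with
    | zero => exact Nat.zero_le _
    | succ n =>
      show n + 1 ≤ (s (n + 1)).1.2
      rw [hs]
      exact hf3 n (s n)
  · show _ ≤ (0.01 : ℝ) * (1.08) ^ (2 ^ (s (n + 1)).1.2)
    rw [hs]
    exact hf2 n (s n)

end Pool.Agent.W665.HAP
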