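import Mathlib
import Pool.Agent.W665.HAP.PosFin
import Pool.Agent.W665.HAP.Abs2
import Pool.Agent.W665.HAP.Seq

set_option autoImplicit false
set_option linter.unusedSectionVars false

open scoped InnerProductSpace ComplexOrder ComplexConjugate CStarAlgebra
open Filter

namespace Pool.Agent.W665.HAP

section gen

variable (H : Option ℕ → Subgroup F2) [hN : ∀ i, (H i).Normal]

/-- the central projections in the algebra -/
noncomputable def zA (i : Option ℕ) : AA H := mkA (Zop H i) (Zop_mem H i)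

/-- the right translations in the algebra -/
noncomputable def rA (g : F2) : AA H := mkA (Rop H g) (Rop_mem H g)

theorem op_zA (i : Option ℕ) : op H (zA H i) = Zop H i := rfl

theorem op_rA (g : F2) : op H (rA H g) = Rop H g := rfl

theorem zA_star (i : Option ℕ) : star (zA H i) = zA H i := by
  apply op_injective; rw [map_star, op_zA, Zop_star]

theorem zA_idem (i : Option ℕ) : zA H i * zA H i = zA H i := by
  apply op_injective; rw [map_mul, op_zA, Zop_mul_self]

theorem zA_comm (i : Option ℕ) (T : AA H) : zA H i * T = T * zA H i := by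
  apply op_injective; rw [map_mul, map_mul, op_zA]; exact ((mem_AS H _).1 (op_mem T)).2 i

theorem zA_orth (i j : Option ℕ) (h : i ≠ j) : zA H i * zA H j = 0 := by
  apply op_injective; rw [map_mul, op_zA, op_zA, Zop_mul_ne H i j h, map_zero]

theorem rA_mul (g h : F2) : rA H (g * h) = rA H g * rA H h := by
  apply op_injective; rw [map_mul, op_rA, op_rA, op_rA, Rop_mul]

theorem rA_one : rA H 1 = 1 := by
  apply op_injective; rw [op_rA, Rop_one, map_one]

theorem rA_star (g : F2) : star (rA H g) = rA H g⁻¹ := by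
  apply op_injective; rw [map_star, op_rA, Rop_star, op_rA]

theorem tau_z (i : Option ℕ) (T : AA H) :
    tau H (zA H i * T) = (wc i : ℂ) * cf (op H T) (bp H i) (bp H i) := by
  rw [tau_apply, map_mul, op_zA]
  have h1 : ⟪Om H, (Zop H i * op H T) (Om H)⟫_ℂ = ⟪Zop H i (Om H), op H T (Om H)⟫_ℂ := by
    conv_lhs => rw [← Zop_star]
    rw [ContinuousLinearMap.star_eq_adjoint]
    show ⟪Om H, (ContinuousLinearMap.adjoint (Zop H i)) (op H T (Om H))⟫_ℂ = _
    rw [ContinuousLinearMap.adjoint_inner_right]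
  rw [h1, Zop_Om, inner_smul_left, inner_dl, op_Om_apply _ (op_mem T), Complex.conj_ofReal,
    ← mul_assoc, ← Complex.ofReal_mul]
  show ((Real.sqrt (wc i) * Real.sqrt (wc i) : ℝ) : ℂ) * _ = _
  rw [Real.mul_self_sqrt (wc_pos i).le]
  rfl

theorem cf_one (i : Option ℕ) : cf (op H (1 : AA H)) (bp H i) (bp H i) = 1 := by
  rw [map_one]
  show (dl (bp H i) : HS (XX H)) (bp H i) = 1
  rw [dl_apply, if_pos rfl]

theorem tau_zA (i : Option ℕ) : tau H (zA H i) = (wc i : ℂ) := by
  have h := tau_z H i 1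
  rw [mul_one, cf_one, mul_one] at h
  exact h

theorem cf_rA (g : F2) (i : Option ℕ) [Decidable (g ∈ H i)] :
    cf (op H (rA H g)) (bp H i) (bp H i) = if g ∈ H i then 1 else 0 := by
  rw [op_rA]
  unfold cf
  rw [Rop_dl, dl_apply]
  have e : rE H g⁻¹ (bp H i) = ⟨i, (g : F2 ⧸ H i)⁻¹⟩ := by
    show rE H g⁻¹ ⟨i, 1⟩ = _
    rw [rE_mk, one_mul]; rfl
  rw [e]
  have e2 : (bp H i = (⟨i, (g : F2 ⧸ H i)⁻¹⟩ : XX H)) ↔ g ∈ H i := by
    unfold bp
    rw [Sigma.mk.injEq]
    simp only [heq_eq_eq, true_and]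
    rw [eq_comm, inv_eq_one, QuotientGroup.eq_one_iff]
  by_cases h : g ∈ H i
  · rw [if_pos h, if_pos (e2.2 h)]
  · rw [if_neg h, if_neg (fun h' => h (e2.1 h'))]

theorem norm_cf_le (T : AA H) (x y : XX H) : ‖cf (op H T) x y‖ ≤ ‖T‖ := by
  rw [cf_eq]
  refine (norm_inner_le_norm _ _).trans ?_
  rw [norm_dl, one_mul]
  refine ((op H T).le_opNorm _).trans ?_
  rw [norm_dl, mul_one]
  exact le_of_eq (norm_op T)

theorem zA_rA (i : Option ℕ) (g : F2) (hg : g ∈ H i) : zA H i * rA H g = zA H i := by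
  apply op_injective
  rw [map_mul, op_zA, op_rA]
  ext f x
  show (Zop H i (Rop H g f)) x = (Zop H i f) x
  rw [Zop_apply, Zop_apply]
  by_cases h : x.1 = i
  · rw [if_pos h, if_pos h]
    obtain ⟨j, x⟩ := x
    obtain rfl : j = i := h
    show f (rE H g ⟨j, x⟩) = f ⟨j, x⟩
    rw [rE_mk, (QuotientGroup.eq_one_iff g).2 hg, mul_one]
  · rw [if_neg h, if_neg h]

/-- the span of the translations -/
noncomputable def SP : Submodule ℂ (AA H) := Submodule.span ℂ (Set.range (rA H))

theorem rA_mem_SP (g : F2) : rA H g ∈ SP H := Submodule.subset_span ⟨g, rfl⟩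

theorem SP_mul {p q : AA H} (hp : p ∈ SP H) (hq : q ∈ SP H) : p * q ∈ SP H := by
  have h : SP H * SP H ≤ SP H := by
    unfold SP
    rw [Submodule.span_mul_span]
    refine Submodule.span_mono ?_
    rintro _ ⟨_, ⟨g, rfl⟩, _, ⟨h, rfl⟩, rfl⟩
    exact ⟨g * h, rA_mul H g h⟩
  exact h (Submodule.mul_mem_mul hp hq)

theorem SP_star {p : AA H} (hp : p ∈ SP H) : star p ∈ SP H := by
  unfold SP at hp
  induction hp using Submodule.span_induction with
  | mem x hx =>
    obtain ⟨g, rfl⟩ := hx
    rw [rA_star]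
    exact rA_mem_SP H _
  | zero => rw [star_zero]; exact Submodule.zero_mem _
  | add x y _ _ hx hy => rw [star_add]; exact Submodule.add_mem _ hx hy
  | smul a x _ hx => rw [star_smul]; exact Submodule.smul_mem _ _ hx

/-- the blocks at infinity -/
def tail (N : ℕ) (i : Option ℕ) : Prop := i = none ∨ ∃ n, N ≤ n ∧ i = some n

theorem tail_mono {N M : ℕ} (h : N ≤ M) {i : Option ℕ} (hi : tail M i) : tail N i := by
  rcases hi with h1 | ⟨n, h1, h2⟩
  · exact Or.inl h1
  · exact Or.inr ⟨n, h.trans h1, h2⟩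

/-- the algebra of elements which agree with a fixed element of the group algebra near infinity -/
noncomputable def B0 : StarSubalgebra ℂ (AA H) where
  carrier := {T | ∃ p ∈ SP H, ∃ N, ∀ i, tail N i → T * zA H i = p * zA H i}
  mul_mem' := by
    rintro S T ⟨p, hp, N, hN⟩ ⟨q, hq, M, hM⟩
    refine ⟨p * q, SP_mul H hp hq, max N M, fun i hi => ?_⟩
    have h1 := hN i (tail_mono (le_max_left _ _) hi)
    have h2 := hM i (tail_mono (le_max_right _ _) hi)
    calc S * T * zA H i = S * (T * zA H i) := mul_assoc _ _ _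
      _ = S * zA H i * q := by rw [h2, ← zA_comm, mul_assoc]
      _ = p * (zA H i * q) := by rw [h1, mul_assoc]
      _ = p * q * zA H i := by rw [zA_comm, mul_assoc]
  one_mem' := ⟨1, by rw [← rA_one]; exact rA_mem_SP H 1, 0, fun i _ => rfl⟩
  add_mem' := by
    rintro S T ⟨p, hp, N, hN⟩ ⟨q, hq, M, hM⟩
    refine ⟨p + q, Submodule.add_mem _ hp hq, max N M, fun i hi => ?_⟩
    rw [add_mul, add_mul, hN i (tail_mono (le_max_left _ _) hi),
      hM i (tail_mono (le_max_right _ _) hi)]
  zero_mem' := ⟨0, Submodule.zero_mem _, 0, fun i _ => rfl⟩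
  algebraMap_mem' := fun c => by
    refine ⟨algebraMap ℂ (AA H) c, ?_, 0, fun i _ => rfl⟩
    rw [Algebra.algebraMap_eq_smul_one, ← rA_one]
    exact Submodule.smul_mem _ _ (rA_mem_SP H 1)
  star_mem' := by
    rintro T ⟨p, hp, N, hN⟩
    refine ⟨star p, SP_star H hp, N, fun i hi => ?_⟩
    have h1 := congrArg star (hN i hi)
    rw [star_mul, star_mul, zA_star, zA_comm, zA_comm] at h1
    exact h1

theorem rA_mem_B0 (g : F2) : rA H g ∈ B0 H := ⟨rA H g, rA_mem_SP H g, 0, fun _ _ => rfl⟩

theorem zA_mem_B0 (n : ℕ) : zA H (some n) ∈ B0 H := by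
  refine ⟨0, Submodule.zero_mem _, n + 1, fun i hi => ?_⟩
  rw [zero_mul]
  refine zA_orth H _ _ ?_
  rcases hi with h1 | ⟨k, h1, h2⟩
  · rw [h1]; exact Option.some_ne_none n
  · rw [h2]
    intro h
    have := Option.some.inj h
    omega

/-- the small algebra -/
noncomputable def Bs : StarSubalgebra ℂ (AA H) := (B0 H).topologicalClosure

/-- diagonal coefficients -/
noncomputable def om (i : Option ℕ) (T : AA H) : ℂ := cf (op H T) (bp H i) (bp H i)

theorem om_eq (i : Option ℕ) (T : AA H) : om H i T = tau H (T * zA H i) / (wc i : ℂ) := by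
  rw [← zA_comm, tau_z, om, mul_comm, mul_div_cancel_right₀]
  rw [Ne, Complex.ofReal_eq_zero]
  exact (wc_pos i).ne'

theorem om_add (i : Option ℕ) (S T : AA H) : om H i (S + T) = om H i S + om H i T := by
  unfold om cf
  rw [map_add]
  rfl

theorem om_smul (i : Option ℕ) (c : ℂ) (T : AA H) : om H i (c • T) = c * om H i T := by
  unfold om cf
  rw [map_smul]
  rfl

theorem om_sub (i : Option ℕ) (S T : AA H) : om H i (S - T) = om H i S - om H i T := by
  unfold om cf
  rw [map_sub]
  rfl

variable (hesc : ∀ g : F2, g ≠ 1 → ∀ᶠ n : ℕ in atTop, g ∉ H (some n)) (hbot : H none = ⊥)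

include hesc hbot in
theorem om_SP {p : AA H} (hp : p ∈ SP H) :
    Tendsto (fun n : ℕ => om H (some n) p) atTop (nhds (om H none p)) := by
  classical
  unfold SP at hp
  induction hp using Submodule.span_induction with
  | mem x hx =>
    obtain ⟨g, rfl⟩ := hx
    unfold om
    simp only [cf_rA]
    by_cases hg : g = 1
    · subst hg
      simp only [one_mem, if_true]
      exact tendsto_const_nhds
    · have h0 : g ∉ H none := by rw [hbot, Subgroup.mem_bot]; exact hg
      rw [if_neg h0]
      refine tendsto_const_nhds.congr' ?_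
      filter_upwards [hesc g hg] with n hn
      rw [if_neg hn]
  | zero =>
    have : ∀ i, om H i 0 = 0 := fun i => by unfold om cf; rw [map_zero]; rfl
    simp only [this]
    exact tendsto_const_nhds
  | add x y _ _ hx hy => simp only [om_add]; exact hx.add hy
  | smul a x _ hx => simp only [om_smul]; exact hx.const_mul a

include hesc hbot in
theorem om_B0 {T : AA H} (hT : T ∈ B0 H) :
    Tendsto (fun n : ℕ => om H (some n) T) atTop (nhds (om H none T)) := by
  obtain ⟨p, hp, N, hN⟩ := hT
  have h1 : om H none T = om H none p := by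
    rw [om_eq, om_eq, hN none (Or.inl rfl)]
  rw [h1]
  refine (om_SP H hesc hbot hp).congr' ?_
  filter_upwards [eventually_ge_atTop N] with n hn
  rw [om_eq, om_eq, hN (some n) (Or.inr ⟨n, hn, rfl⟩)]

include hesc hbot in
theorem om_Bs {T : AA H} (hT : T ∈ Bs H) :
    Tendsto (fun n : ℕ => om H (some n) T) atTop (nhds (om H none T)) := by
  rw [Metric.tendsto_atTop]
  intro ε hε
  have h1 : T ∈ closure ((B0 H : StarSubalgebra ℂ (AA H)) : Set (AA H)) := hT
  obtain ⟨S, hS, hST⟩ := Metric.mem_closure_iff.1 h1 (ε / 3) (by positivity)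
  obtain ⟨N, hN⟩ := Metric.tendsto_atTop.1 (om_B0 H hesc hbot hS) (ε / 3) (by positivity)
  refine ⟨N, fun n hn => ?_⟩
  have h2 : ∀ i, dist (om H i T) (om H i S) < ε / 3 := by
    intro i
    rw [dist_eq_norm, ← om_sub]
    refine (norm_cf_le H _ _ _).trans_lt ?_
    rw [← dist_eq_norm]
    exact hST
  have h3 := hN n hn
  have h4 := h2 (some n)
  have h5 := h2 none
  rw [dist_comm] at h5
  calc dist (om H (some n) T) (om H none T)
      ≤ dist (om H (some n) T) (om H (some n) S) + dist (om H (some n) S) (om H none S)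
        + dist (om H none S) (om H none T) := dist_triangle4 _ _ _ _
    _ < ε := by linarith

end gen

end Pool.Agent.W665.HAP
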