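import Mathlib
import Pool.Agent.W665.HAP.Small

set_option autoImplicit false
set_option linter.unusedSectionVars false

open scoped InnerProductSpace ComplexOrder ComplexConjugate CStarAlgebra
open Filter

namespace Pool.Agent.W665.HAP

section gen

variable (H : Option ℕ → Subgroup F2) [hN : ∀ i, (H i).Normal]

instance isClosed_Bs : IsClosed ((Bs H : StarSubalgebra ℂ (AA H)) : Set (AA H)) :=
  StarSubalgebra.isClosed_topologicalClosure _

/-- the small algebra as a type -/
def BB : Type := (Bs H : StarSubalgebra ℂ (AA H))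

noncomputable instance : CStarAlgebra (BB H) :=
  inferInstanceAs (CStarAlgebra (Bs H : StarSubalgebra ℂ (AA H)))

noncomputable instance : PartialOrder (BB H) := CStarAlgebra.spectralOrder _

instance : StarOrderedRing (BB H) := CStarAlgebra.spectralOrderedRing _

/-- the inclusion -/
noncomputable def iB : BB H →⋆ₐ[ℂ] AA H := (Bs H).subtype

variable {H}

theorem iB_injective : Function.Injective (iB H) := Subtype.val_injective

theorem iB_mem (T : BB H) : iB H T ∈ Bs H := T.2

/-- make an element -/
noncomputable def mkB (T : AA H) (hT : T ∈ Bs H) : BB H := ⟨T, hT⟩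

theorem iB_mkB (T : AA H) (hT : T ∈ Bs H) : iB H (mkB T hT) = T := rfl

variable (H)

theorem rA_mem_Bs (g : F2) : rA H g ∈ Bs H :=
  StarSubalgebra.le_topologicalClosure _ (rA_mem_B0 H g)

theorem zA_mem_Bs (n : ℕ) : zA H (some n) ∈ Bs H :=
  StarSubalgebra.le_topologicalClosure _ (zA_mem_B0 H n)

/-- the restricted trace -/
noncomputable def sigma : BB H →ₚ[ℂ] ℂ :=
  PositiveLinearMap.mk₀
    { toFun := fun T => tau H (iB H T)
      map_add' := fun S T => by rw [map_add, map_add]
      map_smul' := fun c T => by rw [map_smul, map_smul]; rfl } (fun T hT => by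
    obtain ⟨S, rfl⟩ := CStarAlgebra.nonneg_iff_eq_star_mul_self.1 hT
    show (0 : ℂ) ≤ tau H (iB H (star S * S))
    rw [map_mul, map_star]
    exact map_nonneg (tau H) (star_mul_self_nonneg _))

theorem sigma_apply (T : BB H) : sigma H T = tau H (iB H T) := rfl

/-- a termwise vanishing inner product with `Ω` -/
theorem inner_Om_zero (f : HS (XX H)) (h : ∀ i, f (bp H i) = 0) : ⟪Om H, f⟫_ℂ = 0 := by
  rw [lp.inner_eq_tsum]
  have : ∀ x : XX H, ⟪(Om H) x, f x⟫_ℂ = 0 := by
    intro x
    by_cases hx : x = bp H x.1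
    · rw [hx, h, inner_zero_right]
    · rw [Om_apply, Omfun_ne H x hx, inner_zero_left]
  exact (tsum_congr this).trans tsum_zero

theorem Rop_Om_bp (g : F2) (i : Option ℕ) (hg : g ∉ H i) : (Rop H g (Om H)) (bp H i) = 0 := by
  show (Om H) (rE H g (bp H i)) = 0
  rw [Om_apply]
  apply Omfun_ne
  intro h
  have h1 : rE H g (bp H i) = ⟨i, (g : F2 ⧸ H i)⟩ := by
    show rE H g ⟨i, 1⟩ = _
    rw [rE_mk, one_mul]
  rw [h1] at h
  unfold bp at h
  rw [Sigma.mk.injEq] at h
  exact hg ((QuotientGroup.eq_one_iff g).1 (eq_of_heq h.2))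

theorem tau_z_le (i : Option ℕ) (x : AA H) :
    (tau H (zA H i * (star x * x))).re ≤ (tau H (star x * x)).re := by
  refine re_mono (tau H) ?_
  have h : star x * x - zA H i * (star x * x) = star (x * (1 - zA H i)) * (x * (1 - zA H i)) := by
    have e1 : zA H i * (star x * x) * zA H i = zA H i * (star x * x) := by
      rw [mul_assoc, ← zA_comm, ← mul_assoc, zA_idem]
    rw [star_mul, star_sub, star_one, zA_star]
    have e2 : (1 - zA H i) * star x * (x * (1 - zA H i)) =
        star x * x - star x * x * zA H i - (zA H i * (star x * x) - zA H i * (star x * x) * zA H i) := by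
      noncomm_ring
    rw [e2, e1, ← zA_comm]
    abel
  rw [← sub_nonneg, h]
  exact star_mul_self_nonneg _

/-- translations in the small algebra -/
noncomputable def rB : F2 →* BB H where
  toFun := fun g => mkB (rA H g) (rA_mem_Bs _ g)
  map_one' := by
    apply iB_injective
    rw [iB_mkB, map_one, rA_one]
  map_mul' := fun g h => by
    apply iB_injective
    rw [map_mul, iB_mkB, iB_mkB, iB_mkB, rA_mul]

theorem iB_rB (g : F2) : iB H (rB H g) = rA H g := rfl

/-- central projections in the small algebra -/
noncomputable def zB (n : ℕ) : BB H := mkB (zA H (some n)) (zA_mem_Bs _ n)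

theorem iB_zB (n : ℕ) : iB H (zB H n) = zA H (some n) := rfl

end gen

section conf

variable (H' : ℕ → Subgroup F2) [hN : ∀ n, (H' n).Normal]

/-- the configuration -/
noncomputable def cfg (hf : ∀ n, (H' n).FiniteIndex) (ha : Antitone H') (r : ℕ → ℕ)
    (hg : ∀ n, ∀ g ∈ H' n, g ≠ 1 → 2 * 2 ^ r n < g.norm) (hr : ∀ n, n ≤ r n)
    (hgr : ∀ n, ((H' n).index : ℝ) / wc (some n) ≤ 0.01 * (1.08) ^ (2 ^ r (n + 1))) :
    Cfg (sigma (HH H')) where
  one := by
    rw [sigma_apply, map_one]
    exact (tau_isFaithfulTracialState (HH H')).map_one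
  tr := fun a b => by
    rw [sigma_apply, sigma_apply, map_mul (iB (HH H')), map_mul (iB (HH H'))]
    exact (tau_isFaithfulTracialState (HH H')).tracial _ _
  ρ := rB (HH H')
  ρ_star := fun g => by
    apply iB_injective
    rw [map_star, iB_rB, iB_rB, rA_star]
  z := zB (HH H')
  z_star := fun n => by
    apply iB_injective
    rw [map_star, iB_zB, zA_star]
  z_idem := fun n => by
    apply iB_injective
    rw [map_mul, iB_zB, zA_idem]
  z_comm := fun n b => by
    apply iB_injective
    rw [map_mul, map_mul, iB_zB, zA_comm]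
  z_orth := fun n k h => by
    apply iB_injective
    rw [map_mul, map_zero, iB_zB, iB_zB, zA_orth (HH H') _ _ (fun h' => h (Option.some.inj h'))]
  c := fun n => wc (some n)
  c_pos := fun n => wc_pos _
  σ_z := fun n => by rw [sigma_apply, iB_zB, tau_zA]
  H := H'
  Hf := hf
  Hn := hN
  H_anti := ha
  zρ := fun n g h => by
    apply iB_injective
    rw [map_mul, iB_zB, iB_rB]
    exact zA_rA (HH H') (some n) g h
  σzρ := fun n g h => by
    classical
    rw [sigma_apply, map_mul (iB (HH H')), iB_zB, iB_rB]
    have h0 : g ∉ HH H' (some n) := h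
    rw [tau_z, cf_rA, if_neg h0, mul_zero]
  r := r
  girth := hg
  rest := fun n g h1 h2 => by
    rw [sigma_apply, map_mul (iB (HH H')), map_sub (iB (HH H')), map_one (iB (HH H')),
      map_sum (iB (HH H')), iB_rB]
    simp only [iB_zB]
    rw [tau_apply, map_mul, map_sub, map_one, map_sum, op_rA]
    refine inner_Om_zero (HH H') _ fun i => ?_
    have e : ((1 - ∑ k ∈ Finset.range (n + 1), op (HH H') (zA (HH H') (some k))) *
        Rop (HH H') g) (Om (HH H')) = Rop (HH H') g (Om (HH H')) -
        ∑ k ∈ Finset.range (n + 1), Zop (HH H') (some k) (Rop (HH H') g (Om (HH H'))) := by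
      show (1 - ∑ k ∈ Finset.range (n + 1), op (HH H') (zA (HH H') (some k)))
        (Rop (HH H') g (Om (HH H'))) = _
      rw [sub_apply, sum_apply]
      rfl
    rw [e]
    have e2 : ∀ f : HS (XX (HH H')), (f - ∑ k ∈ Finset.range (n + 1), Zop (HH H') (some k) f)
        (bp (HH H') i) = f (bp (HH H') i) - ∑ k ∈ Finset.range (n + 1),
          (if i = some k then f (bp (HH H') i) else 0) := by
      intro f
      rw [lp.coeFn_sub, Pi.sub_apply, lp.coeFn_sum, Finset.sum_apply]
      congr 1
      refine Finset.sum_congr rfl fun k _ => ?_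
      rw [Zop_apply]
      rfl
    rw [e2]
    by_cases hmem : g ∈ HH H' i
    · cases i with
      | none => exact absurd ((Subgroup.mem_bot).1 hmem) h1
      | some k =>
        have hk : k < n + 1 := by
          by_contra hcon
          push Not at hcon
          have h3 : g ∈ H' (n + 1) := ha hcon hmem
          have h4 := hg (n + 1) g h3 h1
          omega
        rw [Finset.sum_eq_single k]
        · rw [if_pos rfl, sub_self]
        · intro j _ hj
          rw [if_neg (fun h => hj (Option.some.inj h).symm)]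
        · intro h; exact absurd (Finset.mem_range.2 hk) h
    · rw [Rop_Om_bp (HH H') g i hmem]
      simp
  growth := hgr
  growth' := fun n => by
    refine le_trans ?_ (hgr n)
    rw [le_div_iff₀ (wc_pos _)]
    have h1 : wc (some n) ≤ 1 := by
      have h2 := le_hasSum wc_hasSum (some n) (fun i _ => (wc_pos i).le)
      exact h2
    have h3 : (0 : ℝ) ≤ (H' n).index := Nat.cast_nonneg _
    nlinarith
  lim := fun x ε hε => by
    have hesc : ∀ g : F2, g ≠ 1 → ∀ᶠ n : ℕ in atTop, g ∉ HH H' (some n) := by
      intro g hg1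
      filter_upwards [eventually_ge_atTop g.norm] with n hn hmem
      have h1 := hg n g hmem hg1
      have h2 := hr n
      have h3 : r n < 2 ^ r n := Nat.lt_two_pow_self
      omega
    have h1 := om_Bs (HH H') hesc rfl (iB_mem (star x * x))
    have h2 : ∀ i : Option ℕ, (om (HH H') i (iB (HH H') (star x * x))).re
        = (tau (HH H') (zA (HH H') i * iB (HH H') (star x * x))).re / wc i := by
      intro i
      rw [om_eq, ← zA_comm, Complex.div_ofReal_re]
    have h3 : Tendsto (fun n : ℕ => (om (HH H') (some n) (iB (HH H') (star x * x))).re) atTop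
        (nhds (om (HH H') none (iB (HH H') (star x * x))).re) :=
      (Complex.continuous_re.tendsto _).comp h1
    have h4 : (om (HH H') none (iB (HH H') (star x * x))).re
        < 2 * (sigma (HH H') (star x * x)).re + ε := by
      rw [h2, sigma_apply, map_mul (iB (HH H')), map_star (iB (HH H'))]
      have h5 := tau_z_le (HH H') none (iB (HH H') x)
      have h6 : wc none = 1 / 2 := rfl
      rw [h6]
      linarith
    filter_upwards [h3.eventually (gt_mem_nhds h4)] with n hn
    rw [h2] at hn
    rw [sigma_apply, map_mul (iB (HH H')), iB_zB]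
    exact hn.le

end conf

theorem main : ∃ (A : Type) (_ : CStarAlgebra A) (_ : PartialOrder A) (_ : StarOrderedRing A)
    (B : Type) (_ : CStarAlgebra B) (_ : PartialOrder B) (_ : StarOrderedRing B)
    (τ : A →ₚ[ℂ] ℂ) (σ : B →ₚ[ℂ] ℂ) (j : B →⋆ₐ[ℂ] A),
    IsFaithfulTracialState τ ∧ Function.Injective j ∧ IsClosed (Set.range j) ∧
      (∀ b : B, σ b = τ (j b)) ∧ HaagerupProperty τ ∧ ¬ HaagerupProperty σ := by
  obtain ⟨H', r, h1, h2, h3, h4, h5, h6⟩ := exists_seq
  have hN : ∀ n, (H' n).Normal := h1
  have hcl : IsClosed (Set.range (iB (HH H'))) := by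
    have e : Set.range (iB (HH H')) = ((Bs (HH H') : StarSubalgebra ℂ (AA (HH H'))) :
        Set (AA (HH H'))) := by
      ext x
      exact ⟨fun ⟨y, hy⟩ => hy ▸ iB_mem y, fun hx => ⟨mkB x hx, rfl⟩⟩
    rw [e]
    exact isClosed_Bs (HH H')
  exact ⟨AA (HH H'), inferInstance, inferInstance, inferInstance, BB (HH H'), inferInstance,
    inferInstance, inferInstance, tau (HH H'), sigma (HH H'), iB (HH H'),
    tau_isFaithfulTracialState (HH H'), iB_injective, hcl, fun b => rfl, haagerup_big H' h2,
    (cfg H' h2 h3 r h4 h5 h6).not_haagerup⟩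

end Pool.Agent.W665.HAP
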